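import Pool.Agent.RelW.NN
import Pool.Agent.RelM.HFIX

/-!
# The supergales and their bits
-/

set_option autoImplicit false

namespace Pool.Agent.RelW

open Pool.Agent.RelM (Lang Instr Cfg run Halts triple str pre hq)
open Pool.Agent.RelO (lev IsGale IsGaleCover st)
open Pool.Agent.RelM.HFIX_ (hq_inj hq_length triple_length)
open Pool.Agent.RelT (qf)

/-! ## The probabilities -/

theorem qf_nonneg {h : ℝ} (h0 : 0 ≤ h) (h1 : h ≤ 1) (b : Bool) : 0 ≤ qf h b := by
  unfold qf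
  split_ifs <;> linarith

theorem qf_sum (h : ℝ) : qf h false + qf h true = 1 := by
  simp [qf]

theorem hv_mem (Φ : Par2) (η : ℕ → ℕ → ℝ) (b : Bool) (j t : ℕ) :
    0 < hv Φ η b j t ∧ hv Φ η b j t < 1 := by
  unfold hv
  split_ifs
  · have h1 : (0 : ℝ) ≤ max 0 (min 1 (η j t)) := le_max_left _ _
    have h2 : max 0 (min 1 (η j t)) ≤ (1 : ℝ) := max_le (by norm_num) (min_le_left _ _)
    have h3 : (0 : ℝ) ≤ (Mg Φ j : ℝ) := Nat.cast_nonneg _
    have h4 : (0 : ℝ) ≤ (Mg Φ j : ℝ) * max 0 (min 1 (η j t)) := mul_nonneg h3 h1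
    have h5 : (Mg Φ j : ℝ) * max 0 (min 1 (η j t)) ≤ (Mg Φ j : ℝ) * 1 :=
      mul_le_mul_of_nonneg_left h2 h3
    exact ⟨div_pos (by linarith) (by linarith), (div_lt_one (by linarith)).2 (by linarith)⟩
  · norm_num

theorem hv0 (Φ : Par2) (η : ℕ → ℕ → ℝ) (b : Bool) (j t : ℕ) : 0 ≤ hv Φ η b j t :=
  (hv_mem Φ η b j t).1.le

theorem hv1 (Φ : Par2) (η : ℕ → ℕ → ℝ) (b : Bool) (j t : ℕ) : hv Φ η b j t ≤ 1 :=
  (hv_mem Φ η b j t).2.le

theorem Pw_append (Φ : Par2) (η : ℕ → ℕ → ℝ) (c : Bool) (j : ℕ) (w : List Bool) (b : Bool) :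
    Pw Φ η c j (w ++ [b]) = Pw Φ η c j w * qf (hv Φ η c j w.length) b := by
  unfold Pw
  rw [List.length_append, List.length_singleton, Finset.prod_range_succ]
  congr 1
  · refine Finset.prod_congr rfl fun t ht => ?_
    rw [Finset.mem_range] at ht
    rw [List.getD_append _ _ _ _ ht]
  · rw [List.getD_append_right _ _ _ _ le_rfl]
    simp

theorem Pw_nonneg (Φ : Par2) (η : ℕ → ℕ → ℝ) (c : Bool) (j : ℕ) (w : List Bool) :
    0 ≤ Pw Φ η c j w := Finset.prod_nonneg fun _ _ => qf_nonneg (hv0 _ _ _ _ _) (hv1 _ _ _ _ _) _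

theorem Pw_sum (Φ : Par2) (η : ℕ → ℕ → ℝ) (c : Bool) (j : ℕ) (w : List Bool) :
    Pw Φ η c j (w ++ [false]) + Pw Φ η c j (w ++ [true]) = Pw Φ η c j w := by
  rw [Pw_append, Pw_append, ← mul_add, qf_sum, mul_one]

theorem Pw_half (Φ : Par2) (η : ℕ → ℕ → ℝ) (c : Bool) (j : ℕ) (w : List Bool)
    (h : ∀ t < w.length, ¬ (ty Φ j = c ∧ 2 ^ nn Φ j ≤ t ∧ t < 2 ^ (nn Φ j + j))) :
    Pw Φ η c j w = (1 / 2 : ℝ) ^ w.length := by
  unfold Pw
  rw [Finset.prod_congr rfl (g := fun _ => (1 / 2 : ℝ))]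
  · simp
  · intro t ht
    rw [Finset.mem_range] at ht
    have h1 : hv Φ η c j t = 1 / 2 := by
      unfold hv
      rw [if_neg (h t ht)]
    rw [h1]
    unfold qf
    split_ifs <;> norm_num

theorem Pw_short (Φ : Par2) (η : ℕ → ℕ → ℝ) (c : Bool) (j : ℕ) (w : List Bool)
    (h : w.length ≤ 2 ^ nn Φ j) : Pw Φ η c j w = (1 / 2 : ℝ) ^ w.length :=
  Pw_half Φ η c j w fun t ht h' => by omega

theorem PP_nonneg (Φ : Par2) (η : ℕ → ℕ → ℝ) (c : Bool) (w : List Bool) : 0 ≤ PP Φ η c w := by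
  exact add_nonneg (Finset.sum_nonneg fun j _ => mul_nonneg (by positivity) (Pw_nonneg Φ η c j w))
    (by positivity)

theorem lt_two_nn (Φ : Par2) (j : ℕ) : j < 2 ^ nn Φ j := by
  have h1 := nnge Φ j
  have h2 : nn Φ j < 2 ^ nn Φ j := Nat.lt_two_pow_self
  omega

theorem PP_sum (Φ : Par2) (η : ℕ → ℕ → ℝ) (c : Bool) (w : List Bool) :
    PP Φ η c (w ++ [false]) + PP Φ η c (w ++ [true]) = PP Φ η c w := by
  have h1 : Pw Φ η c w.length (w ++ [false]) + Pw Φ η c w.length (w ++ [true]) =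
      (1 / 2 : ℝ) ^ w.length := by
    rw [Pw_sum, Pw_short Φ η c w.length w (lt_two_nn Φ _).le]
  unfold PP
  rw [List.length_append, List.length_append, List.length_singleton, List.length_singleton,
    Finset.sum_range_succ, Finset.sum_range_succ]
  have h2 : ∑ j ∈ Finset.range w.length, (1 / 2 : ℝ) ^ (j + 1) * Pw Φ η c j (w ++ [false]) +
      ∑ j ∈ Finset.range w.length, (1 / 2 : ℝ) ^ (j + 1) * Pw Φ η c j (w ++ [true]) =
      ∑ j ∈ Finset.range w.length, (1 / 2 : ℝ) ^ (j + 1) * Pw Φ η c j w := by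
    rw [← Finset.sum_add_distrib]
    refine Finset.sum_congr rfl fun j _ => ?_
    rw [← mul_add, Pw_sum]
  have h3 : (1 / 2 : ℝ) ^ (w.length + 1) * Pw Φ η c w.length (w ++ [false]) +
      (1 / 2 : ℝ) ^ (w.length + 1) * Pw Φ η c w.length (w ++ [true]) =
      (1 / 2 : ℝ) ^ (w.length + 1) * (1 / 2 : ℝ) ^ w.length := by
    rw [← mul_add, h1]
  have h4 : (1 / 2 : ℝ) ^ (w.length + 1) = (1 / 2 : ℝ) ^ w.length * (1 / 2) := pow_succ _ _
  rw [h4] at h3 ⊢
  nlinarith [h2, h3]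

theorem PP_nil (Φ : Par2) (η : ℕ → ℕ → ℝ) (c : Bool) : PP Φ η c [] = 1 := by
  simp [PP]

theorem PP_le (Φ : Par2) (η : ℕ → ℕ → ℝ) (c : Bool) (w : List Bool) : PP Φ η c w ≤ 1 := by
  induction w using List.reverseRecOn with
  | nil => rw [PP_nil]
  | append_singleton w b ih =>
    have h1 := PP_sum Φ η c w
    have h2 := PP_nonneg Φ η c (w ++ [false])
    have h3 := PP_nonneg Φ η c (w ++ [true])
    cases b <;> linarith

/-! ## The supergales -/

theorem dd_nonneg (Φ : Par2) (η : ℕ → ℕ → ℝ) (k : ℕ) (w : List Bool) :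
    0 ≤ dd Φ η k w := by
  unfold dd
  have := PP_nonneg Φ η (decide (k % 2 = 1)) w
  positivity

theorem dd_sum (Φ : Par2) (η : ℕ → ℕ → ℝ) (k : ℕ) (w : List Bool) :
    dd Φ η k (w ++ [false]) + dd Φ η k (w ++ [true]) = (2 : ℝ) ^ sK Φ k * dd Φ η k w := by
  unfold dd
  rw [List.length_append, List.length_append, List.length_singleton, List.length_singleton,
    ← mul_add, PP_sum, Nat.cast_add, Nat.cast_one, mul_add, mul_one,
    Real.rpow_add (by norm_num : (0 : ℝ) < 2)]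
  ring

theorem dgale (Φ : Par2) (η : ℕ → ℕ → ℝ) (k : ℕ) : IsGale (sK Φ k) (dd Φ η k) :=
  ⟨dd_nonneg Φ η k, fun w => (dd_sum Φ η k w).le⟩

theorem dnil (Φ : Par2) (η : ℕ → ℕ → ℝ) (k : ℕ) : dd Φ η k [] ≤ (1 / 2 : ℝ) ^ k := by
  unfold dd
  rw [PP_nil]
  simp

theorem dlow (Φ : Par2) (η : ℕ → ℕ → ℝ) (k j : ℕ) (w : List Bool) (h : j < w.length) :
    (1 / 2 : ℝ) ^ k * (2 : ℝ) ^ (sK Φ k * w.length) *
      ((1 / 2 : ℝ) ^ (j + 1) * Pw Φ η (decide (k % 2 = 1)) j w) ≤ dd Φ η k w := by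
  unfold dd
  obtain ⟨c, hc⟩ : ∃ c : Bool, c = decide (k % 2 = 1) := ⟨_, rfl⟩
  rw [← hc]
  refine mul_le_mul_of_nonneg_left ?_ (by positivity)
  unfold PP
  have h1 : (1 / 2 : ℝ) ^ (j + 1) * Pw Φ η c j w ≤
      ∑ j ∈ Finset.range w.length, (1 / 2 : ℝ) ^ (j + 1) * Pw Φ η c j w := by
    refine Finset.single_le_sum (f := fun j => (1 / 2 : ℝ) ^ (j + 1) * Pw Φ η c j w)
      (fun i _ => ?_) (Finset.mem_range.2 h)
    have := Pw_nonneg Φ η c i w
    positivity
  have h2 : (0 : ℝ) ≤ (1 / 2 : ℝ) ^ w.length * (1 / 2 : ℝ) ^ w.length := by positivity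
  linarith

/-- Only the stages of one type matter. -/
theorem dlocal (Φ : Par2) (η η' : ℕ → ℕ → ℝ) (k : ℕ) (w : List Bool)
    (h : ∀ j, ty Φ j = decide (k % 2 = 1) → 2 ^ nn Φ j ≤ w.length → η j = η' j) :
    dd Φ η k w = dd Φ η' k w := by
  unfold dd
  obtain ⟨c, hc⟩ : ∃ c : Bool, c = decide (k % 2 = 1) := ⟨_, rfl⟩
  rw [← hc] at h ⊢
  have h1 : PP Φ η c w = PP Φ η' c w := by
    unfold PP
    congr 1
    refine Finset.sum_congr rfl fun j _ => ?_
    congr 1
    by_cases hj : ty Φ j = c ∧ 2 ^ nn Φ j ≤ w.length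
    · unfold Pw hv
      rw [h j hj.1 hj.2]
    · have h2 : ∀ t < w.length, ¬ (ty Φ j = c ∧ 2 ^ nn Φ j ≤ t ∧ t < 2 ^ (nn Φ j + j)) :=
        fun t ht h' => hj ⟨h'.1, by omega⟩
      rw [Pw_half Φ η c j w h2, Pw_half Φ η' c j w h2]
  rw [h1]

theorem sK_le (Φ : Par2) (k : ℕ) : sK Φ k ≤ 2 := by
  unfold sK
  have h1 := Φ.A.a1
  have h3 := Φ.B.a1
  have h2 : (1 : ℝ) / (((k / 2 : ℕ) : ℝ) + 1) ≤ 1 := by
    rw [div_le_one (by positivity)]
    linarith [Nat.cast_nonneg (α := ℝ) (k / 2)]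
  split_ifs <;> linarith

theorem dd_le (Φ : Par2) (η : ℕ → ℕ → ℝ) (k : ℕ) (w : List Bool) :
    dd Φ η k w ≤ 2 ^ (2 * w.length) := by
  unfold dd
  have h1 : (1 / 2 : ℝ) ^ k ≤ 1 := pow_le_one₀ (by norm_num) (by norm_num)
  have h2 : (2 : ℝ) ^ (sK Φ k * w.length) ≤ 2 ^ (2 * w.length) := by
    rw [← Real.rpow_natCast 2 (2 * w.length)]
    refine Real.rpow_le_rpow_of_exponent_le (by norm_num) ?_
    push_cast
    exact mul_le_mul_of_nonneg_right (sK_le Φ k) (by positivity)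
  have h3 := PP_le Φ η (decide (k % 2 = 1)) w
  have h4 := PP_nonneg Φ η (decide (k % 2 = 1)) w
  have h5 : (0 : ℝ) ≤ (2 : ℝ) ^ (sK Φ k * w.length) := by positivity
  calc (1 / 2 : ℝ) ^ k * (2 : ℝ) ^ (sK Φ k * w.length) * PP Φ η (decide (k % 2 = 1)) w
      ≤ 1 * 2 ^ (2 * w.length) * 1 := by gcongr
    _ = _ := by ring

/-! ## The bits -/

theorem size_two_mul_pow (p m : ℕ) (hm : m ≠ 0) : Nat.size (2 ^ p * m) = p + Nat.size m := by
  rw [Nat.mul_comm, ← Nat.shiftLeft_eq, Nat.size_shiftLeft hm, add_comm]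

theorem testBit_low (p m j : ℕ) (h : j < p) : Nat.testBit (2 ^ p * m) j = false := by
  rw [Nat.mul_comm, ← Nat.shiftLeft_eq, Nat.testBit_shiftLeft]
  simp
  omega

/-- The size of the padded numerator. -/
theorem num_size (Φ : Par2) (η : ℕ → ℕ → ℝ) (k r : ℕ) (w : List Bool) :
    Nat.size (num Φ η k r w) = pad k w + Nat.size (⌊(2 : ℝ) ^ (r + 1) * dd Φ η k w⌋₊ + 1) := by
  unfold num
  rw [size_two_mul_pow _ _ (by omega)]

theorem bloc : T_BLOC := by
  intro Φ η η' u huA huB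
  -- the numerators agree or the word is too short to ask for an informative bit
  have key : ∀ (a b : Bool) (j k r : ℕ) (w : List Bool), u = hq a b j k r w →
      num Φ η k r w = num Φ η' k r w ∨ j < pad k w := by
    intro a b j k r w h1
    have hlen := hq_length a b j k r w
    rw [← h1] at hlen
    by_cases hk : k % 2 = 1
    · by_cases hj : j < pad k w
      · exact Or.inr hj
      · left
        unfold num
        rw [dlocal Φ η η' k w fun i hi hi2 => huB i ?_ ?_]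
        · rw [hi]
          simpa using hk
        · have h2 : 2 ^ nn Φ i ^ 2 ≤ pad k w := by
            unfold pad
            rw [if_pos hk]
            have h3 : nn Φ i ≤ Nat.log 2 w.length := by
              rw [Nat.le_log_iff_pow_le (by norm_num)]
              · exact hi2
              · have : 0 < 2 ^ nn Φ i := by positivity
                omega
            exact Nat.pow_le_pow_right (by norm_num) (Nat.pow_le_pow_left h3 2)
          omega
    · left
      unfold num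
      rw [dlocal Φ η η' k w fun i hi hi2 => huA i ?_ ?_]
      · rw [hi]
        simpa using hk
      · omega
  unfold bitsOf
  rw [decide_eq_decide]
  refine or_congr ?_ (or_congr ?_ Iff.rfl)
  · refine exists_congr fun j => exists_congr fun k => exists_congr fun r =>
      exists_congr fun w => and_congr_right fun h => ?_
    rcases key _ _ _ _ _ _ h with h1 | h1
    · rw [h1]
    · rw [num_size, num_size]
      constructor <;> intro _ <;> omega
  · refine exists_congr fun j => exists_congr fun k => exists_congr fun r =>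
      exists_congr fun w => and_congr_right fun h => ?_
    rcases key _ _ _ _ _ _ h with h1 | h1
    · rw [h1]
    · unfold num
      rw [testBit_low _ _ _ h1, testBit_low _ _ _ h1]

/-- The bits of short words do not depend on late stages. -/
theorem blocn (Φ : Par2) (η η' : ℕ → ℕ → ℝ) (u : List Bool)
    (h : ∀ j, 2 ^ nn Φ j ≤ u.length → η j = η' j) : bitsOf Φ η u = bitsOf Φ η' u := by
  refine bloc Φ η η' u (fun j _ hj => h j hj) fun j _ hj => h j (le_trans ?_ hj)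
  have h1 : nn Φ j ≤ nn Φ j ^ 2 := Nat.le_self_pow (by norm_num) _
  exact Nat.pow_le_pow_right (by norm_num) h1

theorem bits (Φ : Par2) (η : ℕ → ℕ → ℝ) (j k r : ℕ) (w : List Bool) :
    (bitsOf Φ η (hq false false j k r w) = true ↔ j < Nat.size (num Φ η k r w)) ∧
    (bitsOf Φ η (hq false true j k r w) = true ↔ Nat.testBit (num Φ η k r w) j = true) ∧
    (bitsOf Φ η (hq true false j k r w) = true ↔ j < r + 1 + pad k w) := by
  classical
  unfold bitsOf
  refine ⟨?_, ?_, ?_⟩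
  · rw [decide_eq_true_eq]
    constructor
    · rintro (⟨j', k', r', w', h, h'⟩ | ⟨j', k', r', w', h, h'⟩ | ⟨j', k', r', w', h, h'⟩)
      · obtain ⟨-, -, rfl, rfl, rfl, rfl⟩ := hq_inj h
        exact h'
      · obtain ⟨-, h2, -⟩ := hq_inj h
        exact absurd h2 (by decide)
      · obtain ⟨h2, -⟩ := hq_inj h
        exact absurd h2 (by decide)
    · intro h
      exact Or.inl ⟨j, k, r, w, rfl, h⟩
  · rw [decide_eq_true_eq]
    constructor
    · rintro (⟨j', k', r', w', h, h'⟩ | ⟨j', k', r', w', h, h'⟩ | ⟨j', k', r', w', h, h'⟩)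
      · obtain ⟨-, h2, -⟩ := hq_inj h
        exact absurd h2 (by decide)
      · obtain ⟨-, -, rfl, rfl, rfl, rfl⟩ := hq_inj h
        exact h'
      · obtain ⟨h2, -⟩ := hq_inj h
        exact absurd h2 (by decide)
    · intro h
      exact Or.inr (Or.inl ⟨j, k, r, w, rfl, h⟩)
  · rw [decide_eq_true_eq]
    constructor
    · rintro (⟨j', k', r', w', h, h'⟩ | ⟨j', k', r', w', h, h'⟩ | ⟨j', k', r', w', h, h'⟩)
      · obtain ⟨h2, -⟩ := hq_inj h
        exact absurd h2 (by decide)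
      · obtain ⟨h2, -⟩ := hq_inj h
        exact absurd h2 (by decide)
      · obtain ⟨-, -, rfl, rfl, rfl, rfl⟩ := hq_inj h
        exact h'
    · intro h
      exact Or.inr (Or.inr ⟨j, k, r, w, rfl, h⟩)

theorem numok (Φ : Par2) (η : ℕ → ℕ → ℝ) (k r : ℕ) (w : List Bool) :
    Nat.size (num Φ η k r w) ≤ 2 * (triple k r w).length + 4 + pad k w ∧
    |(num Φ η k r w : ℝ) / 2 ^ (r + 1 + pad k w) - dd Φ η k w| ≤ (1 / 2 : ℝ) ^ r := by
  have h0 : 0 ≤ dd Φ η k w := dd_nonneg Φ η k w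
  have h1 : 0 ≤ (2 : ℝ) ^ (r + 1) * dd Φ η k w := by positivity
  obtain ⟨m, hm⟩ : ∃ m, m = ⌊(2 : ℝ) ^ (r + 1) * dd Φ η k w⌋₊ := ⟨_, rfl⟩
  have hnum : num Φ η k r w = 2 ^ pad k w * (m + 1) := by
    rw [hm]
    rfl
  constructor
  · rw [num_size, add_comm, ← hm]
    refine Nat.add_le_add_right ?_ _
    rw [Nat.size_le]
    have h2 : m ≤ 2 ^ (r + 1) * 2 ^ (2 * w.length) := by
      rw [hm]
      refine Nat.floor_le_of_le ?_
      push_cast
      exact mul_le_mul_of_nonneg_left (dd_le Φ η k w) (by positivity)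
    have h3 : 2 ^ (r + 1) * 2 ^ (2 * w.length) = 2 ^ (r + 1 + 2 * w.length) :=
      (pow_add _ _ _).symm
    have h4 : 2 ^ (r + 1 + 2 * w.length) * 2 = 2 ^ (r + 1 + 2 * w.length + 1) := (pow_succ _ _).symm
    have h5 : 1 < 2 ^ (r + 1 + 2 * w.length) := Nat.one_lt_two_pow (by omega)
    calc m + 1 < 2 ^ (r + 1 + 2 * w.length + 1) := by omega
      _ ≤ 2 ^ (2 * (triple k r w).length + 4) := by
        rw [triple_length]
        exact Nat.pow_le_pow_right (by norm_num) (by omega)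
  · rw [hnum]
    have h2 : (m : ℝ) ≤ (2 : ℝ) ^ (r + 1) * dd Φ η k w := by
      rw [hm]
      exact Nat.floor_le h1
    have h3 : (2 : ℝ) ^ (r + 1) * dd Φ η k w < m + 1 := by
      rw [hm]
      exact Nat.lt_floor_add_one _
    have hp : (0 : ℝ) < 2 ^ (r + 1) := by positivity
    have hpp : (0 : ℝ) < 2 ^ pad k w := by positivity
    have h4 : ((2 ^ pad k w * (m + 1) : ℕ) : ℝ) / 2 ^ (r + 1 + pad k w) - dd Φ η k w =
        ((m : ℝ) + 1 - 2 ^ (r + 1) * dd Φ η k w) / 2 ^ (r + 1) := by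
      rw [pow_add]
      push_cast
      field_simp
    rw [h4, abs_div, abs_of_pos hp, div_le_iff₀ hp, abs_le]
    have h5 : (1 / 2 : ℝ) ^ r * 2 ^ (r + 1) = 2 := by
      rw [pow_succ, ← mul_assoc, ← mul_pow]
      norm_num
    rw [h5]
    constructor <;> linarith

end Pool.Agent.RelW
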