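import Pool.Agent.RelW.VAL
import Pool.Agent.RelT.CNT
import Pool.Agent.RelV.CNT

/-!
# The mean entropy of the answers of a hidden language
-/

set_option autoImplicit false

namespace Pool.Agent.RelW

open Pool.Agent.RelM (Lang str qb)
open Pool.Agent.RelO (lev levmono levpow)
open Pool.Agent.RelS (Idx Om gf gf_nonneg)
open Pool.Agent.RelT (ix ix_str)
open Pool.Agent.RelV.CNT_ (per)

namespace CNT_

/-- The option seen is the final one. -/
lemma oc_fin (Φ : Par2) (κ t : ℕ) (ω : Om) :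
    oc Φ (hs Φ ω (vs Φ κ t)).1 κ (lev κ (str t)) = oc Φ (hf Φ ω).1 κ (lev κ (str t)) := by
  by_cases h0 : nn Φ 0 ≤ lev κ (str t)
  · exact oc_view h0 le_rfl ω
  · unfold oc
    rw [(VAL_.vs_early h0).1, if_pos rfl, if_pos rfl]

/-- The option of a pair depends on its stage. -/
lemma oc_jj (Φ : Par2) (o : ℕ → ℕ) (κ : ℕ) {m m' : ℕ} (h : jj Φ m = jj Φ m') :
    oc Φ o κ m = oc Φ o κ m' := by
  unfold oc
  rw [h]

/-- The options of a good history. -/
lemma oc_cases (Φ : Par2) {o : ℕ → ℕ} (ho : Gd Φ o) {κ : ℕ} (hκ : κ % 2 = 0) (m : ℕ) :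
    oc Φ o κ m = 0 ∨ ∃ i < Φ.B.K, oc Φ o κ m = 2 * i + 2 := by
  unfold oc
  by_cases h0 : jj Φ m = 0
  · rw [if_pos h0]
    exact Or.inl rfl
  · rw [if_neg h0]
    obtain ⟨J, hJ⟩ : ∃ J, jj Φ m = J + 1 := ⟨jj Φ m - 1, by omega⟩
    rw [hJ, Nat.add_sub_cancel]
    have h1 := ho J
    unfold Pt at h1
    by_cases h2 : ty Φ J = true
    · rw [if_pos h2] at h1
      rw [if_pos h2, if_neg (by omega)]
      exact Or.inr ⟨_, h1, rfl⟩
    · rw [if_neg h2, if_neg (by omega)]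
      exact Or.inl rfl

/-- One block. -/
lemma block (Φ : Par2) {κ : ℕ} (hκ : κ % 2 = 0) (m q : ℕ) (hq : q = 0 ∨
    ∃ i < Φ.B.K, q = 2 * i + 2) :
    hd Φ κ * ((Φ.A.dm κ * Φ.B.dm κ : ℕ) : ℝ) ≤
      ∑ c ∈ Finset.range (Φ.A.dm κ * Φ.B.dm κ),
        gf (it Φ κ (str (m * (Φ.A.dm κ * Φ.B.dm κ) + c)) q) := by
  have hlog : 0 < Real.log 2 := Real.log_pos (by norm_num)
  have hdB : hd Φ κ = Φ.B.a * Real.log 2 - 1 / ((κ : ℝ) + 1) := by
    unfold hd
    rw [if_neg (by omega)]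
  rcases hq with rfl | ⟨i, hi, rfl⟩
  · have h1 : ∀ x, gf (it Φ κ x 0) = Real.log 2 := by
      intro x
      unfold it gf
      rw [if_pos rfl, Real.exp_neg, Real.exp_log (by norm_num)]
      exact Real.binEntropy_two_inv
    simp only [h1]
    rw [Finset.sum_const, Finset.card_range, nsmul_eq_mul, mul_comm]
    refine mul_le_mul_of_nonneg_left ?_ (by positivity)
    have h2 : Φ.B.a * Real.log 2 ≤ 1 * Real.log 2 :=
      mul_le_mul_of_nonneg_right Φ.B.a1 hlog.le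
    have h3 : 0 ≤ 1 / ((κ : ℝ) + 1) := by positivity
    linarith
  · have h1 : ∀ x, gf (it Φ κ x (2 * i + 2)) =
        (fun c => gf (Φ.B.lam i * Φ.B.mul κ c)) (ix x % Φ.B.dm κ) := by
      intro x
      unfold it
      rw [if_neg (by omega), if_neg (by omega), show (2 * i + 2 - 2) / 2 = i by omega]
    simp only [h1, ix_str]
    have h2 := per (fun c => gf (Φ.B.lam i * Φ.B.mul κ c)) (Φ.B.dm κ) (Φ.A.dm κ) m
    rw [mul_comm (Φ.A.dm κ) (Φ.B.dm κ), h2]
    have h3 := Φ.B.hid κ i hi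
    rw [← hdB] at h3
    calc hd Φ κ * ((Φ.B.dm κ * Φ.A.dm κ : ℕ) : ℝ) = Φ.A.dm κ * (hd Φ κ * Φ.B.dm κ) := by
          push_cast
          ring
      _ ≤ _ := mul_le_mul_of_nonneg_left h3 (by positivity)

end CNT_

open CNT_

/-- The mean entropy of the answers of a hidden language. -/
theorem cnt : T_CNT := by
  intro Φ κ ε hκ hε
  obtain ⟨A, hA⟩ : ∃ A : ℝ, A = hd Φ κ := ⟨_, rfl⟩
  obtain ⟨D, hD⟩ : ∃ D : ℕ, D = Φ.A.dm κ * Φ.B.dm κ := ⟨_, rfl⟩
  have hD1 : 1 ≤ D := by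
    rw [hD]
    exact Nat.one_le_iff_ne_zero.2 (Nat.mul_ne_zero (by have := Φ.A.dm1 κ; omega)
      (by have := Φ.B.dm1 κ; omega))
  have hX : 0 ≤ |A| * (D : ℝ) := by positivity
  obtain ⟨C, hC⟩ := Pool.Agent.RelT.CNT_.polylog κ hX hε
  refine ⟨C + |A| * D, fun t ω => ?_⟩
  rw [← hA]
  obtain ⟨b, hbd⟩ : ∃ b : ℕ → ℕ, ∀ t, b t = bl Φ κ (str t) := ⟨_, fun _ => rfl⟩
  obtain ⟨G, hGd⟩ : ∃ G : ℕ → ℝ, ∀ t, G t = Real.binEntropy (rt Φ κ t ω) := ⟨_, fun _ => rfl⟩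
  have hGF : ∀ t, G t = gf (it Φ κ (str t) (oc Φ (hf Φ ω).1 κ (lev κ (str t)))) := by
    intro t
    rw [hGd, ← oc_fin]
    rfl
  have hG : ∀ t, 0 ≤ G t := fun t => by
    rw [hGF]
    exact gf_nonneg (it_nonneg _ _ _ _)
  have hb : Monotone b := by
    intro t t' h
    rw [hbd, hbd]
    exact VAL_.bl_mono Φ κ h
  have hB : ∀ m, b (m * D) = b ((m + 1) * D) → A * D ≤ ∑ c ∈ Finset.range D, G (m * D + c) := by
    intro m hm
    have h1 : ∀ c ∈ Finset.range D, G (m * D + c) =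
        gf (it Φ κ (str (m * D + c)) (oc Φ (hf Φ ω).1 κ (lev κ (str (m * D))))) := by
      intro c hc
      rw [Finset.mem_range] at hc
      have h1 : b (m * D + c) = b (m * D) := by
        refine le_antisymm ?_ (hb (by omega))
        rw [hm]
        refine hb ?_
        have : (m + 1) * D = m * D + D := by ring
        omega
      rw [hbd, hbd] at h1
      rw [hGF, oc_jj Φ _ κ h1]
    rw [Finset.sum_congr rfl h1, hA, hD]
    exact block Φ hκ m _ (oc_cases Φ (gd_hf Φ ω) hκ _)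
  have h1 := Pool.Agent.RelT.CNT_.blocks hG hb hB (t / D)
  have h2 : t / D * D ≤ t := Nat.div_mul_le_self t D
  have h3 : ∑ t' ∈ Finset.range (t / D * D), G t' ≤ ∑ t' ∈ Finset.range t, G t' :=
    Finset.sum_le_sum_of_subset_of_nonneg (Finset.range_subset_range.2 h2) fun i _ _ => hG i
  have h4 : A * t - |A| * D ≤ A * D * (t / D : ℕ) := by
    have e1 : t = t / D * D + t % D := by
      have := Nat.div_add_mod' t D
      omega
    have e2 : (t : ℝ) = ((t / D : ℕ) : ℝ) * D + ((t % D : ℕ) : ℝ) := by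
      exact_mod_cast e1
    have e3 : ((t % D : ℕ) : ℝ) ≤ D := by
      exact_mod_cast (Nat.mod_lt t (by omega)).le
    have e4 : A * ((t % D : ℕ) : ℝ) ≤ |A| * D := by
      calc A * ((t % D : ℕ) : ℝ) ≤ |A| * ((t % D : ℕ) : ℝ) :=
            mul_le_mul_of_nonneg_right (le_abs_self A) (by positivity)
        _ ≤ |A| * D := mul_le_mul_of_nonneg_left e3 (abs_nonneg A)
    have e5 : A * (t : ℝ) = A * D * ((t / D : ℕ) : ℝ) + A * ((t % D : ℕ) : ℝ) := by
      rw [e2]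
      ring
    linarith
  have h5 : ((b (t / D * D) : ℕ) : ℝ) ≤ ((Nat.log 2 (t + 1) + 2 : ℕ) : ℝ) ^ (κ + 2) := by
    have e1 : b (t / D * D) ≤ b t := hb h2
    have e2 : b t ≤ lev κ (str t) := by
      rw [hbd]
      exact jj_le Φ _
    have e3 : lev κ (str t) ≤ ((str t).length + 2) ^ (κ + 2) := levpow κ (str t)
    rw [Pool.Agent.RelM.strlen] at e3
    exact_mod_cast (e1.trans e2).trans e3
  have h6 : |A| * D * (b (t / D * D) : ℝ) ≤ ε * t + C :=
    (mul_le_mul_of_nonneg_left h5 hX).trans (hC t)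
  have h7 : (A - ε) * t = A * t - ε * t := by ring
  simp only [hGd] at h1 h3
  linarith

end Pool.Agent.RelW
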