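import Pool.Agent.RelV.Core

/-!
# Oracles relative to which `NP` has given dimensions in `E` and in `E_2`, general case

The oracle is the one of `Pool.Agent.RelV.Core` with the following changes. The pairs of the odd
families are free at the stages of type `B`. At a stage of type `B` all coins of the odd families
are known when the option is chosen and the probabilities are computed. The probabilities are
rounded. The supergales for `E` use the stages of type `A`, those for `E_2` the stages of type `B`,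
and the bits of the latter can only be read in quasi-polynomial time.
-/

set_option autoImplicit false

namespace Pool.Agent.RelW

open MeasureTheory Set
open scoped ENNReal
open Pool.Agent.RelM (Lang Instr Cfg step run Halts Decides E1 E2 NP pair triple binVal outVal
  Approx IsDensity str pre IsNullCover Null1 Null2 wq sq0 sq1 Asks hq qb)
open Pool.Agent.RelO (lev IsGale IsGaleCover GaleNull1 GaleNull2 st)
open Pool.Agent.RelS (Z Rl orcV orc acc Idx Om bern bern_prob Dep mixP gf PF Low)
open Pool.Agent.RelT (Par Hist md md_pos md_spec ix ix_str qf seto)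
open Pool.Agent.RelV (Cd cde cde_surj mN mM av nu)

/-! ## Parameters -/

/-- Two sets of parameters. -/
structure Par2 : Type where
  A : Par
  B : Par

/-- The bound for the intensities. -/
def Bd (Φ : Par2) : ℕ := max (max Φ.A.B Φ.B.B) 1

/-- The bound for the options of coins. -/
def KK (Φ : Par2) : ℕ := 2 * (Φ.A.K + Φ.B.K) + 1

/-! ## Stages -/

/-- The type of stage `j`: `true` is type `B`. -/
noncomputable def ty (_Φ : Par2) (j : ℕ) : Bool := (cde (st j)).2.2.2

/-- The parameters of stage `j`. -/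
noncomputable def Pt (Φ : Par2) (j : ℕ) : Par := if ty Φ j = true then Φ.B else Φ.A

/-- Stage `j` must begin at least here. -/
noncomputable def thr (Φ : Par2) (j : ℕ) : ℕ :=
  sInf {N | j + 2 ≤ N ∧ 2 * Bd Φ + 2 ≤ N ∧ ∀ n, N ≤ n →
    qb (mN j) (n + j) + 2 < 2 ^ n ∧ 2 * (qb (mN j) (n + j) : ℝ) * Bd Φ ≤ md j * 2 ^ n ∧
    nu j n ≤ n ^ 2}

/-- The beginning of stage `j`. The gambler of stage `j` bets on the words with the numbers
`2 ^ nn Φ j, ..., 2 ^ (nn Φ j + j) - 1`. -/
noncomputable def nn (Φ : Par2) : ℕ → ℕ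
  | 0 => thr Φ 0
  | j + 1 => max (max (qb (mN j) (nn Φ j + j)) (nu j (nn Φ j)) + 1)
      (max (thr Φ (j + 1)) ((j + 2) * nn Φ j ^ 2))

/-- The coins of cost `m` are old for the first time at stage `jj Φ m`. -/
noncomputable def jj (Φ : Par2) (m : ℕ) : ℕ := sInf {j | m < nn Φ j}

/-! ## Coins -/

/-- The intensity of the pair `κ, x` with the coin option `i`. -/
noncomputable def it (Φ : Par2) (κ : ℕ) (x : List Bool) (i : ℕ) : ℝ :=
  if i = 0 then Real.log 2
  else if i % 2 = 1 then Φ.A.lam ((i - 1) / 2) * Φ.A.mul κ (ix x % Φ.A.dm κ)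
  else Φ.B.lam ((i - 2) / 2) * Φ.B.mul κ (ix x % Φ.B.dm κ)

theorem it_nonneg (Φ : Par2) (κ : ℕ) (x : List Bool) (i : ℕ) : 0 ≤ it Φ κ x i := by
  unfold it
  split_ifs
  · exact (Real.log_pos (by norm_num)).le
  · exact mul_nonneg (Φ.A.lam0 _) (Φ.A.mul0 _ _)
  · exact mul_nonneg (Φ.B.lam0 _) (Φ.B.mul0 _ _)

/-- The exponent of a coin. -/
noncomputable def ex (Φ : Par2) (a : Idx) : ℝ := it Φ a.1 a.2.1 a.2.2.2 / 2 ^ lev a.1 a.2.1

/-- The probability that a coin is `false`. -/
noncomputable def sv (Φ : Par2) (a : Idx) : ℝ := Real.exp (-ex Φ a)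

theorem sv_pos (Φ : Par2) (a : Idx) : 0 < sv Φ a := Real.exp_pos _

theorem ex_nonneg (Φ : Par2) (a : Idx) : 0 ≤ ex Φ a :=
  div_nonneg (it_nonneg _ _ _ _) (by positivity)

theorem sv_le_one (Φ : Par2) (a : Idx) : sv Φ a ≤ 1 :=
  Real.exp_le_one_iff.2 (by linarith [ex_nonneg Φ a])

/-- The measure of a coin. -/
noncomputable def cm (Φ : Par2) (a : Idx) : Measure Bool := bern (sv Φ a)

instance (Φ : Par2) (a : Idx) : IsProbabilityMeasure (cm Φ a) :=
  bern_prob (sv_pos Φ a).le (sv_le_one Φ a)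

/-- Independent coins. -/
noncomputable def coin (Φ : Par2) : Measure Om := Measure.infinitePi (cm Φ)

instance (Φ : Par2) : IsProbabilityMeasure (coin Φ) := by unfold coin; infer_instance

/-- The coins of levels less than `m`. -/
def Lw (Φ : Par2) (m : ℕ) : Set Idx :=
  {a | lev a.1 a.2.1 < m ∧ a.2.2.1.length = lev a.1 a.2.1 ∧ a.2.2.2 < KK Φ}

/-- The coins older than stage `j`. -/
def Old (Φ : Par2) (j : ℕ) : Set Idx := Lw Φ (nn Φ j)

/-- The coins known at stage `j`: the old ones and, at a stage of type `A`, the near coins of the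
even families, at a stage of type `B`, the coins of the odd families. -/
def Gs (Φ : Par2) (j : ℕ) : Set Idx :=
  {a | a ∈ Old Φ j ∨ (ty Φ j = false ∧ a.1 % 2 = 0 ∧ a ∈ Lw Φ (nu j (nn Φ j))) ∨
    (ty Φ j = true ∧ a.1 % 2 = 1 ∧ a ∈ Old Φ (j + 1))}

/-- The coin option of the pairs of the family `κ` and of level `m` when the options of the stages
are `o`. -/
noncomputable def oc (Φ : Par2) (o : ℕ → ℕ) (κ m : ℕ) : ℕ :=
  if jj Φ m = 0 then 0
  else if ty Φ (jj Φ m - 1) = true then (if κ % 2 = 1 then 0 else 2 * o (jj Φ m) + 2)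
  else (if κ % 2 = 1 then 2 * o (jj Φ m) + 1 else 0)

/-- The world of the sample `ω` with the options `o`. -/
noncomputable def zz (Φ : Par2) (o : ℕ → ℕ) (ω : Om) : Z := fun κ x y =>
  ω (κ, x, y, oc Φ o κ (lev κ x))

/-! ## The supergales -/

/-- The number of steps of the grid of stage `j`. -/
noncomputable def Mg (Φ : Par2) (j : ℕ) : ℕ := 2 ^ (nn Φ j + j)

/-- The next smaller number of the grid. -/
noncomputable def gr (Φ : Par2) (j : ℕ) (p : ℝ) : ℝ := ((⌊(Mg Φ j : ℝ) * p⌋₊ : ℕ) : ℝ) / Mg Φ j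

/-- The probabilities of `true` that are used by the gambler of stage `j` with the type `b`. -/
noncomputable def hv (Φ : Par2) (η : ℕ → ℕ → ℝ) (b : Bool) (j t : ℕ) : ℝ :=
  if ty Φ j = b ∧ 2 ^ nn Φ j ≤ t ∧ t < 2 ^ (nn Φ j + j) then
    ((Mg Φ j : ℝ) * max 0 (min 1 (η j t)) + 1) / ((Mg Φ j : ℝ) + 2)
  else 1 / 2

/-- The probability given to `w` at stage `j`. -/
noncomputable def Pw (Φ : Par2) (η : ℕ → ℕ → ℝ) (b : Bool) (j : ℕ) (w : List Bool) : ℝ :=
  ∏ t ∈ Finset.range w.length, qf (hv Φ η b j t) (w.getD t false)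

/-- The probability given to `w`. -/
noncomputable def PP (Φ : Par2) (η : ℕ → ℕ → ℝ) (b : Bool) (w : List Bool) : ℝ :=
  ∑ j ∈ Finset.range w.length, (1 / 2 : ℝ) ^ (j + 1) * Pw Φ η b j w +
    (1 / 2 : ℝ) ^ w.length * (1 / 2 : ℝ) ^ w.length

/-- The parameter of the supergale number `k`; the even numbers belong to `E`. -/
noncomputable def sK (Φ : Par2) (k : ℕ) : ℝ :=
  (if k % 2 = 0 then Φ.A.a else Φ.B.a) + 1 / (((k / 2 : ℕ) : ℝ) + 1)

/-- The supergale number `k`. -/
noncomputable def dd (Φ : Par2) (η : ℕ → ℕ → ℝ) (k : ℕ) (w : List Bool) : ℝ :=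
  (1 / 2 : ℝ) ^ k * (2 : ℝ) ^ (sK Φ k * w.length) * PP Φ η (decide (k % 2 = 1)) w

/-- The padding of the supergale number `k`. -/
def pad (k : ℕ) (w : List Bool) : ℕ := if k % 2 = 1 then 2 ^ Nat.log 2 w.length ^ 2 else 0

/-- The numerator of the approximation. -/
noncomputable def num (Φ : Par2) (η : ℕ → ℕ → ℝ) (k r : ℕ) (w : List Bool) : ℕ :=
  2 ^ pad k w * (⌊(2 : ℝ) ^ (r + 1) * dd Φ η k w⌋₊ + 1)

open Classical in
/-- The bits of the numerators of the approximations. -/
noncomputable def bitsOf (Φ : Par2) (η : ℕ → ℕ → ℝ) : Lang := fun u => decide (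
  (∃ j k r w, u = hq false false j k r w ∧ j < Nat.size (num Φ η k r w)) ∨
  (∃ j k r w, u = hq false true j k r w ∧ Nat.testBit (num Φ η k r w) j = true) ∨
  (∃ j k r w, u = hq true false j k r w ∧ j < r + 1 + pad k w))

/-! ## Options and probabilities -/

/-- The oracle of a history. -/
noncomputable def oh (Φ : Par2) (h : Hist) (ω : Om) : Lang := orc (bitsOf Φ h.2) (zz Φ h.1 ω)

/-- The nondeterministic machine of stage `j` accepts the word number `t`. -/
def ans (Φ : Par2) (j : ℕ) (h : Hist) (ω : Om) (t : ℕ) : Prop := acc (oh Φ h ω) (mN j) (str t)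

/-- The probability that the word number `t` is accepted with the option `i`, given the coins
known at stage `j`. -/
noncomputable def pa (Φ : Par2) (j : ℕ) (h : Hist) (ω : Om) (t i : ℕ) : ℝ :=
  (coin Φ).real {τ | ans Φ j (seto h j i) (mixP (Gs Φ j) ω τ) t}

/-- The words on which the gambler of stage `j` bets. -/
noncomputable def Wd (Φ : Par2) (j : ℕ) : Finset ℕ := Finset.Ico (2 ^ nn Φ j) (2 ^ (nn Φ j + j))

/-- The sum of the entropies of stage `j` with the option `i`. -/
noncomputable def He (Φ : Par2) (j : ℕ) (h : Hist) (ω : Om) (i : ℕ) : ℝ :=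
  ∑ t ∈ Wd Φ j, Real.binEntropy (pa Φ j h ω t i)

/-- The history with the option `i` and the rounded probabilities of stage `j`. -/
noncomputable def setf (Φ : Par2) (j : ℕ) (h : Hist) (ω : Om) (i : ℕ) : Hist :=
  (Function.update h.1 (j + 1) i, Function.update h.2 j fun t =>
    if t ∈ Wd Φ j then gr Φ j (pa Φ j h ω t i) else 0)

/-- The oracle in which the keys of levels at least `nu` are hidden. -/
noncomputable def ovM (Φ : Par2) (j : ℕ) (h : Hist) (ω : Om) : Lang :=
  orcV (fun κ x => lev κ x < nu j (nn Φ j)) (bitsOf Φ h.2) (zz Φ h.1 ω)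

/-- The machine for `E` of stage `j` accepts the word number `t` when the far keys are hidden. -/
def ansM (Φ : Par2) (j : ℕ) (h : Hist) (ω : Om) (t : ℕ) : Prop :=
  (run (ovM Φ j h ω) (mM j).1 (str t) (2 ^ ((mM j).2 * ((str t).length + 1)))).st 1 = [true]

/-- The two machines of a stage of type `A` give different answers. -/
def Dif (Φ : Par2) (j : ℕ) (h : Hist) (ω : Om) : Prop :=
  ty Φ j = false ∧ ∃ t ∈ Wd Φ j, ¬ (ans Φ j h ω t ↔ ansM Φ j h ω t)

/-- The probability that the two machines give different answers with the option `i`, given the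
coins known at stage `j`. -/
noncomputable def pd (Φ : Par2) (j : ℕ) (h : Hist) (ω : Om) (i : ℕ) : ℝ :=
  (coin Φ).real {τ | Dif Φ j (setf Φ j h ω i) (mixP (Gs Φ j) ω τ)}

/-- The least probability of different answers that matters. -/
noncomputable def dl (Φ : Par2) (j : ℕ) : ℝ := md (av j) / ((Pt Φ j).K + 1)

/-- The bound for the sum of the entropies. -/
noncomputable def hB (Φ : Par2) (j : ℕ) : ℝ :=
  ((Pt Φ j).a * Real.log 2 + 1 / ((j : ℝ) + 1) + 1 / ((av j : ℝ) + 1)) * 2 ^ (nn Φ j + j)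

open Classical in
/-- The best option for stage `j`. -/
noncomputable def best (Φ : Par2) (j : ℕ) (h : Hist) (ω : Om) : ℕ :=
  if hx : ∃ i < (Pt Φ j).K, dl Φ j ≤ pd Φ j h ω i then hx.choose
  else if hy : ∃ i < (Pt Φ j).K, He Φ j h ω i ≤ hB Φ j then hy.choose
  else 0

/-- The history after the stages before `j`. -/
noncomputable def hs (Φ : Par2) (ω : Om) : ℕ → Hist
  | 0 => (fun _ => 0, fun _ _ => 1 / 2)
  | j + 1 => setf Φ j (hs Φ ω j) ω (best Φ j (hs Φ ω j) ω)

/-- The options and the probabilities. -/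
noncomputable def hf (Φ : Par2) (ω : Om) : Hist :=
  (fun j => (hs Φ ω j).1 j, fun j => (hs Φ ω (j + 1)).2 j)

/-- The world. -/
noncomputable def zo (Φ : Par2) (ω : Om) : Z := zz Φ (hf Φ ω).1 ω

/-- The oracle. -/
noncomputable def oo (Φ : Par2) (ω : Om) : Lang := oh Φ (hf Φ ω) ω

/-! ## Hiding -/

/-- The stage at which the coins of the pair κ, x become old. -/
noncomputable def bl (Φ : Par2) (κ : ℕ) (x : List Bool) : ℕ := jj Φ (lev κ x)

/-- The coins of the word number `t` of the family `κ` may influence the option and the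
probabilities of its stage. -/
def Blind (Φ : Par2) (κ t : ℕ) : Prop :=
  κ % 2 = 0 ∧ ty Φ (bl Φ κ (str t) - 1) = false ∧
    lev κ (str t) < nu (bl Φ κ (str t) - 1) (nn Φ (bl Φ κ (str t) - 1))

open Classical in
/-- The gambler who bets on the word number `t` sees the history before this stage. -/
noncomputable def vs (Φ : Par2) (κ t : ℕ) : ℕ :=
  if Blind Φ κ t then bl Φ κ (str t) - 1 else bl Φ κ (str t)

open Classical in
/-- The level up to which nothing is hidden. -/
noncomputable def le (Φ : Par2) (κ t : ℕ) : ℕ :=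
  if Blind Φ κ t then nn Φ (bl Φ κ (str t) - 1) else lev κ (str t)

/-- The pairs visible to a gambler who bets on the word number `t` of `Rl z κ`. -/
def SS (Φ : Par2) (κ t : ℕ) : ℕ → List Bool → Prop := fun κ' x =>
  (lev κ' x < nn Φ (vs Φ κ t) ∧ ¬ (κ' = κ ∧ ∃ t', t ≤ t' ∧ x = str t')) ∨
    (κ' = κ ∧ ∃ t', t' < t ∧ x = str t')

/-- The coins visible to this gambler. -/
def Vis (Φ : Par2) (κ t : ℕ) : Set Idx :=
  {a | SS Φ κ t a.1 a.2.1 ∧ a.2.2.1.length = lev a.1 a.2.1 ∧ a.2.2.2 < KK Φ}

/-- The oracle in which only these pairs are visible, and only the part `11` that can be read. -/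
noncomputable def ov (Φ : Par2) (κ t : ℕ) (ω : Om) : Lang :=
  orcV (SS Φ κ t) (bitsOf Φ (hs Φ ω (vs Φ κ t)).2) (zz Φ (hs Φ ω (vs Φ κ t)).1 ω)

/-- The probability that the word number `t` has no key, given the visible coins. -/
noncomputable def rt (Φ : Par2) (κ t : ℕ) (ω : Om) : ℝ :=
  Real.exp (-it Φ κ (str t) (oc Φ (hs Φ ω (vs Φ κ t)).1 κ (lev κ (str t))))

/-! ## Advice -/

/-- Advice: options and numerators of rounded probabilities for the stages of type `B`. -/
abbrev Adv : Type := (ℕ → ℕ) × (ℕ → ℕ)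

/-- The history with advice after the stages before `j`. -/
noncomputable def hA (Φ : Par2) (α : Adv) (ω : Om) : ℕ → Hist
  | 0 => (fun _ => 0, fun _ _ => 1 / 2)
  | j + 1 => if ty Φ j = true then
      (Function.update (hA Φ α ω j).1 (j + 1) (α.1 j), Function.update (hA Φ α ω j).2 j fun t =>
        if t ∈ Wd Φ j then (α.2 t : ℝ) / Mg Φ j else 0)
    else setf Φ j (hA Φ α ω j) ω (best Φ j (hA Φ α ω j) ω)

/-- The options and the probabilities with advice. -/
noncomputable def hfA (Φ : Par2) (α : Adv) (ω : Om) : Hist :=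
  (fun j => (hA Φ α ω j).1 j, fun j => (hA Φ α ω (j + 1)).2 j)

/-- Good advice: the options are possible. -/
def GdA (Φ : Par2) (α : Adv) : Prop := ∀ j, α.1 j < (Pt Φ j).K

/-- The probability that the word number `t` of an odd family has no key, with advice. -/
noncomputable def rA (Φ : Par2) (α : Adv) (κ t : ℕ) (ω : Om) : ℝ :=
  Real.exp (-it Φ κ (str t) (oc Φ (hA Φ α ω (bl Φ κ (str t))).1 κ (lev κ (str t))))

/-- The oracle with advice in which the later pairs of the family `κ` are hidden and the words in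
`F` are added. -/
noncomputable def oA (Φ : Par2) (α : Adv) (κ t : ℕ) (F : List (List Bool)) (ω : Om) : Lang :=
  fun q => orcV (SS Φ κ t) (bitsOf Φ (hA Φ α ω (bl Φ κ (str t))).2)
    (zz Φ (hA Φ α ω (bl Φ κ (str t))).1 ω) q || decide (q ∈ F)

/-- The word `y` may be a key of the pair `κ, x`. -/
def Ky (Φ : Par2) (ω : Om) (κ : ℕ) (x y : List Bool) : Prop :=
  ∃ o < KK Φ, it Φ κ x o ≤ Bd Φ ∧ ω (κ, x, y, o) = true

end Pool.Agent.RelW
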