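import Pool.Agent.RelW.FAIRA

/-!
# Descriptions of the keys that are found
-/

set_option autoImplicit false

namespace Pool.Agent.RelW

open MeasureTheory Set
open scoped ENNReal
open Pool.Agent.RelM (Lang Instr Cfg step run Halts pair str pre wq sq0 sq1 Asks hq qb)
open Pool.Agent.RelO (lev levmono)
open Pool.Agent.RelS (Z Rl orcV orc Idx Om Dep mixP fd meas_of_dep ovis ocut bern)
open Pool.Agent.RelT (Par Hist md md_pos md_spec ix ix_str qf seto)
open Pool.Agent.RelV (Cd cde cde_surj mN mM av nu)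

/-- The word asked at step `s`. -/
noncomputable def qr (O : Lang) (P : List Instr) (x : List Bool) (s : ℕ) : List Bool :=
  match P[(run O P x s).pc]? with
  | some (Instr.ask i _ _) => (run O P x s).st i
  | _ => []

theorem qr_asks {O : Lang} {P : List Instr} {x : List Bool} {s : ℕ} {q : List Bool}
    (h : Asks O P x s q) : qr O P x s = q := by
  obtain ⟨i, l₀, l₁, h1, h2⟩ := h
  unfold qr
  rw [h1]
  exact h2.symm

/-- Runs number `0, 1, ...` of a gambler with advice, on inputs `I n` which depend only on the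
coins visible at the time `tt n`. -/
structure Ds (Φ : Par2) (α : Adv) (κ : ℕ) (tt : ℕ → ℕ) (I : ℕ → Om → List Bool) : Prop where
  good : GdA Φ α
  odd : κ % 2 = 1
  mono : Monotone tt
  start : ∀ n, nn Φ 0 ≤ lev κ (str (tt n))
  dep : ∀ n, Dep (Vis Φ κ (tt n)) (I n)

section
variable (Φ : Par2) (α : Adv) (κ : ℕ) (Pr : List Instr) (tt : ℕ → ℕ) (I : ℕ → Om → List Bool)

/-- The keys described by a list of runs and steps, the last one first. -/
noncomputable def fk : List (ℕ × ℕ) → Om → List (List Bool)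
  | [], _ => []
  | e :: S, ω => qr (oA Φ α κ (tt e.1) (fk S ω) ω) Pr (I e.1 ω) e.2 :: fk S ω

/-- The described words are different hidden keys. -/
def TK : List (ℕ × ℕ) → Om → Prop
  | [], _ => True
  | e :: S, ω => TK S ω ∧ (∀ e' ∈ S, e'.1 ≤ e.1) ∧ ∃ κ' x' y',
      qr (oA Φ α κ (tt e.1) (fk Φ α κ Pr tt I S ω) ω) Pr (I e.1 ω) e.2 = wq κ' x' y' ∧
      ¬ SS Φ κ (tt e.1) κ' x' ∧ Ky Φ ω κ' x' y' ∧ wq κ' x' y' ∉ fk Φ α κ Pr tt I S ω

/-- The probability of a key. -/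
noncomputable def eps (e : ℕ × ℕ) : ℝ≥0∞ := KK Φ * (2⁻¹ : ℝ≥0∞) ^ (lev κ (str (tt e.1)) / 2)

end

namespace DESC_

variable {Φ : Par2} {α : Adv} {κ : ℕ} {Pr : List Instr} {tt : ℕ → ℕ} {I : ℕ → Om → List Bool}

lemma qr_dep (D : Ds Φ α κ tt I) {n : ℕ} (F : List (List Bool)) (e : ℕ × ℕ) (he : e.1 ≤ n)
    {ω ω' : Om} (h : ∀ a ∈ Vis Φ κ (tt n), ω a = ω' a) :
    qr (oA Φ α κ (tt e.1) F ω) Pr (I e.1 ω) e.2 =
      qr (oA Φ α κ (tt e.1) F ω') Pr (I e.1 ω') e.2 := by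
  have h' : ∀ a ∈ Vis Φ κ (tt e.1), ω a = ω' a := fun a ha =>
    h a (visA_mono D.odd (D.mono he) ha)
  rw [oA_dep D.good D.odd (D.start _) F h', D.dep e.1 ω ω' h']

lemma fk_dep (D : Ds Φ α κ tt I) {n : ℕ} {S : List (ℕ × ℕ)} (hS : ∀ e ∈ S, e.1 ≤ n)
    {ω ω' : Om} (h : ∀ a ∈ Vis Φ κ (tt n), ω a = ω' a) :
    fk Φ α κ Pr tt I S ω = fk Φ α κ Pr tt I S ω' := by
  induction S with
  | nil => rfl
  | cons e S ih =>
    have h1 := ih fun e' he' => hS e' (List.mem_cons_of_mem _ he')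
    unfold fk
    rw [h1, qr_dep D _ e (hS e List.mem_cons_self) h]

/-- The coins of a possible key. -/
def bc (κ' : ℕ) (x' y' : List Bool) : Set Idx := {a | a.1 = κ' ∧ a.2.1 = x' ∧ a.2.2.1 = y'}

lemma ky_congr {κ' : ℕ} {x' y' : List Bool} {ω ω' : Om} (h : ∀ a ∈ bc κ' x' y', ω a = ω' a) :
    Ky Φ ω κ' x' y' ↔ Ky Φ ω' κ' x' y' := by
  unfold Ky
  refine exists_congr fun o => and_congr_right fun _ => and_congr_right fun _ => ?_
  rw [h (κ', x', y', o) ⟨rfl, rfl, rfl⟩]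

lemma ky_meas (Φ : Par2) (κ' : ℕ) (x' y' : List Bool) :
    MeasurableSet {ω | Ky Φ ω κ' x' y'} := by
  have h1 : {ω | Ky Φ ω κ' x' y'} = ⋃ o ∈ Finset.range (KK Φ),
      ⋃ (_ : it Φ κ' x' o ≤ Bd Φ), {ω : Om | ω (κ', x', y', o) = true} := by
    ext ω
    simp only [Set.mem_iUnion, Finset.mem_range, Set.mem_ofPred_eq, exists_prop, Ky]
  rw [h1]
  refine Finset.measurableSet_biUnion _ fun o _ => MeasurableSet.iUnion fun _ => ?_
  exact fd (Set.finite_singleton ((κ', x', y', o) : Idx)) fun ω ω' h => by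
    show ω (κ', x', y', o) = true ↔ ω' (κ', x', y', o) = true
    rw [h _ rfl]

lemma bc_vis {n : ℕ} {κ' : ℕ} {x' : List Bool} (hS : ¬ SS Φ κ (tt n) κ' x') (y' : List Bool)
    {ω ω' : Om} (h : ∀ a ∈ (bc κ' x' y')ᶜ, ω a = ω' a) : ∀ a ∈ Vis Φ κ (tt n), ω a = ω' a := by
  intro a ha
  refine h a ?_
  rintro ⟨h1, h2, _⟩
  exact hidden_notMem hS ha ⟨h1, h2⟩

lemma tk_off (D : Ds Φ α κ tt I) {n : ℕ} {κ' : ℕ} {x' y' : List Bool}
    (hSS : ¬ SS Φ κ (tt n) κ' x') {ω ω' : Om} (h : ∀ a ∈ (bc κ' x' y')ᶜ, ω a = ω' a)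
    {S : List (ℕ × ℕ)} (hS : ∀ e ∈ S, e.1 ≤ n) (hq : wq κ' x' y' ∉ fk Φ α κ Pr tt I S ω)
    (hT : TK Φ α κ Pr tt I S ω) : TK Φ α κ Pr tt I S ω' := by
  have hv := bc_vis hSS y' h
  induction S with
  | nil => trivial
  | cons e S ih =>
    have hS' : ∀ e' ∈ S, e'.1 ≤ n := fun e' he' => hS e' (List.mem_cons_of_mem _ he')
    have hq1 : wq κ' x' y' ∉ fk Φ α κ Pr tt I S ω := fun h' =>
      hq (List.mem_cons_of_mem _ h')
    obtain ⟨h1, h2, κ₁, x₁, y₁, h3, h4, h5, h6⟩ := hT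
    have hf := fk_dep (Pr := Pr) D hS' hv
    refine ⟨ih hS' hq1 h1, h2, κ₁, x₁, y₁, ?_, h4, ?_, ?_⟩
    · rw [← hf, ← qr_dep D _ e (hS e List.mem_cons_self) hv]
      exact h3
    · refine (ky_congr fun a ha => h a ?_).1 h5
      rintro ⟨e1, e2, e3⟩
      obtain ⟨f1, f2, f3⟩ := ha
      apply hq
      have : wq κ' x' y' = wq κ₁ x₁ y₁ := by
        rw [← e1, ← e2, ← e3, f1, f2, f3]
      rw [this, ← h3]
      exact List.mem_cons_self
    · rw [← hf]
      exact h6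

/-- The event that a new key is described. -/
def Bc (Φ : Par2) (α : Adv) (κ : ℕ) (Pr : List Instr) (tt : ℕ → ℕ) (I : ℕ → Om → List Bool)
    (e : ℕ × ℕ) (S : List (ℕ × ℕ)) (c : ℕ × List Bool × List Bool) : Set Om :=
  {ω | ¬ SS Φ κ (tt e.1) c.1 c.2.1 ∧ TK Φ α κ Pr tt I S ω ∧
    qr (oA Φ α κ (tt e.1) (fk Φ α κ Pr tt I S ω) ω) Pr (I e.1 ω) e.2 = wq c.1 c.2.1 c.2.2 ∧
    wq c.1 c.2.1 c.2.2 ∉ fk Φ α κ Pr tt I S ω}

lemma tk_cons {e : ℕ × ℕ} {S : List (ℕ × ℕ)} (hS : ∀ e' ∈ S, e'.1 ≤ e.1) :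
    {ω | TK Φ α κ Pr tt I (e :: S) ω} = ⋃ c : ℕ × List Bool × List Bool,
      (Bc Φ α κ Pr tt I e S c ∩ {ω | Ky Φ ω c.1 c.2.1 c.2.2}) := by
  ext ω
  simp only [Set.mem_iUnion, Set.mem_inter_iff, Set.mem_ofPred_eq, Bc]
  constructor
  · rintro ⟨h1, _, κ', x', y', h2, h3, h4, h5⟩
    exact ⟨(κ', x', y'), ⟨h3, h1, h2, h5⟩, h4⟩
  · rintro ⟨⟨κ', x', y'⟩, ⟨h3, h1, h2, h5⟩, h4⟩
    exact ⟨h1, hS, κ', x', y', h2, h3, h4, h5⟩

lemma tk_meas (D : Ds Φ α κ tt I) (S : List (ℕ × ℕ)) :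
    MeasurableSet {ω | TK Φ α κ Pr tt I S ω} := by
  induction S with
  | nil =>
    have : {ω | TK Φ α κ Pr tt I [] ω} = Set.univ := by
      ext ω
      simp [TK]
    rw [this]
    exact MeasurableSet.univ
  | cons e S ih =>
    by_cases hS : ∀ e' ∈ S, e'.1 ≤ e.1
    · rw [tk_cons hS]
      refine MeasurableSet.iUnion fun c => MeasurableSet.inter ?_ (ky_meas Φ _ _ _)
      by_cases hc : SS Φ κ (tt e.1) c.1 c.2.1
      · have : Bc Φ α κ Pr tt I e S c = ∅ := by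
          ext ω
          constructor
          · intro h
            exact (h.1 hc).elim
          · intro h
            exact h.elim
        rw [this]
        exact MeasurableSet.empty
      · have : Bc Φ α κ Pr tt I e S c = {ω | TK Φ α κ Pr tt I S ω} ∩
            {ω | qr (oA Φ α κ (tt e.1) (fk Φ α κ Pr tt I S ω) ω) Pr (I e.1 ω) e.2 =
              wq c.1 c.2.1 c.2.2 ∧ wq c.1 c.2.1 c.2.2 ∉ fk Φ α κ Pr tt I S ω} := by
          ext ω
          constructor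
          · rintro ⟨_, h1, h2⟩
            exact ⟨h1, h2⟩
          · rintro ⟨h1, h2⟩
            exact ⟨hc, h1, h2⟩
        rw [this]
        refine ih.inter (fd (visfin Φ κ (tt e.1)) fun ω ω' h => ?_)
        show (_ ∧ _) ↔ (_ ∧ _)
        rw [fk_dep D hS h, qr_dep D _ e le_rfl h]
    · have : {ω | TK Φ α κ Pr tt I (e :: S) ω} = ∅ := by
        ext ω
        constructor
        · rintro ⟨_, h, _⟩
          exact (hS h).elim
        · intro h
          exact h.elim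
      rw [this]
      exact MeasurableSet.empty

/-- An event that depends on some coins and an event that does not depend on them. -/
lemma inter_eq (Φ : Par2) {p : Set Idx} {B K : Set Om} (hB : MeasurableSet B)
    (hK : MeasurableSet K)
    (dB : ∀ ω ω' : Om, (∀ a ∈ pᶜ, ω a = ω' a) → (ω ∈ B ↔ ω' ∈ B))
    (dK : ∀ ω ω' : Om, (∀ a ∈ p, ω a = ω' a) → (ω ∈ K ↔ ω' ∈ K)) :
    coin Φ (B ∩ K) = coin Φ K * coin Φ B := by
  have hBd : Dep pᶜ (B.indicator (1 : Om → ℝ≥0∞)) := by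
    intro ω ω' h
    have hB := dB ω ω' h
    by_cases hω : ω ∈ B
    · rw [Set.indicator_of_mem hω, Set.indicator_of_mem (hB.1 hω)]
      rfl
    · rw [Set.indicator_of_notMem hω, Set.indicator_of_notMem fun h => hω (hB.2 h)]
  have hKd : Dep p (K.indicator (1 : Om → ℝ≥0∞)) := by
    intro ω ω' h
    have hB := dK ω ω' h
    by_cases hω : ω ∈ K
    · rw [Set.indicator_of_mem hω, Set.indicator_of_mem (hB.1 hω)]
      rfl
    · rw [Set.indicator_of_notMem hω, Set.indicator_of_notMem fun h => hω (hB.2 h)]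
  have hi := indep Φ (p := p) (F := K.indicator 1) (G := B.indicator 1)
    (measurable_one.indicator hK) (measurable_one.indicator hB) hKd hBd
  rw [lintegral_indicator_one hK, lintegral_indicator_one hB] at hi
  have hmul : ∀ ω : Om, K.indicator (1 : Om → ℝ≥0∞) ω * B.indicator 1 ω =
      (B ∩ K).indicator 1 ω := by
    intro ω
    by_cases ha : ω ∈ B <;> by_cases hb : ω ∈ K <;> simp [Set.indicator, ha, hb]
  simp only [hmul] at hi
  rw [lintegral_indicator_one (hB.inter hK)] at hi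
  exact hi

/-- The probability of a coin of high level. -/
lemma sv_le' (Φ : Par2) {κ' : ℕ} {x' y : List Bool} {o L : ℕ}
    (ho : it Φ κ' x' o ≤ Bd Φ) (hm0 : nn Φ 0 ≤ L) (hm : L ≤ lev κ' x') :
    ENNReal.ofReal (1 - sv Φ (κ', x', y, o)) ≤ (2⁻¹ : ℝ≥0∞) ^ (L / 2) := by
  have h1 : 1 - sv Φ (κ', x', y, o) ≤ ex Φ (κ', x', y, o) := by
    unfold sv
    have := Real.add_one_le_exp (-ex Φ (κ', x', y, o))
    linarith
  have h2 : ex Φ (κ', x', y, o) ≤ (Bd Φ : ℝ) / 2 ^ lev κ' x' := by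
    unfold ex
    exact div_le_div_of_nonneg_right ho (by positivity)
  have h3 : (Bd Φ : ℝ) / 2 ^ lev κ' x' ≤ (2⁻¹ : ℝ) ^ (L / 2) := by
    have h4 := nnb Φ 0
    have h5 : (Bd Φ : ℝ) * 2 ^ (L / 2) ≤ 2 ^ lev κ' x' := by
      have h6 : Bd Φ * 2 ^ (L / 2) ≤ 2 ^ lev κ' x' := by
        calc Bd Φ * 2 ^ (L / 2) ≤ 2 ^ Bd Φ * 2 ^ (L / 2) :=
              Nat.mul_le_mul_right _ Nat.lt_two_pow_self.le
          _ = 2 ^ (Bd Φ + L / 2) := (pow_add _ _ _).symm
          _ ≤ 2 ^ lev κ' x' := Nat.pow_le_pow_right (by norm_num) (by omega)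
      exact_mod_cast h6
    rw [div_le_iff₀ (by positivity)]
    have h7 : (2⁻¹ : ℝ) ^ (L / 2) * 2 ^ (L / 2) = 1 := by
      rw [← mul_pow]; norm_num
    have h8 : (Bd Φ : ℝ) = (2⁻¹ : ℝ) ^ (L / 2) * (Bd Φ * 2 ^ (L / 2)) := by
      calc (Bd Φ : ℝ) = Bd Φ * ((2⁻¹ : ℝ) ^ (L / 2) * 2 ^ (L / 2)) := by rw [h7, mul_one]
        _ = _ := by ring
    rw [h8]
    exact mul_le_mul_of_nonneg_left h5 (by positivity)
  calc ENNReal.ofReal (1 - sv Φ (κ', x', y, o)) ≤ ENNReal.ofReal ((2⁻¹ : ℝ) ^ (L / 2)) :=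
        ENNReal.ofReal_le_ofReal ((h1.trans h2).trans h3)
    _ = (2⁻¹ : ℝ≥0∞) ^ (L / 2) := by
        rw [ENNReal.ofReal_pow (by norm_num), ENNReal.ofReal_inv_of_pos (by norm_num)]
        norm_num

/-- The probability of a possible key. -/
lemma ky_le (Φ : Par2) {κ' : ℕ} {x' y' : List Bool} {L : ℕ} (hm0 : nn Φ 0 ≤ L)
    (hm : L ≤ lev κ' x') :
    coin Φ {ω | Ky Φ ω κ' x' y'} ≤ KK Φ * (2⁻¹ : ℝ≥0∞) ^ (L / 2) := by
  have h1 : {ω | Ky Φ ω κ' x' y'} ⊆ ⋃ o ∈ Finset.range (KK Φ),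
      {ω : Om | it Φ κ' x' o ≤ Bd Φ ∧ ω (κ', x', y', o) = true} := by
    rintro ω ⟨o, h1, h2, h3⟩
    simp only [Set.mem_iUnion, Finset.mem_range]
    exact ⟨o, h1, h2, h3⟩
  calc coin Φ {ω | Ky Φ ω κ' x' y'} ≤ coin Φ (⋃ o ∈ Finset.range (KK Φ),
        {ω : Om | it Φ κ' x' o ≤ Bd Φ ∧ ω (κ', x', y', o) = true}) := measure_mono h1
    _ ≤ ∑ o ∈ Finset.range (KK Φ),
        coin Φ {ω : Om | it Φ κ' x' o ≤ Bd Φ ∧ ω (κ', x', y', o) = true} :=
        measure_biUnion_finset_le _ _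
    _ ≤ ∑ _o ∈ Finset.range (KK Φ), (2⁻¹ : ℝ≥0∞) ^ (L / 2) := by
        refine Finset.sum_le_sum fun o _ => ?_
        by_cases ho : it Φ κ' x' o ≤ Bd Φ
        · refine (measure_mono (t := {ω : Om | ω (κ', x', y', o) = true}) fun ω h => h.2).trans ?_
          rw [coin_true]
          exact sv_le' Φ ho hm0 hm
        · have : {ω : Om | it Φ κ' x' o ≤ Bd Φ ∧ ω (κ', x', y', o) = true} = ∅ := by
            ext ω
            constructor
            · intro h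
              exact (ho h.1).elim
            · intro h
              exact h.elim
          rw [this]
          simp
    _ = KK Φ * (2⁻¹ : ℝ≥0∞) ^ (L / 2) := by
        rw [Finset.sum_const, Finset.card_range, nsmul_eq_mul]

/-- One more described key. -/
lemma tk_step (D : Ds Φ α κ tt I) (e : ℕ × ℕ) (S : List (ℕ × ℕ)) :
    coin Φ {ω | TK Φ α κ Pr tt I (e :: S) ω} ≤
      eps Φ κ tt e * coin Φ {ω | TK Φ α κ Pr tt I S ω} := by
  by_cases hS : ∀ e' ∈ S, e'.1 ≤ e.1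
  swap
  · have : {ω | TK Φ α κ Pr tt I (e :: S) ω} = ∅ := by
      ext ω
      constructor
      · rintro ⟨_, h, _⟩
        exact (hS h).elim
      · intro h
        exact h.elim
    rw [this]
    simp
  have hBm : ∀ c, MeasurableSet (Bc Φ α κ Pr tt I e S c) := by
    intro c
    by_cases hc : SS Φ κ (tt e.1) c.1 c.2.1
    · have : Bc Φ α κ Pr tt I e S c = ∅ := by
        ext ω
        constructor
        · intro h
          exact (h.1 hc).elim
        · intro h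
          exact h.elim
      rw [this]
      exact MeasurableSet.empty
    · have : Bc Φ α κ Pr tt I e S c = {ω | TK Φ α κ Pr tt I S ω} ∩
          {ω | qr (oA Φ α κ (tt e.1) (fk Φ α κ Pr tt I S ω) ω) Pr (I e.1 ω) e.2 =
            wq c.1 c.2.1 c.2.2 ∧ wq c.1 c.2.1 c.2.2 ∉ fk Φ α κ Pr tt I S ω} := by
        ext ω
        constructor
        · rintro ⟨_, h1, h2⟩
          exact ⟨h1, h2⟩
        · rintro ⟨h1, h2⟩
          exact ⟨hc, h1, h2⟩
      rw [this]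
      refine (tk_meas D S).inter (fd (visfin Φ κ (tt e.1)) fun ω ω' h => ?_)
      show (_ ∧ _) ↔ (_ ∧ _)
      rw [fk_dep D hS h, qr_dep D _ e le_rfl h]
  have hdisj : Pairwise (Function.onFun Disjoint (Bc Φ α κ Pr tt I e S)) := by
    intro c c' hcc
    rw [Function.onFun, Set.disjoint_left]
    rintro ω ⟨_, _, h1, _⟩ ⟨_, _, h2, _⟩
    apply hcc
    obtain ⟨e1, e2, e3⟩ := Pool.Agent.RelM.HitJob.wq_inj' (h1.symm.trans h2)
    exact Prod.ext e1 (Prod.ext e2 e3)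
  rw [tk_cons hS]
  calc coin Φ (⋃ c : ℕ × List Bool × List Bool,
        (Bc Φ α κ Pr tt I e S c ∩ {ω | Ky Φ ω c.1 c.2.1 c.2.2}))
      ≤ ∑' c : ℕ × List Bool × List Bool,
        coin Φ (Bc Φ α κ Pr tt I e S c ∩ {ω | Ky Φ ω c.1 c.2.1 c.2.2}) :=
        measure_iUnion_le _
    _ ≤ ∑' c, eps Φ κ tt e * coin Φ (Bc Φ α κ Pr tt I e S c) := by
        refine ENNReal.tsum_le_tsum fun c => ?_
        by_cases hc : SS Φ κ (tt e.1) c.1 c.2.1
        · have : Bc Φ α κ Pr tt I e S c = ∅ := by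
            ext ω
            constructor
            · intro h
              exact (h.1 hc).elim
            · intro h
              exact h.elim
          rw [this]
          simp
        rw [inter_eq Φ (p := bc c.1 c.2.1 c.2.2) (hBm c) (ky_meas Φ _ _ _) ?_ ?_]
        · gcongr
          exact ky_le Φ (D.start e.1) (hiddenA D.odd (D.start e.1) hc)
        · have key : ∀ ω ω' : Om, (∀ a ∈ (bc c.1 c.2.1 c.2.2)ᶜ, ω a = ω' a) →
              ω ∈ Bc Φ α κ Pr tt I e S c → ω' ∈ Bc Φ α κ Pr tt I e S c := by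
            rintro ω ω' h ⟨h1, h2, h3, h4⟩
            have hv := bc_vis h1 c.2.2 h
            refine ⟨h1, tk_off D h1 h hS h4 h2, ?_, ?_⟩
            · rw [← fk_dep D hS hv, ← qr_dep D _ e le_rfl hv]
              exact h3
            · rw [← fk_dep D hS hv]
              exact h4
          intro ω ω' h
          exact ⟨key ω ω' h, key ω' ω fun a ha => (h a ha).symm⟩
        · intro ω ω' h
          exact ky_congr h
    _ = eps Φ κ tt e * coin Φ (⋃ c, Bc Φ α κ Pr tt I e S c) := by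
        rw [ENNReal.tsum_mul_left, measure_iUnion hdisj hBm]
    _ ≤ _ := by
        gcongr
        intro ω hω
        simp only [Set.mem_iUnion] at hω
        obtain ⟨c, hc⟩ := hω
        exact hc.2.1

end DESC_

end Pool.Agent.RelW
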