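import Pool.Agent.RelW.DESC

/-!
# Sums over descriptions and the true description
-/

set_option autoImplicit false

namespace Pool.Agent.RelW

open MeasureTheory Set
open scoped ENNReal
open Pool.Agent.RelM (Lang Instr Cfg step run Halts pair str pre wq sq0 sq1 Asks hq qb)
open Pool.Agent.RelO (lev levmono)
open Pool.Agent.RelS (Z Rl orcV orc Idx Om Dep mixP fd meas_of_dep ovis ocut bern)
open Pool.Agent.RelT (Par Hist md md_pos md_spec ix ix_str qf seto)
open Pool.Agent.RelV (Cd cde cde_surj mN mM av nu)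

/-- The lists of length `h` with entries in `E`. -/
def lists (E : Finset (ℕ × ℕ)) : ℕ → Finset (List (ℕ × ℕ))
  | 0 => {[]}
  | h + 1 => (E ×ˢ lists E h).image fun p => p.1 :: p.2

theorem mem_lists {E : Finset (ℕ × ℕ)} {h : ℕ} {S : List (ℕ × ℕ)} :
    S ∈ lists E h ↔ S.length = h ∧ ∀ e ∈ S, e ∈ E := by
  induction h generalizing S with
  | zero =>
    unfold lists
    rw [Finset.mem_singleton]
    constructor
    · rintro rfl
      exact ⟨rfl, fun e he => absurd he List.not_mem_nil⟩
    · rintro ⟨h1, _⟩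
      exact List.eq_nil_of_length_eq_zero h1
  | succ h ih =>
    unfold lists
    rw [Finset.mem_image]
    constructor
    · rintro ⟨⟨e, S'⟩, h1, rfl⟩
      rw [Finset.mem_product] at h1
      obtain ⟨h2, h3⟩ := ih.1 h1.2
      refine ⟨by simp [h2], fun e' he' => ?_⟩
      rcases List.mem_cons.1 he' with h4 | h4
      · rw [h4]
        exact h1.1
      · exact h3 e' h4
    · rintro ⟨h1, h2⟩
      cases S with
      | nil => simp at h1
      | cons e S' =>
        refine ⟨(e, S'), Finset.mem_product.2 ⟨h2 e List.mem_cons_self, ih.2 ⟨?_, ?_⟩⟩, rfl⟩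
        · simpa using h1
        · exact fun e' he' => h2 e' (List.mem_cons_of_mem _ he')

theorem sum_lists {M : Type} [AddCommMonoid M] (E : Finset (ℕ × ℕ)) (h : ℕ)
    (f : List (ℕ × ℕ) → M) : ∑ S ∈ lists E (h + 1), f S =
      ∑ e ∈ E, ∑ S ∈ lists E h, f (e :: S) := by
  show ∑ S ∈ (E ×ˢ lists E h).image (fun p => p.1 :: p.2), f S = _
  rw [Finset.sum_image, Finset.sum_product]
  rintro ⟨e, S⟩ _ ⟨e', S'⟩ _ h
  simpa using h

theorem card_lists (E : Finset (ℕ × ℕ)) (h : ℕ) : (lists E h).card = E.card ^ h := by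
  induction h with
  | zero => simp [lists]
  | succ h ih =>
    have h1 := sum_lists E h fun _ => (1 : ℕ)
    simp only [Finset.sum_const, smul_eq_mul, mul_one] at h1
    rw [h1, ih]
    ring

section
variable {Φ : Par2} {α : Adv} {κ : ℕ} {Pr : List Instr} {tt : ℕ → ℕ} {I : ℕ → Om → List Bool}

/-- The sum of the probabilities of the descriptions of length `h`. -/
theorem tk_sum (D : Ds Φ α κ tt I) (E : Finset (ℕ × ℕ)) (h : ℕ) :
    ∑ S ∈ lists E h, coin Φ {ω | TK Φ α κ Pr tt I S ω} ≤ (∑ e ∈ E, eps Φ κ tt e) ^ h := by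
  induction h with
  | zero =>
    simp only [lists, Finset.sum_singleton, pow_zero]
    exact prob_le_one
  | succ h ih =>
    rw [sum_lists]
    calc ∑ e ∈ E, ∑ S ∈ lists E h, coin Φ {ω | TK Φ α κ Pr tt I (e :: S) ω}
        ≤ ∑ e ∈ E, ∑ S ∈ lists E h, eps Φ κ tt e * coin Φ {ω | TK Φ α κ Pr tt I S ω} :=
          Finset.sum_le_sum fun e _ => Finset.sum_le_sum fun S _ => DESC_.tk_step D e S
      _ = (∑ e ∈ E, eps Φ κ tt e) * ∑ S ∈ lists E h, coin Φ {ω | TK Φ α κ Pr tt I S ω} := by
          rw [Finset.sum_mul]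
          refine Finset.sum_congr rfl fun e _ => ?_
          rw [Finset.mul_sum]
      _ ≤ (∑ e ∈ E, eps Φ κ tt e) * (∑ e ∈ E, eps Φ κ tt e) ^ h := by gcongr
      _ = _ := by ring

/-- A part of a description of true keys. -/
theorem tk_drop {ω : Om} {S : List (ℕ × ℕ)} (h : TK Φ α κ Pr tt I S ω) (m : ℕ) :
    TK Φ α κ Pr tt I (S.drop m) ω := by
  induction m generalizing S with
  | zero => exact h
  | succ m ih =>
    cases S with
    | nil => exact h
    | cons e S => exact ih h.1

/-- The hypothesis that the oracles differ only at keys. -/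
def Cut (Φ : Par2) (α : Adv) (κ : ℕ) (tt : ℕ → ℕ) (I : ℕ → Om → List Bool) (O : Lang)
    (T : ℕ → ℕ) (ω : Om) (n : ℕ) : Prop :=
  ∀ (F : List (List Bool)) (q : List Bool), q.length ≤ (I n ω).length + T n →
    oA Φ α κ (tt n) F ω q ≠ O q → (q ∈ F ∧ O q = false) ∨
    (q ∉ F ∧ O q = true ∧ ∃ κ' x' y', ¬ SS Φ κ (tt n) κ' x' ∧ q = wq κ' x' y' ∧
      Ky Φ ω κ' x' y')

namespace DESC_

/-- Describing the keys of one more run. -/
lemma ext_desc {O : Lang} {T : ℕ → ℕ} {ω : Om} {n : ℕ} (hc : Cut Φ α κ tt I O T ω n) :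
    ∀ (m : ℕ) (S : List (ℕ × ℕ)), (∀ e ∈ S, e.1 ≤ n) → TK Φ α κ Pr tt I S ω →
      (∀ q ∈ fk Φ α κ Pr tt I S ω, O q = true) →
      ((List.finite_length_le Bool ((I n ω).length + T n)).toFinset \
        (fk Φ α κ Pr tt I S ω).toFinset).card = m →
      ∃ R : List (ℕ × ℕ), (∀ e ∈ R, e.1 = n ∧ e.2 < T n) ∧ TK Φ α κ Pr tt I (R ++ S) ω ∧
        (∀ q ∈ fk Φ α κ Pr tt I (R ++ S) ω, O q = true) ∧
        ∀ s ≤ T n, run O Pr (I n ω) s =
          run (oA Φ α κ (tt n) (fk Φ α κ Pr tt I (R ++ S) ω) ω) Pr (I n ω) s := by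
  intro m
  induction m using Nat.strong_induction_on with
  | _ m ih =>
    intro S hS hT hO hm
    by_cases hag : ∀ s < T n, ∀ q,
        Asks (oA Φ α κ (tt n) (fk Φ α κ Pr tt I S ω) ω) Pr (I n ω) s q →
        oA Φ α κ (tt n) (fk Φ α κ Pr tt I S ω) ω q = O q
    · exact ⟨[], fun e he => absurd he List.not_mem_nil, hT, hO,
        Pool.Agent.RelM.loc _ _ Pr (I n ω) (T n) hag⟩
    · push Not at hag
      obtain ⟨s, hs, q, hq, hne⟩ := hag
      have hlen : q.length ≤ (I n ω).length + T n := by
        have := Pool.Agent.RelM.len _ _ _ _ _ hq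
        omega
      rcases hc _ q hlen hne with ⟨h1, h2⟩ | ⟨h1, h2, κ', x', y', h3, h4, h5⟩
      · rw [hO q h1] at h2
        exact absurd h2 (by decide)
      · have hqr := qr_asks hq
        have hfk : fk Φ α κ Pr tt I ((n, s) :: S) ω = q :: fk Φ α κ Pr tt I S ω := by
          show qr _ _ _ _ :: _ = _
          rw [hqr]
        have hS' : ∀ e ∈ (n, s) :: S, e.1 ≤ n := by
          intro e he
          rcases List.mem_cons.1 he with h | h
          · rw [h]
          · exact hS e h
        have hT' : TK Φ α κ Pr tt I ((n, s) :: S) ω :=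
          ⟨hT, hS, κ', x', y', by rw [← h4]; exact hqr, h3, h5, by rw [← h4]; exact h1⟩
        have hO' : ∀ q' ∈ fk Φ α κ Pr tt I ((n, s) :: S) ω, O q' = true := by
          intro q' hq'
          rw [hfk] at hq'
          rcases List.mem_cons.1 hq' with h | h
          · rw [h]
            exact h2
          · exact hO q' h
        have hlt : ((List.finite_length_le Bool ((I n ω).length + T n)).toFinset \
            (fk Φ α κ Pr tt I ((n, s) :: S) ω).toFinset).card < m := by
          rw [← hm]
          apply Finset.card_lt_card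
          rw [hfk, List.toFinset_cons]
          refine ⟨?_, ?_⟩
          · intro a ha
            rw [Finset.mem_sdiff, Finset.mem_insert, not_or] at ha
            exact Finset.mem_sdiff.2 ⟨ha.1, ha.2.2⟩
          · intro hsub
            have h6 : q ∈ (List.finite_length_le Bool ((I n ω).length + T n)).toFinset \
                (fk Φ α κ Pr tt I S ω).toFinset := by
              rw [Finset.mem_sdiff, Set.Finite.mem_toFinset, List.mem_toFinset]
              exact ⟨hlen, h1⟩
            have h7 := hsub h6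
            rw [Finset.mem_sdiff, Finset.mem_insert, not_or] at h7
            exact h7.2.1 rfl
        obtain ⟨R, hR1, hR2, hR3, hR4⟩ := ih _ hlt ((n, s) :: S) hS' hT' hO' rfl
        refine ⟨R ++ [(n, s)], ?_, ?_, ?_, ?_⟩
        · intro e he
          rcases List.mem_append.1 he with h | h
          · exact hR1 e h
          · rw [List.mem_singleton] at h
            rw [h]
            exact ⟨rfl, hs⟩
        · rw [List.append_assoc]
          exact hR2
        · rw [List.append_assoc]
          exact hR3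
        · rw [List.append_assoc]
          exact hR4

end DESC_

/-- The true description. -/
theorem ex_desc {O : Lang} {T : ℕ → ℕ} {ω : Om} {N : ℕ}
    (hc : ∀ n < N, Cut Φ α κ tt I O T ω n) :
    ∃ S : List (ℕ × ℕ), (∀ e ∈ S, e.1 < N ∧ e.2 < T e.1) ∧ TK Φ α κ Pr tt I S ω ∧
      (∀ q ∈ fk Φ α κ Pr tt I S ω, O q = true) ∧
      ∀ n < N, ∀ s ≤ T n, run O Pr (I n ω) s =
        run (oA Φ α κ (tt n)
          (fk Φ α κ Pr tt I (S.filter fun e => decide (e.1 ≤ n)) ω) ω) Pr (I n ω) s := by
  induction N with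
  | zero =>
    exact ⟨[], fun e he => absurd he List.not_mem_nil, trivial,
      fun q hq => absurd hq List.not_mem_nil, fun n hn => absurd hn (by omega)⟩
  | succ N ih =>
    obtain ⟨S, h1, h2, h3, h4⟩ := ih fun n hn => hc n (by omega)
    obtain ⟨R, hR1, hR2, hR3, hR4⟩ := DESC_.ext_desc (hc N (Nat.lt_succ_self N)) _ S
      (fun e he => (h1 e he).1.le) h2 h3 rfl
    refine ⟨R ++ S, ?_, hR2, hR3, ?_⟩
    · intro e he
      rcases List.mem_append.1 he with h | h
      · obtain ⟨h5, h6⟩ := hR1 e h
        rw [h5]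
        exact ⟨Nat.lt_succ_self N, h6⟩
      · exact ⟨(h1 e h).1.trans (Nat.lt_succ_self N), (h1 e h).2⟩
    · intro n hn s hs
      rcases Nat.lt_or_ge n N with h | h
      · have h5 : (R ++ S).filter (fun e => decide (e.1 ≤ n)) =
            S.filter fun e => decide (e.1 ≤ n) := by
          rw [List.filter_append, List.filter_eq_nil_iff.2, List.nil_append]
          intro e he
          rw [(hR1 e he).1]
          simp only [decide_eq_true_eq, not_le]
          exact h
        rw [h5]
        exact h4 n h s hs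
      · have h5 : n = N := by omega
        rw [h5] at hs ⊢
        have h6 : (R ++ S).filter (fun e => decide (e.1 ≤ N)) = R ++ S := by
          rw [List.filter_eq_self]
          intro e he
          rw [decide_eq_true_eq]
          rcases List.mem_append.1 he with h' | h'
          · exact (hR1 e h').1.le
          · exact (h1 e h').1.le
        rw [h6]
        exact hR4 s hs

end

end Pool.Agent.RelW
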