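import Pool.Agent.RelW.VIEWA
import Pool.Agent.RelT.CNT

/-!
# The bits of an odd family, with advice
-/

set_option autoImplicit false

namespace Pool.Agent.RelW

open MeasureTheory Set
open scoped ENNReal
open Pool.Agent.RelM (Lang Instr Cfg step run Halts pair str pre wq sq0 sq1 Asks hq qb)
open Pool.Agent.RelO (lev levmono levpow)
open Pool.Agent.RelS (Z Rl orcV orc Idx Om Dep mixP fd meas_of_dep ovis ocut bern gf gf_nonneg gf_le
  gf_log_two)
open Pool.Agent.RelT (Par Hist md md_pos md_spec ix ix_str qf seto)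
open Pool.Agent.RelV (Cd cde cde_surj mN mM av nu)
open Pool.Agent.RelT.CNT_ (polylog blocks)
open FAIR_

/-- The hidden language with advice. -/
noncomputable def RA (Φ : Par2) (α : Adv) (κ : ℕ) (ω : Om) : Lang :=
  Rl (zz Φ (hfA Φ α ω).1 ω) κ

theorem bitA_dep {Φ : Par2} {α : Adv} (hα : GdA Φ α) {κ : ℕ} (hκ : κ % 2 = 1) {s t : ℕ}
    (h0 : nn Φ 0 ≤ lev κ (str t)) (h : s < t) {ω ω' : Om} (hω : ∀ a ∈ Vis Φ κ t, ω a = ω' a) :
    RA Φ α κ ω (str s) = RA Φ α κ ω' (str s) := by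
  have hl := lev_mono κ h.le
  have h1 : ∀ y : List Bool, y.length = lev κ (str s) →
      zz Φ (hfA Φ α ω).1 ω κ (str s) y = zz Φ (hfA Φ α ω').1 ω' κ (str s) y := by
    intro y hy
    show ω (κ, str s, y, oc Φ (hfA Φ α ω).1 κ (lev κ (str s))) =
      ω' (κ, str s, y, oc Φ (hfA Φ α ω').1 κ (lev κ (str s)))
    rw [← ocA_view α hl ω, ← ocA_view α hl ω', hA_vis α hκ h0 hω]
    refine hω _ ⟨Or.inr ⟨rfl, s, h, rfl⟩, hy, ?_⟩
    exact (ocspec Φ _ κ _ (str s) (gd_hA hα ω' _)).1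
  show Rl (zz Φ (hfA Φ α ω).1 ω) κ (str s) = Rl (zz Φ (hfA Φ α ω').1 ω') κ (str s)
  unfold Rl
  rw [decide_eq_decide]
  refine exists_congr fun y => and_congr_right fun hy => ?_
  rw [h1 y hy]

theorem rA_dep {Φ : Par2} (α : Adv) {κ : ℕ} (hκ : κ % 2 = 1) {t : ℕ}
    (h0 : nn Φ 0 ≤ lev κ (str t)) : Dep (Vis Φ κ t) (rA Φ α κ t) := by
  intro ω ω' hω
  unfold rA
  rw [hA_vis α hκ h0 hω]

/-- The probability of a bit, with advice. -/
theorem fairA {Φ : Par2} {α : Adv} (hα : GdA Φ α) {κ : ℕ} (hκ : κ % 2 = 1) {t : ℕ} (b : Bool)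
    {H : Om → ℝ≥0∞} (h0 : nn Φ 0 ≤ lev κ (str t)) (hH : Measurable H)
    (dH : Dep (Vis Φ κ t) H) :
    ∫⁻ ω in {ω | RA Φ α κ ω (str t) = b}, H ω ∂(coin Φ) =
      ∫⁻ ω, ENNReal.ofReal (if b = false then rA Φ α κ t ω else 1 - rA Φ α κ t ω) * H ω
        ∂(coin Φ) := by
  obtain ⟨O, hOe⟩ : ∃ O : Om → ℕ, ∀ ω, O ω = oc Φ (hA Φ α ω (bl Φ κ (str t))).1 κ
      (lev κ (str t)) := ⟨_, fun _ => rfl⟩
  have hOd : Dep (Vis Φ κ t) O := by
    intro ω ω' h
    rw [hOe, hOe, hA_vis α hκ h0 h]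
  have hrt : ∀ ω, rA Φ α κ t ω = Real.exp (-it Φ κ (str t) (O ω)) := by
    intro ω
    unfold rA
    rw [hOe]
  simp only [hrt]
  refine fair_gen Φ κ (str t) b (N := KK Φ) hH ?_ ?_ ?_ ?_ ?_
  · exact meas_of_dep (visfin Φ κ t) hOd
  · intro ω
    rw [hOe]
    exact (ocspec Φ _ κ _ (str t) (gd_hA hα ω _)).1
  · intro ω ω' h
    exact hOd ω ω' fun a ha => h a (hidden_notMem (not_ss Φ κ t) ha)
  · intro ω ω' h
    exact dH ω ω' fun a ha => h a (hidden_notMem (not_ss Φ κ t) ha)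
  · intro ω
    refine Rl_iff _ ω κ (str t) (O ω) b fun y => ?_
    rw [hOe, ocA_view α le_rfl]
    rfl

namespace CNTA_

/-- The coin option of a stage. -/
noncomputable def Q (Φ : Par2) (o : ℕ → ℕ) (v : ℕ) : ℕ :=
  if v = 0 then 0 else if ty Φ (v - 1) = true then 0 else 2 * o v + 1

lemma rA_eq {Φ : Par2} (α : Adv) {κ : ℕ} (hκ : κ % 2 = 1) (t : ℕ) (ω : Om) :
    rA Φ α κ t ω = Real.exp (-it Φ κ (str t) (Q Φ (hfA Φ α ω).1 (bl Φ κ (str t)))) := by
  have h : oc Φ (hA Φ α ω (bl Φ κ (str t))).1 κ (lev κ (str t)) =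
      Q Φ (hfA Φ α ω).1 (bl Φ κ (str t)) := by
    rw [ocA_view α le_rfl]
    unfold oc Q bl
    rw [if_pos hκ, if_pos hκ]
  unfold rA
  rw [h]

/-- The mean entropy of a block. -/
lemma block {Φ : Par2} {κ : ℕ} (hκ : κ % 2 = 1) {o : ℕ → ℕ} (ho : Gd Φ o) (v m : ℕ) :
    hd Φ κ * (Φ.A.dm κ : ℝ) ≤ ∑ c ∈ Finset.range (Φ.A.dm κ),
        gf (it Φ κ (str (m * Φ.A.dm κ + c)) (Q Φ o v)) := by
  have hlog : 0 < Real.log 2 := Real.log_pos (by norm_num)
  have hA1 := Φ.A.a1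
  have hκ' : 0 ≤ 1 / ((κ : ℝ) + 1) := by positivity
  have hfree : hd Φ κ * (Φ.A.dm κ : ℝ) ≤ ∑ c ∈ Finset.range (Φ.A.dm κ),
        gf (it Φ κ (str (m * Φ.A.dm κ + c)) 0) := by
    have h1 : ∀ x, gf (it Φ κ x 0) = Real.log 2 := by
      intro x
      unfold it
      rw [if_pos rfl, gf_log_two]
    simp only [h1]
    rw [Finset.sum_const, Finset.card_range, nsmul_eq_mul, mul_comm]
    refine mul_le_mul_of_nonneg_left ?_ (by positivity)
    unfold hd
    rw [if_pos hκ]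
    nlinarith
  unfold Q
  split_ifs with h1 h2
  · exact hfree
  · exact hfree
  · have h4 := ho (v - 1)
    rw [show v - 1 + 1 = v by omega] at h4
    unfold Pt at h4
    rw [if_neg h2] at h4
    have h6 := Φ.A.hid κ (o v) h4
    unfold hd
    rw [if_pos hκ]
    refine h6.trans (le_of_eq ?_)
    refine Finset.sum_congr rfl fun c hc => ?_
    rw [Finset.mem_range] at hc
    unfold it
    rw [if_neg (by omega), if_pos (by omega), show (2 * o v + 1 - 1) / 2 = o v by omega, ix_str,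
      Nat.mul_add_mod', Nat.mod_eq_of_lt hc]

end CNTA_

open CNTA_

/-- The mean entropy of the answers of a hidden language, with advice. -/
theorem cntA : T_CNTA := by
  intro Φ κ ε hκ hε
  obtain ⟨A, hAe⟩ : ∃ A : ℝ, A = hd Φ κ := ⟨_, rfl⟩
  obtain ⟨D, hD⟩ : ∃ D : ℕ, D = Φ.A.dm κ := ⟨_, rfl⟩
  have hD1 : 1 ≤ D := by
    rw [hD]
    exact Φ.A.dm1 κ
  have hX : 0 ≤ |A| * (D : ℝ) := by positivity
  obtain ⟨C, hC⟩ := polylog κ hX hε
  refine ⟨C + |A| * D, fun α t ω hα => ?_⟩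
  rw [← hAe]
  obtain ⟨b, hbe⟩ : ∃ b : ℕ → ℕ, ∀ t, b t = bl Φ κ (str t) := ⟨_, fun _ => rfl⟩
  obtain ⟨G, hGe⟩ : ∃ G : ℕ → ℝ, ∀ t, G t = Real.binEntropy (rA Φ α κ t ω) :=
    ⟨_, fun _ => rfl⟩
  have hGF : ∀ t, G t = gf (it Φ κ (str t) (Q Φ (hfA Φ α ω).1 (b t))) := fun t => by
    rw [hGe, rA_eq α hκ, hbe]
    rfl
  have hG : ∀ t, 0 ≤ G t := fun t => by
    rw [hGF]
    exact gf_nonneg (it_nonneg _ _ _ _)
  have hb : Monotone b := by
    intro x y hxy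
    rw [hbe, hbe]
    exact jj_mono Φ (lev_mono κ hxy)
  have hB : ∀ m, b (m * D) = b ((m + 1) * D) → A * D ≤ ∑ c ∈ Finset.range D, G (m * D + c) := by
    intro m hm
    have h0 := block hκ (gd_hfA hα ω) (b (m * D)) m
    rw [← hAe, ← hD] at h0
    refine h0.trans (le_of_eq ?_)
    refine Finset.sum_congr rfl fun c hc => ?_
    rw [Finset.mem_range] at hc
    have h1 : b (m * D + c) = b (m * D) := by
      refine le_antisymm ?_ (hb (by omega))
      rw [hm]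
      refine hb ?_
      have : (m + 1) * D = m * D + D := by ring
      omega
    rw [hGF, h1]
  have h1 := blocks hG hb hB (t / D)
  have h2 : t / D * D ≤ t := Nat.div_mul_le_self t D
  have h3 : ∑ t' ∈ Finset.range (t / D * D), G t' ≤ ∑ t' ∈ Finset.range t, G t' :=
    Finset.sum_le_sum_of_subset_of_nonneg (Finset.range_subset_range.2 h2) fun i _ _ => hG i
  have h4 : A * t - |A| * D ≤ A * D * (t / D : ℕ) := by
    have e1 : t = t / D * D + t % D := by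
      have := Nat.div_add_mod' t D
      omega
    have e2 : (t : ℝ) = ((t / D : ℕ) : ℝ) * D + ((t % D : ℕ) : ℝ) := by
      exact_mod_cast e1
    have e3 : ((t % D : ℕ) : ℝ) ≤ D := by
      exact_mod_cast (Nat.mod_lt t (by omega)).le
    have e4 : A * ((t % D : ℕ) : ℝ) ≤ |A| * D := by
      calc A * ((t % D : ℕ) : ℝ) ≤ |A| * ((t % D : ℕ) : ℝ) :=
            mul_le_mul_of_nonneg_right (le_abs_self A) (by positivity)
        _ ≤ |A| * D := mul_le_mul_of_nonneg_left e3 (abs_nonneg A)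
    have e5 : A * (t : ℝ) = A * D * ((t / D : ℕ) : ℝ) + A * ((t % D : ℕ) : ℝ) := by
      rw [e2]
      ring
    linarith
  have h5 : ((b (t / D * D) : ℕ) : ℝ) ≤ ((Nat.log 2 (t + 1) + 2 : ℕ) : ℝ) ^ (κ + 2) := by
    have e1 : b (t / D * D) ≤ b t := hb h2
    have e2 : b t ≤ lev κ (str t) := by
      rw [hbe]
      exact jj_le Φ _
    have e3 : lev κ (str t) ≤ ((str t).length + 2) ^ (κ + 2) := levpow κ (str t)
    rw [Pool.Agent.RelM.strlen] at e3
    exact_mod_cast (e1.trans e2).trans e3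
  have h6 : |A| * D * (b (t / D * D) : ℝ) ≤ ε * t + C :=
    (mul_le_mul_of_nonneg_left h5 hX).trans (hC t)
  have h7 : (A - ε) * t = A * t - ε * t := by ring
  have h8 : ∑ t' ∈ Finset.range t, Real.binEntropy (rA Φ α κ t' ω) =
      ∑ t' ∈ Finset.range t, G t' := Finset.sum_congr rfl fun t' _ => (hGe t').symm
  rw [h8]
  linarith

end Pool.Agent.RelW
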