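import Pool.Agent.RelW.ACC
import Pool.Agent.RelW.FAIRG
import Pool.Agent.RelM.HIT
import Pool.Agent.RelM.LOC

/-!
# Finding a hidden key
-/

set_option autoImplicit false

namespace Pool.Agent.RelW

open MeasureTheory Set
open scoped ENNReal
open Pool.Agent.RelM (Lang Instr Cfg step run Halts pair str pre wq sq0 sq1 Asks hq qb)
open Pool.Agent.RelO (lev levmono)
open Pool.Agent.RelV (Cd cde cde_surj mN mM av nu)
open Pool.Agent.RelS (Z Rl orcV orc Idx Om Dep mixP fd meas_of_dep ovis ocut bern)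
open Pool.Agent.RelT (Par Hist md md_pos md_spec ix ix_str qf seto)

/-- The coin option of a pair depends on the coins of other pairs. -/
theorem oc_dep (Φ : Par2) (κ' : ℕ) (x' : List Bool) :
    Dep (pc κ' x')ᶜ fun ω => oc Φ (hf Φ ω).1 κ' (lev κ' x') := by
  intro ω ω' h
  show oc Φ (hf Φ ω).1 κ' (lev κ' x') = oc Φ (hf Φ ω').1 κ' (lev κ' x')
  by_cases h0 : jj Φ (lev κ' x') = 0
  · unfold oc
    rw [if_pos h0, if_pos h0]
  obtain ⟨J, hJ⟩ : ∃ J, jj Φ (lev κ' x') = J + 1 := ⟨jj Φ (lev κ' x') - 1, by omega⟩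
  have hJ1 : nn Φ J ≤ lev κ' x' := (jjspec Φ (lev κ' x')).2 J (by omega)
  by_cases h1 : Sp Φ J κ'
  · refine oc_congr ?_
    rw [hJ]
    show (hs Φ ω (J + 1)).1 (J + 1) = (hs Φ ω' (J + 1)).1 (J + 1)
    rw [hsdep Φ J ω ω' fun a ha => h a ?_]
    rintro ⟨e1, e2⟩
    rcases ha with ha | ⟨ha1, ha2, _⟩ | ⟨ha1, ha2, _⟩
    · have : lev a.1 a.2.1 < nn Φ J := ha.1
      rw [e1, e2] at this
      omega
    · rcases h1 with ⟨h1, _⟩ | ⟨_, h1⟩
      · rw [h1] at ha1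
        exact absurd ha1 (by decide)
      · rw [e1] at ha2
        omega
    · rcases h1 with ⟨_, h1⟩ | ⟨h1, _⟩
      · rw [e1] at ha2
        omega
      · rw [h1] at ha1
        exact absurd ha1 (by decide)
  · rw [oc_off hJ h1, oc_off hJ h1]

/-- The probability of a coin of high level. -/
theorem one_sub_sv_le (Φ : Par2) {κ' : ℕ} {x' y : List Bool} {o L : ℕ}
    (ho : it Φ κ' x' o ≤ Bd Φ) (hm0 : nn Φ 0 ≤ L) (hm : L ≤ lev κ' x') :
    ENNReal.ofReal (1 - sv Φ (κ', x', y, o)) ≤ (2⁻¹ : ℝ≥0∞) ^ (L / 2) := by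
  have h1 : 1 - sv Φ (κ', x', y, o) ≤ ex Φ (κ', x', y, o) := by
    unfold sv
    have := Real.add_one_le_exp (-ex Φ (κ', x', y, o))
    linarith
  have h2 : ex Φ (κ', x', y, o) ≤ (Bd Φ : ℝ) / 2 ^ lev κ' x' := by
    unfold ex
    exact div_le_div_of_nonneg_right ho (by positivity)
  have h3 : (Bd Φ : ℝ) / 2 ^ lev κ' x' ≤ (2⁻¹ : ℝ) ^ (L / 2) := by
    have h4 := nnb Φ 0
    have h5 : (Bd Φ : ℝ) * 2 ^ (L / 2) ≤ 2 ^ lev κ' x' := by
      have h6 : Bd Φ * 2 ^ (L / 2) ≤ 2 ^ lev κ' x' := by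
        calc Bd Φ * 2 ^ (L / 2) ≤ 2 ^ Bd Φ * 2 ^ (L / 2) :=
              Nat.mul_le_mul_right _ Nat.lt_two_pow_self.le
          _ = 2 ^ (Bd Φ + L / 2) := (pow_add _ _ _).symm
          _ ≤ 2 ^ lev κ' x' := Nat.pow_le_pow_right (by norm_num) (by omega)
      exact_mod_cast h6
    rw [div_le_iff₀ (by positivity)]
    have h7 : (2⁻¹ : ℝ) ^ (L / 2) * 2 ^ (L / 2) = 1 := by
      rw [← mul_pow]; norm_num
    have h8 : (Bd Φ : ℝ) = (2⁻¹ : ℝ) ^ (L / 2) * (Bd Φ * 2 ^ (L / 2)) := by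
      calc (Bd Φ : ℝ) = Bd Φ * ((2⁻¹ : ℝ) ^ (L / 2) * 2 ^ (L / 2)) := by rw [h7, mul_one]
        _ = _ := by ring
    rw [h8]
    exact mul_le_mul_of_nonneg_left h5 (by positivity)
  calc ENNReal.ofReal (1 - sv Φ (κ', x', y, o)) ≤ ENNReal.ofReal ((2⁻¹ : ℝ) ^ (L / 2)) :=
        ENNReal.ofReal_le_ofReal ((h1.trans h2).trans h3)
    _ = (2⁻¹ : ℝ≥0∞) ^ (L / 2) := by
        rw [ENNReal.ofReal_pow (by norm_num), ENNReal.ofReal_inv_of_pos (by norm_num)]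
        norm_num

namespace HIT_

variable {Φ : Par2} {S : ℕ → List Bool → Prop} {V : Set Idx} {f : Om → Lang} {L : ℕ}
  {Pr : List Instr} {X : Om → List Bool}

/-- The event that `wq κ' x' y` with a hidden pair is asked at step `s`. -/
def A (S : ℕ → List Bool → Prop) (f : Om → Lang) (Pr : List Instr) (X : Om → List Bool) (s : ℕ)
    (i : ℕ × List Bool × List Bool) : Set Om :=
  {ω | ¬ S i.1 i.2.1 ∧ Asks (f ω) Pr (X ω) s (wq i.1 i.2.1 i.2.2)}

lemma A_iff (hf' : Dep V f) (hX : Dep V X) (s : ℕ) (i : ℕ × List Bool × List Bool)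
    {ω ω' : Om} (h : ∀ a ∈ V, ω a = ω' a) : ω ∈ A S f Pr X s i ↔ ω' ∈ A S f Pr X s i := by
  show (_ ∧ Asks (f ω) Pr (X ω) s _) ↔ (_ ∧ Asks (f ω') Pr (X ω') s _)
  rw [hf' ω ω' h, hX ω ω' h]

lemma A_meas (hV : V.Finite) (hf' : Dep V f) (hX : Dep V X) (s : ℕ)
    (i : ℕ × List Bool × List Bool) : MeasurableSet (A S f Pr X s i) :=
  fd hV fun _ _ h => A_iff hf' hX s i h

/-- One coin and an event that does not depend on it. -/
lemma hit_coin (Φ : Par2) (κ' : ℕ) (x' y : List Bool) (o : ℕ) {B₀ : Set Om} {c : ℝ≥0∞}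
    (hBm : MeasurableSet B₀) (hCm : MeasurableSet {ω : Om | ω (κ', x', y, o) = true})
    (hBi : ∀ ω ω' : Om, (∀ a ∈ (pc κ' x')ᶜ, ω a = ω' a) → (ω ∈ B₀ ↔ ω' ∈ B₀))
    (hc : ENNReal.ofReal (1 - sv Φ (κ', x', y, o)) ≤ c) :
    coin Φ (B₀ ∩ {ω : Om | ω (κ', x', y, o) = true}) ≤ c * coin Φ B₀ := by
  have hBd : Dep (pc κ' x')ᶜ (B₀.indicator (1 : Om → ℝ≥0∞)) := by
    intro ω ω' h
    have hB := hBi ω ω' h
    by_cases hω : ω ∈ B₀
    · rw [Set.indicator_of_mem hω, Set.indicator_of_mem (hB.1 hω)]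
      rfl
    · rw [Set.indicator_of_notMem hω, Set.indicator_of_notMem fun h => hω (hB.2 h)]
  have hCd : Dep (pc κ' x') (({ω : Om | ω (κ', x', y, o) = true}).indicator
      (1 : Om → ℝ≥0∞)) := by
    intro ω ω' h
    have : ω (κ', x', y, o) = ω' (κ', x', y, o) := h _ ⟨rfl, rfl⟩
    by_cases hω : ω (κ', x', y, o) = true
    · rw [Set.indicator_of_mem (show ω ∈ {ω : Om | ω (κ', x', y, o) = true} from hω),
        Set.indicator_of_mem
          (show ω' ∈ {ω : Om | ω (κ', x', y, o) = true} from this.symm.trans hω)]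
      rfl
    · rw [Set.indicator_of_notMem (show ω ∉ {ω : Om | ω (κ', x', y, o) = true} from hω),
        Set.indicator_of_notMem
          (show ω' ∉ {ω : Om | ω (κ', x', y, o) = true} from fun h' => hω (this.trans h'))]
  have hi := indep Φ (p := pc κ' x')
    (F := ({ω : Om | ω (κ', x', y, o) = true}).indicator 1) (G := B₀.indicator 1)
    (measurable_one.indicator hCm) (measurable_one.indicator hBm) hCd hBd
  rw [lintegral_indicator_one hCm, lintegral_indicator_one hBm, coin_true] at hi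
  have hmul : ∀ ω : Om, ({ω : Om | ω (κ', x', y, o) = true}).indicator (1 : Om → ℝ≥0∞) ω *
      B₀.indicator 1 ω = (B₀ ∩ {ω : Om | ω (κ', x', y, o) = true}).indicator 1 ω := by
    intro ω
    by_cases ha : ω ∈ B₀ <;> by_cases hb : ω (κ', x', y, o) = true <;>
      simp [Set.indicator, ha, hb]
  simp only [hmul] at hi
  rw [lintegral_indicator_one (hBm.inter hCm)] at hi
  rw [hi]
  gcongr

/-- The coin option depends on old coins. -/
lemma oc_old (Φ : Par2) (κ' : ℕ) (x' : List Bool) {ω ω' : Om}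
    (h : ∀ a ∈ Old Φ (jj Φ (lev κ' x')), ω a = ω' a) :
    oc Φ (hf Φ ω).1 κ' (lev κ' x') = oc Φ (hf Φ ω').1 κ' (lev κ' x') := by
  have h1 := hs_congr h
  refine oc_congr ?_
  exact congrFun (congrArg Prod.fst h1) (jj Φ (lev κ' x'))

/-- The sum over the options. -/
lemma hit_sum (Φ : Par2) (κ' : ℕ) (x' y : List Bool) {O : Om → ℕ} {A₀ : Set Om} {c : ℝ≥0∞}
    {N : ℕ} (hOm : Measurable O) (hOd : Dep (pc κ' x')ᶜ O) (hAm : MeasurableSet A₀)
    (hAi : ∀ ω ω' : Om, (∀ a ∈ (pc κ' x')ᶜ, ω a = ω' a) → (ω ∈ A₀ ↔ ω' ∈ A₀))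
    (hit : ∀ o, (A₀ ∩ {ω | O ω = o}).Nonempty →
      ENNReal.ofReal (1 - sv Φ (κ', x', y, o)) ≤ c) :
    coin Φ (⋃ o ∈ Finset.range N, ((A₀ ∩ {ω | O ω = o}) ∩
      {ω : Om | ω (κ', x', y, o) = true})) ≤ c * coin Φ A₀ := by
  have hBm : ∀ o, MeasurableSet (A₀ ∩ {ω | O ω = o}) := fun o =>
    hAm.inter (hOm (measurableSet_singleton o))
  have hCm : ∀ o, MeasurableSet {ω : Om | ω (κ', x', y, o) = true} := fun o =>
    fd (Set.finite_singleton ((κ', x', y, o) : Idx)) fun ω ω' h => by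
      show ω (κ', x', y, o) = true ↔ ω' (κ', x', y, o) = true
      rw [h _ rfl]
  calc coin Φ (⋃ o ∈ Finset.range N, ((A₀ ∩ {ω | O ω = o}) ∩
        {ω : Om | ω (κ', x', y, o) = true}))
      ≤ ∑ o ∈ Finset.range N, coin Φ ((A₀ ∩ {ω | O ω = o}) ∩
        {ω : Om | ω (κ', x', y, o) = true}) := measure_biUnion_finset_le _ _
    _ ≤ ∑ o ∈ Finset.range N, c * coin Φ (A₀ ∩ {ω | O ω = o}) := by
        refine Finset.sum_le_sum fun o _ => ?_
        rcases Set.eq_empty_or_nonempty (A₀ ∩ {ω | O ω = o}) with hne | hne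
        · rw [hne]
          simp
        have hio := hit o hne
        have hBi : ∀ ω ω' : Om, (∀ a ∈ (pc κ' x')ᶜ, ω a = ω' a) →
            (ω ∈ A₀ ∩ {ω | O ω = o} ↔ ω' ∈ A₀ ∩ {ω | O ω = o}) := by
          intro ω ω' h
          show (_ ∧ O ω = o) ↔ (_ ∧ O ω' = o)
          rw [hAi ω ω' h, hOd ω ω' h]
        have hBm' := hBm o
        generalize A₀ ∩ {ω | O ω = o} = B₀ at hBi hBm' ⊢
        exact hit_coin Φ κ' x' y o hBm' (hCm o) hBi hio
    _ = c * ∑ o ∈ Finset.range N, coin Φ (A₀ ∩ {ω | O ω = o}) := by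
        rw [Finset.mul_sum]
    _ ≤ c * coin Φ A₀ := by
        gcongr
        rw [← measure_biUnion_finset]
        · refine measure_mono ?_
          intro ω hω
          simp only [Set.mem_iUnion] at hω
          obtain ⟨o, _, hω⟩ := hω
          exact hω.1
        · intro o _ o' _ hne
          rw [Function.onFun, Set.disjoint_left]
          rintro ω ⟨_, e1⟩ ⟨_, e2⟩
          have e1' : O ω = o := e1
          have e2' : O ω = o' := e2
          exact hne (e1'.symm.trans e2')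
        · exact fun o _ => hBm o

/-- A hidden key is hit with small probability. -/
lemma hit_one (hV : V.Finite) (hf' : Dep V f) (hX : Dep V X)
    (hSV : ∀ κ' x', ¬ S κ' x' → ∀ a ∈ V, a ∉ pc κ' x') (hL0 : nn Φ 0 ≤ L)
    (hSL : ∀ κ' x', ¬ S κ' x' → L ≤ lev κ' x') (s : ℕ) (i : ℕ × List Bool × List Bool) :
    coin Φ (A S f Pr X s i ∩ {ω | zo Φ ω i.1 i.2.1 i.2.2 = true}) ≤
      (2⁻¹ : ℝ≥0∞) ^ (L / 2) * coin Φ (A S f Pr X s i) := by
  obtain ⟨κ', x', y⟩ := i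
  by_cases hS : S κ' x'
  · have : A S f Pr X s (κ', x', y) = ∅ := by
      ext ω
      constructor
      · intro h
        exact (h.1 hS).elim
      · intro h
        exact h.elim
    rw [this]
    simp
  have hge := hSL κ' x' hS
  -- the option of the pair
  obtain ⟨O, hOe⟩ : ∃ O : Om → ℕ, ∀ ω, O ω = oc Φ (hf Φ ω).1 κ' (lev κ' x') :=
    ⟨_, fun _ => rfl⟩
  have hOd : Dep (pc κ' x')ᶜ O := by
    intro ω ω' h
    rw [hOe, hOe]
    exact oc_dep Φ κ' x' ω ω' h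
  have hOK : ∀ ω, O ω < KK Φ := by
    intro ω
    rw [hOe]
    exact (ocspec Φ _ κ' (lev κ' x') x' (gd_hf Φ ω)).1
  have hOit : ∀ ω, it Φ κ' x' (O ω) ≤ Bd Φ := by
    intro ω
    rw [hOe]
    exact (ocspec Φ _ κ' (lev κ' x') x' (gd_hf Φ ω)).2
  have hOm : Measurable O := by
    refine meas_of_dep (oldfin Φ (jj Φ (lev κ' x'))) fun ω ω' h => ?_
    rw [hOe, hOe]
    exact oc_old Φ κ' x' h
  have hOz : ∀ ω, zo Φ ω κ' x' y = true → ω (κ', x', y, O ω) = true := by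
    intro ω h
    rw [hOe]
    exact h
  have hAm := A_meas (S := S) (Pr := Pr) hV hf' hX s (κ', x', y)
  have hAi : ∀ ω ω' : Om, (∀ a ∈ (pc κ' x')ᶜ, ω a = ω' a) →
      (ω ∈ A S f Pr X s (κ', x', y) ↔ ω' ∈ A S f Pr X s (κ', x', y)) := fun ω ω' h =>
    A_iff hf' hX s _ fun a ha => h a (hSV κ' x' hS a ha)
  generalize A S f Pr X s (κ', x', y) = A₀ at hAm hAi ⊢
  have hz : A₀ ∩ {ω | zo Φ ω κ' x' y = true} ⊆
      ⋃ o ∈ Finset.range (KK Φ), ((A₀ ∩ {ω | O ω = o}) ∩ {ω : Om | ω (κ', x', y, o) = true}) := by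
    rintro ω ⟨hA, hz⟩
    simp only [Set.mem_iUnion, Finset.mem_range]
    exact ⟨O ω, hOK ω, ⟨hA, rfl⟩, hOz ω hz⟩
  have hit : ∀ o, (A₀ ∩ {ω | O ω = o}).Nonempty →
      ENNReal.ofReal (1 - sv Φ (κ', x', y, o)) ≤ (2⁻¹ : ℝ≥0∞) ^ (L / 2) := by
    rintro o ⟨ω₀, _, hω₀⟩
    have hω₀' : O ω₀ = o := hω₀
    refine one_sub_sv_le Φ ?_ hL0 hge
    rw [← hω₀']
    exact hOit ω₀
  refine (measure_mono hz).trans ?_
  exact hit_sum Φ κ' x' y hOm hOd hAm hAi hit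

end HIT_

open HIT_ in
/-- Finding a hidden key, general form. -/
theorem hitg {Φ : Par2} {S : ℕ → List Bool → Prop} {V : Set Idx} {f : Om → Lang} {L : ℕ}
    (Pr : List Instr) {X : Om → List Bool} (τ : ℕ) (hV : V.Finite) (hf' : Dep V f)
    (hX : Dep V X) (hSV : ∀ κ' x', ¬ S κ' x' → ∀ a ∈ V, a ∉ pc κ' x') (hL0 : nn Φ 0 ≤ L)
    (hSL : ∀ κ' x', ¬ S κ' x' → L ≤ lev κ' x')
    (hcut : ∀ (ω : Om) (q : List Bool), q.length ≤ (X ω).length + τ → oo Φ ω q ≠ f ω q →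
      ∃ κ' x' y', ¬ S κ' x' ∧ q = wq κ' x' y' ∧ zo Φ ω κ' x' y' = true) :
    coin Φ {ω | ∃ s ≤ τ, run (oo Φ ω) Pr (X ω) s ≠ run (f ω) Pr (X ω) s}
      ≤ τ * (2⁻¹ : ℝ≥0∞) ^ (L / 2) := by
  -- the events that a hidden key is asked
  have hsub : {ω | ∃ s ≤ τ, run (oo Φ ω) Pr (X ω) s ≠ run (f ω) Pr (X ω) s} ⊆
      ⋃ s ∈ Finset.range τ, ⋃ i : ℕ × List Bool × List Bool,
        (A S f Pr X s i ∩ {ω | zo Φ ω i.1 i.2.1 i.2.2 = true}) := by
    intro ω hω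
    by_contra hcon
    simp only [Set.mem_iUnion, Finset.mem_range, not_exists, exists_prop, not_and] at hcon
    obtain ⟨s, hsτ, hne⟩ := hω
    apply hne
    refine Pool.Agent.RelM.loc _ _ Pr (X ω) τ (fun s' hs' q hq => ?_) s hsτ
    by_contra hne'
    have hlen := Pool.Agent.RelM.len _ _ _ _ _ hq
    obtain ⟨κ', x', y', hS, hq', hz'⟩ := hcut ω q (by omega) fun h => hne' h.symm
    refine hcon s' hs' (κ', x', y') ⟨⟨hS, ?_⟩, hz'⟩
    rw [← hq']
    exact hq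
  have hdisj : ∀ s, Pairwise (Function.onFun Disjoint (A S f Pr X s)) := by
    intro s i j hij
    rw [Function.onFun, Set.disjoint_left]
    rintro ω ⟨_, h1⟩ ⟨_, h2⟩
    apply hij
    obtain ⟨e1, e2, e3⟩ := Pool.Agent.RelM.HitJob.wq_inj' (Pool.Agent.RelM.one _ _ _ _ _ _ h1 h2)
    exact Prod.ext e1 (Prod.ext e2 e3)
  calc coin Φ {ω | ∃ s ≤ τ, run (oo Φ ω) Pr (X ω) s ≠ run (f ω) Pr (X ω) s}
      ≤ coin Φ (⋃ s ∈ Finset.range τ, ⋃ i : ℕ × List Bool × List Bool,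
        (A S f Pr X s i ∩ {ω | zo Φ ω i.1 i.2.1 i.2.2 = true})) := measure_mono hsub
    _ ≤ ∑ s ∈ Finset.range τ, coin Φ (⋃ i : ℕ × List Bool × List Bool,
        (A S f Pr X s i ∩ {ω | zo Φ ω i.1 i.2.1 i.2.2 = true})) :=
        measure_biUnion_finset_le _ _
    _ ≤ ∑ _s ∈ Finset.range τ, (2⁻¹ : ℝ≥0∞) ^ (L / 2) := by
        refine Finset.sum_le_sum fun s _ => ?_
        calc coin Φ (⋃ i : ℕ × List Bool × List Bool,
              (A S f Pr X s i ∩ {ω | zo Φ ω i.1 i.2.1 i.2.2 = true}))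
            ≤ ∑' i : ℕ × List Bool × List Bool,
              coin Φ (A S f Pr X s i ∩ {ω | zo Φ ω i.1 i.2.1 i.2.2 = true}) :=
              measure_iUnion_le _
          _ ≤ ∑' i, (2⁻¹ : ℝ≥0∞) ^ (L / 2) * coin Φ (A S f Pr X s i) :=
              ENNReal.tsum_le_tsum fun i => hit_one hV hf' hX hSV hL0 hSL s i
          _ = (2⁻¹ : ℝ≥0∞) ^ (L / 2) * coin Φ (⋃ i, A S f Pr X s i) := by
              rw [ENNReal.tsum_mul_left, measure_iUnion (hdisj s) fun i => A_meas hV hf' hX s i]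
          _ ≤ (2⁻¹ : ℝ≥0∞) ^ (L / 2) * 1 := by
              gcongr
              exact prob_le_one
          _ = (2⁻¹ : ℝ≥0∞) ^ (L / 2) := mul_one _
    _ = τ * (2⁻¹ : ℝ≥0∞) ^ (L / 2) := by
        rw [Finset.sum_const, Finset.card_range, nsmul_eq_mul]

end Pool.Agent.RelW
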