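import Mathlib

/-!
# The mean of the logarithmic loss of rounded forecasts
-/

set_option autoImplicit false

namespace Pool.Agent.RelW

open MeasureTheory Set
open scoped ENNReal

/-- The mean loss of a forecast `q` when the probability is `p`. -/
theorem cross_le {p q ε : ℝ} (p0 : 0 ≤ p) (p1 : p ≤ 1) (q0 : 0 < q) (q1 : q < 1)
    (h : (p - q) ^ 2 ≤ ε * (q * (1 - q))) :
    p * -Real.log q + (1 - p) * -Real.log (1 - q) ≤ Real.binEntropy p + ε := by
  have key : ∀ {x y : ℝ}, 0 ≤ x → 0 < y → x * -Real.log y ≤ x * -Real.log x + x * (x / y - 1) := by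
    intro x y hx hy
    rcases hx.eq_or_lt with rfl | hx'
    · simp
    · have h1 : Real.log (x / y) ≤ x / y - 1 := Real.log_le_sub_one_of_pos (div_pos hx' hy)
      rw [Real.log_div hx'.ne' hy.ne'] at h1
      have h2 := mul_le_mul_of_nonneg_left h1 hx
      linarith
  have k1 := key p0 q0
  have k2 := key (x := 1 - p) (y := 1 - q) (by linarith) (by linarith)
  have h3 : p * (p / q - 1) + (1 - p) * ((1 - p) / (1 - q) - 1) = (p - q) ^ 2 / (q * (1 - q)) := by
    have hq' : (1 - q) ≠ 0 := by linarith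
    field_simp
    ring
  have h4 : (p - q) ^ 2 / (q * (1 - q)) ≤ ε := by
    rw [div_le_iff₀ (mul_pos q0 (by linarith))]
    exact h
  have h5 : Real.binEntropy p = p * -Real.log p + (1 - p) * -Real.log (1 - p) := by
    rw [Real.binEntropy, Real.log_inv, Real.log_inv]
  rw [h5]
  linarith

open Classical in
/-- The logarithmic loss of finitely many forecasts, each of which gives an event about its
probability, is seldom large. -/
theorem lossr {Ω : Type} [MeasurableSpace Ω] (μ : Measure Ω) [IsProbabilityMeasure μ]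
    {ι : Type} (W : Finset ι) (S : ι → Set Ω) (hS : ∀ t ∈ W, MeasurableSet (S t)) (q : ι → ℝ)
    (q0 : ∀ t ∈ W, 0 < q t) (q1 : ∀ t ∈ W, q t < 1) (ε : ℝ)
    (hε : ∀ t ∈ W, (μ.real (S t) - q t) ^ 2 ≤ ε * (q t * (1 - q t))) (R M : ℝ)
    (hR : 0 < R) (hM : ∑ t ∈ W, (Real.binEntropy (μ.real (S t)) + ε) ≤ M) :
    μ {τ | R ≤ ∑ t ∈ W, -Real.log (if τ ∈ S t then q t else 1 - q t)} ≤
      ENNReal.ofReal (M / R) := by
  obtain ⟨p, hp⟩ : ∃ p : ι → ℝ, ∀ t, p t = μ.real (S t) := ⟨_, fun _ => rfl⟩
  simp only [← hp] at hM hε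
  have p0 : ∀ t, 0 ≤ p t := fun t => by rw [hp]; exact measureReal_nonneg
  have p1 : ∀ t, p t ≤ 1 := fun t => by rw [hp]; exact measureReal_le_one
  have hμ1 : ∀ t, μ (S t) = ENNReal.ofReal (p t) := fun t => by
    rw [hp, Measure.real, ENNReal.ofReal_toReal (measure_ne_top _ _)]
  have hμ2 : ∀ t ∈ W, μ (S t)ᶜ = ENNReal.ofReal (1 - p t) := fun t ht => by
    rw [hp, ← probReal_compl_eq_one_sub (hS t ht), Measure.real,
      ENNReal.ofReal_toReal (measure_ne_top _ _)]
  obtain ⟨f, hf⟩ : ∃ f : ι → Ω → ℝ, ∀ t τ, f t τ = -Real.log (if τ ∈ S t then q t else 1 - q t) :=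
    ⟨_, fun _ _ => rfl⟩
  simp only [← hf]
  have f0 : ∀ t ∈ W, ∀ τ, 0 ≤ f t τ := by
    intro t ht τ
    rw [hf]
    have h1 := q0 t ht
    have h2 := q1 t ht
    split_ifs
    · have := Real.log_nonpos h1.le h2.le
      linarith
    · have := Real.log_nonpos (x := 1 - q t) (by linarith) (by linarith)
      linarith
  have fm : ∀ t ∈ W, Measurable (f t) := by
    intro t ht
    have h1 : f t = fun τ => if τ ∈ S t then -Real.log (q t) else -Real.log (1 - q t) := by
      funext τ
      rw [hf]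
      split_ifs <;> rfl
    rw [h1]
    exact Measurable.ite (hS t ht) measurable_const measurable_const
  have hone : ∀ t ∈ W, ∫⁻ τ, ENNReal.ofReal (f t τ) ∂μ ≤
      ENNReal.ofReal (Real.binEntropy (p t) + ε) := by
    intro t ht
    have h1 : ∀ τ, ENNReal.ofReal (f t τ) = ENNReal.ofReal (-Real.log (q t)) *
        (S t).indicator 1 τ + ENNReal.ofReal (-Real.log (1 - q t)) * (S t)ᶜ.indicator 1 τ := by
      intro τ
      rw [hf]
      by_cases h : τ ∈ S t
      · rw [if_pos h, indicator_of_mem h, indicator_of_notMem (by simpa using h)]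
        simp
      · rw [if_neg h, indicator_of_notMem h, indicator_of_mem (by simpa using h)]
        simp
    simp only [h1]
    rw [lintegral_add_left ((measurable_one.indicator (hS t ht)).const_mul _),
      lintegral_const_mul _ (measurable_one.indicator (hS t ht)),
      lintegral_const_mul _ (measurable_one.indicator (hS t ht).compl),
      lintegral_indicator_one (hS t ht), lintegral_indicator_one (hS t ht).compl, hμ1, hμ2 t ht]
    have l1 : 0 ≤ -Real.log (q t) := by
      have := Real.log_nonpos (q0 t ht).le (q1 t ht).le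
      linarith
    have l2 : 0 ≤ -Real.log (1 - q t) := by
      have := Real.log_nonpos (x := 1 - q t) (by linarith [q1 t ht]) (by linarith [q0 t ht])
      linarith
    rw [← ENNReal.ofReal_mul l1, ← ENNReal.ofReal_mul l2,
      ← ENNReal.ofReal_add (mul_nonneg l1 (p0 t)) (mul_nonneg l2 (by linarith [p1 t]))]
    apply ENNReal.ofReal_le_ofReal
    have := cross_le (p0 t) (p1 t) (q0 t ht) (q1 t ht) (hε t ht)
    linarith
  have h1 : {τ | R ≤ ∑ t ∈ W, f t τ} ⊆
      {τ | ENNReal.ofReal R ≤ ∑ t ∈ W, ENNReal.ofReal (f t τ)} := by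
    intro τ h
    have h2 : R ≤ ∑ t ∈ W, f t τ := h
    rw [Set.mem_ofPred_eq, ← ENNReal.ofReal_sum_of_nonneg fun t ht => f0 t ht τ]
    exact ENNReal.ofReal_le_ofReal h2
  refine (measure_mono h1).trans ?_
  have h2 := mul_meas_ge_le_lintegral (μ := μ) (Finset.measurable_sum W fun t ht =>
    (fm t ht).ennreal_ofReal) (ENNReal.ofReal R)
  have h3 : ∫⁻ τ, ∑ t ∈ W, ENNReal.ofReal (f t τ) ∂μ ≤ ENNReal.ofReal M := by
    rw [lintegral_finsetSum _ fun t ht => (fm t ht).ennreal_ofReal]
    refine (Finset.sum_le_sum hone).trans ?_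
    rw [← ENNReal.ofReal_sum_of_nonneg fun t ht => ?_]
    · exact ENNReal.ofReal_le_ofReal hM
    · have h5 := q0 t ht
      have h6 := q1 t ht
      have h7 := mul_pos h5 (by linarith : 0 < 1 - q t)
      have h8 : 0 ≤ ε := by
        by_contra h9
        have h10 := hε t ht
        have h11 : ε * (q t * (1 - q t)) < 0 := mul_neg_of_neg_of_pos (not_le.1 h9) h7
        nlinarith [sq_nonneg (p t - q t)]
      have := Real.binEntropy_nonneg (p0 t) (p1 t)
      linarith
  rw [ENNReal.ofReal_div_of_pos hR,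
    ENNReal.le_div_iff_mul_le (Or.inl (by simpa using hR)) (Or.inl ENNReal.ofReal_ne_top),
    mul_comm]
  exact h2.trans h3

end Pool.Agent.RelW
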