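import Pool.Agent.RelW.HIT

/-!
# The machines for `E` find no far keys
-/

set_option autoImplicit false

namespace Pool.Agent.RelW

open MeasureTheory Set
open scoped ENNReal
open Pool.Agent.RelM (Lang Instr Cfg step run Halts pair str pre wq sq0 sq1 Asks hq)
open Pool.Agent.RelO (lev levmono)
open Pool.Agent.RelV (Cd cde cde_surj mN mM av nu)
open Pool.Agent.RelS (Z Rl orcV orc Idx Om Dep mixP fd meas_of_dep ovis ocut bern)
open Pool.Agent.RelT (Par Hist md md_pos md_spec ix ix_str qf seto)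

namespace MHIT_

/-- A hidden key is hit with small probability. -/
theorem hit_gen (Φ : Par2) {κ' : ℕ} {x' : List Bool} (y : List Bool) {A : Set Om}
    (hAm : MeasurableSet A)
    (hAd : ∀ ω ω' : Om, (∀ a, a ∉ pc κ' x' → ω a = ω' a) → (ω ∈ A ↔ ω' ∈ A)) {m : ℕ}
    (h0 : nn Φ 0 ≤ m) (hm : m ≤ lev κ' x') :
    coin Φ (A ∩ {ω | zo Φ ω κ' x' y = true}) ≤ (2⁻¹ : ℝ≥0∞) ^ (m / 2) * coin Φ A := by
  obtain ⟨O, hO⟩ : ∃ O : Om → ℕ, ∀ ω, O ω = oc Φ (hf Φ ω).1 κ' (lev κ' x') := ⟨_, fun _ => rfl⟩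
  have hz0 : ∀ ω, zo Φ ω κ' x' y = ω (κ', x', y, O ω) := fun ω => by
    rw [hO]
    rfl
  have hOd : ∀ ω ω' : Om, (∀ a, a ∉ pc κ' x' → ω a = ω' a) → O ω = O ω' := fun ω ω' h => by
    rw [hO, hO]
    exact oc_dep Φ κ' x' ω ω' h
  have hOs : ∀ ω, O ω < KK Φ ∧ it Φ κ' x' (O ω) ≤ Bd Φ := fun ω => by
    rw [hO]
    exact ocspec Φ (hf Φ ω).1 κ' (lev κ' x') x' (gd_hf Φ ω)
  have hOm : ∀ o, MeasurableSet {ω | O ω = o} := by
    intro o
    rcases hJ : jj Φ (lev κ' x') with _ | i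
    · refine fd Set.finite_empty fun ω ω' _ => ?_
      have h1 : ∀ ω, O ω = 0 := fun ω => by
        rw [hO, oc, if_pos hJ]
      show O ω = o ↔ O ω' = o
      rw [h1, h1]
    · refine fd (gsfin Φ i) fun ω ω' h => ?_
      show O ω = o ↔ O ω' = o
      have h1 : O ω = O ω' := by
        rw [hO, hO]
        refine oc_congr ?_
        rw [hJ]
        show (hs Φ ω (i + 1)).1 (i + 1) = (hs Φ ω' (i + 1)).1 (i + 1)
        rw [hsdep Φ i ω ω' h]
      rw [h1]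
  obtain ⟨B, hB0⟩ : ∃ B : ℕ → Set Om, ∀ o, B o = A ∩ {ω | O ω = o} := ⟨_, fun _ => rfl⟩
  have hBi : ∀ o ω, ω ∈ B o ↔ ω ∈ A ∧ O ω = o := fun o ω => by
    rw [hB0]
    exact Iff.rfl
  have hBm : ∀ o, MeasurableSet (B o) := fun o => by
    rw [hB0]
    exact hAm.inter (hOm o)
  have hBd : ∀ o, Dep (pc κ' x')ᶜ ((B o).indicator (1 : Om → ℝ≥0∞)) := by
    intro o ω ω' h
    have h' : ∀ a, a ∉ pc κ' x' → ω a = ω' a := fun a ha => h a ha
    have hB : ω ∈ B o ↔ ω' ∈ B o := by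
      rw [hBi, hBi, hAd ω ω' h', hOd ω ω' h']
    by_cases hω : ω ∈ B o
    · rw [Set.indicator_of_mem hω, Set.indicator_of_mem (hB.1 hω)]
      rfl
    · rw [Set.indicator_of_notMem hω, Set.indicator_of_notMem fun h => hω (hB.2 h)]
  have hCm : ∀ o, MeasurableSet {ω : Om | ω (κ', x', y, o) = true} := fun o =>
    fd (Set.finite_singleton ((κ', x', y, o) : Idx)) fun ω ω' h => by
      show ω (κ', x', y, o) = true ↔ ω' (κ', x', y, o) = true
      rw [h _ rfl]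
  have hCd : ∀ o, Dep (pc κ' x') (({ω : Om | ω (κ', x', y, o) = true}).indicator
      (1 : Om → ℝ≥0∞)) := by
    intro o ω ω' h
    have : ω (κ', x', y, o) = ω' (κ', x', y, o) := h _ ⟨rfl, rfl⟩
    by_cases hω : ω (κ', x', y, o) = true
    · rw [Set.indicator_of_mem (show ω ∈ {ω : Om | ω (κ', x', y, o) = true} from hω),
        Set.indicator_of_mem
          (show ω' ∈ {ω : Om | ω (κ', x', y, o) = true} from this.symm.trans hω)]
      rfl
    · rw [Set.indicator_of_notMem (show ω ∉ {ω : Om | ω (κ', x', y, o) = true} from hω),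
        Set.indicator_of_notMem
          (show ω' ∉ {ω : Om | ω (κ', x', y, o) = true} from fun h' => hω (this.trans h'))]
  have hsub : A ∩ {ω | zo Φ ω κ' x' y = true} ⊆
      ⋃ o ∈ Finset.range (KK Φ), (B o ∩ {ω : Om | ω (κ', x', y, o) = true}) := by
    rintro ω ⟨hA, hz⟩
    simp only [Set.mem_iUnion, Finset.mem_range]
    refine ⟨O ω, (hOs ω).1, (hBi _ _).2 ⟨hA, rfl⟩, ?_⟩
    rw [Set.mem_ofPred_eq, ← hz0 ω]
    exact hz
  calc coin Φ (A ∩ {ω | zo Φ ω κ' x' y = true})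
      ≤ coin Φ (⋃ o ∈ Finset.range (KK Φ), (B o ∩ {ω : Om | ω (κ', x', y, o) = true})) :=
        measure_mono hsub
    _ ≤ ∑ o ∈ Finset.range (KK Φ), coin Φ (B o ∩ {ω : Om | ω (κ', x', y, o) = true}) :=
        measure_biUnion_finset_le _ _
    _ ≤ ∑ o ∈ Finset.range (KK Φ), (2⁻¹ : ℝ≥0∞) ^ (m / 2) * coin Φ (B o) := by
        refine Finset.sum_le_sum fun o _ => ?_
        by_cases hbd : it Φ κ' x' o ≤ Bd Φ
        · have hi := indep Φ (p := pc κ' x')
            (F := ({ω : Om | ω (κ', x', y, o) = true}).indicator 1) (G := (B o).indicator 1)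
            (measurable_one.indicator (hCm o)) (measurable_one.indicator (hBm o)) (hCd o) (hBd o)
          rw [lintegral_indicator_one (hCm o), lintegral_indicator_one (hBm o), coin_true] at hi
          have hmul : ∀ ω : Om, ({ω : Om | ω (κ', x', y, o) = true}).indicator (1 : Om → ℝ≥0∞) ω *
              (B o).indicator 1 ω =
              (B o ∩ {ω : Om | ω (κ', x', y, o) = true}).indicator 1 ω := by
            intro ω
            by_cases ha : ω ∈ B o <;> by_cases hb : ω (κ', x', y, o) = true <;>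
              simp [Set.indicator, ha, hb]
          simp only [hmul] at hi
          rw [lintegral_indicator_one ((hBm o).inter (hCm o))] at hi
          rw [hi]
          gcongr
          exact one_sub_sv_le Φ hbd h0 hm
        · have he : B o = ∅ := by
            refine Set.eq_empty_of_forall_notMem fun ω h1 => ?_
            have h2 := (hOs ω).2
            rw [((hBi o ω).1 h1).2] at h2
            exact hbd h2
          rw [he]
          simp
    _ = (2⁻¹ : ℝ≥0∞) ^ (m / 2) * ∑ o ∈ Finset.range (KK Φ), coin Φ (B o) := by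
        rw [Finset.mul_sum]
    _ ≤ (2⁻¹ : ℝ≥0∞) ^ (m / 2) * coin Φ A := by
        gcongr
        rw [← measure_biUnion_finset]
        · refine measure_mono ?_
          intro ω hω
          simp only [Set.mem_iUnion] at hω
          obtain ⟨o, _, hω⟩ := hω
          exact ((hBi o ω).1 hω).1
        · intro o _ o' _ hne
          rw [Function.onFun, Set.disjoint_left]
          intro ω e1 e2
          exact hne (((hBi o ω).1 e1).2.symm.trans ((hBi o' ω).1 e2).2)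
        · exact fun o _ => hBm o

/-- The hidden oracle of a stage. -/
noncomputable def oM (Φ : Par2) (j : ℕ) (ω : Om) : Lang := ovM Φ j (hs Φ ω (j + 1)) ω

theorem gs_lw {Φ : Par2} {j : ℕ} (hty : ty Φ j = false) : Gs Φ j ⊆ Lw Φ (nu j (nn Φ j)) := by
  rintro a (h | ⟨_, _, h⟩ | ⟨h, _, _⟩)
  · exact lw_mono Φ (by have := nn_lt_nu Φ j; omega) h
  · exact h
  · rw [hty] at h
    exact absurd h (by decide)

/-- The hidden oracle depends only on the near coins. -/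
theorem oM_dep {Φ : Par2} {j : ℕ} (hty : ty Φ j = false) {ω ω' : Om} (h : ∀ a ∈ Lw Φ (nu j (nn Φ j)), ω a = ω' a) :
    oM Φ j ω = oM Φ j ω' := by
  unfold oM ovM
  rw [hsdep Φ j ω ω' fun a ha => h a (gs_lw hty ha)]
  funext q
  refine ovis _ _ _ _ (fun κ x y h1 h2 => ?_) q
  unfold zz
  exact h _ ⟨h1, h2, (ocspec Φ _ κ (lev κ x) x (gd_hs Φ ω' (j + 1))).1⟩

/-- The event that the key `i` is asked at step `s`. -/
def A (Φ : Par2) (j t s : ℕ) (i : ℕ × List Bool × List Bool) : Set Om :=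
  {ω | nu j (nn Φ j) ≤ lev i.1 i.2.1 ∧ Asks (oM Φ j ω) (mM j).1 (str t) s (wq i.1 i.2.1 i.2.2)}

theorem A_iff {Φ : Par2} {j t s : ℕ} (hty : ty Φ j = false) {i : ℕ × List Bool × List Bool}
    {ω ω' : Om}
    (h : ∀ a ∈ Lw Φ (nu j (nn Φ j)), ω a = ω' a) : ω ∈ A Φ j t s i ↔ ω' ∈ A Φ j t s i := by
  show (_ ∧ Asks (oM Φ j ω) _ _ _ _) ↔ (_ ∧ Asks (oM Φ j ω') _ _ _ _)
  rw [oM_dep hty h]

theorem A_meas {Φ : Par2} {j : ℕ} (hty : ty Φ j = false) (t s : ℕ)
    (i : ℕ × List Bool × List Bool) :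
    MeasurableSet (A Φ j t s i) := fd (lwfin Φ _) fun _ _ h => A_iff hty h

theorem hit_A {Φ : Par2} {j : ℕ} (hty : ty Φ j = false) (t s : ℕ)
    (i : ℕ × List Bool × List Bool) :
    coin Φ (A Φ j t s i ∩ {ω | zo Φ ω i.1 i.2.1 i.2.2 = true}) ≤
      (2⁻¹ : ℝ≥0∞) ^ (nu j (nn Φ j) / 2) * coin Φ (A Φ j t s i) := by
  by_cases hi : nu j (nn Φ j) ≤ lev i.1 i.2.1
  · refine hit_gen Φ i.2.2 (A_meas hty t s i) (fun ω ω' h => A_iff hty fun a ha => h a ?_) ?_ hi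
    · rintro ⟨h1, h2⟩
      have h3 : lev a.1 a.2.1 < nu j (nn Φ j) := ha.1
      rw [h1, h2] at h3
      omega
    · have h1 := nn_lt_nu Φ j
      have h2 : nn Φ 0 ≤ nn Φ j := (nnmono Φ).monotone (Nat.zero_le j)
      omega
  · have : A Φ j t s i = ∅ := by
      ext ω
      constructor
      · intro h
        exact (hi h.1).elim
      · intro h
        exact h.elim
    rw [this]
    simp

theorem hdisj (Φ : Par2) (j t s : ℕ) :
    Pairwise (Function.onFun Disjoint (A Φ j t s)) := by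
  intro i i' hij
  rw [Function.onFun, Set.disjoint_left]
  rintro ω ⟨_, h1⟩ ⟨_, h2⟩
  apply hij
  obtain ⟨e1, e2, e3⟩ := Pool.Agent.RelM.HitJob.wq_inj' (Pool.Agent.RelM.one _ _ _ _ _ _ h1 h2)
  exact Prod.ext e1 (Prod.ext e2 e3)

/-- The time of the machine. -/
noncomputable def tm (j t : ℕ) : ℕ := 2 ^ ((mM j).2 * ((str t).length + 1))

/-- A far key is found for the word number `t`. -/
def Bt (Φ : Par2) (j t : ℕ) : Set Om :=
  {ω | run (oo Φ ω) (mM j).1 (str t) (tm j t) ≠ run (oM Φ j ω) (mM j).1 (str t) (tm j t)}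

theorem Bt_sub {Φ : Par2} {j t : ℕ} (ht : t ∈ Wd Φ j) :
    Bt Φ j t ⊆ ⋃ s ∈ Finset.range (tm j t), ⋃ i : ℕ × List Bool × List Bool,
        (A Φ j t s i ∩ {ω | zo Φ ω i.1 i.2.1 i.2.2 = true}) := by
  intro ω hω
  by_contra hcon
  simp only [Set.mem_iUnion, Finset.mem_range, not_exists, exists_prop, not_and] at hcon
  apply hω
  refine Pool.Agent.RelM.loc _ _ (mM j).1 (str t) (tm j t) (fun s' hs' q hq => ?_) _ le_rfl
  by_contra hne'
  have hlen := Pool.Agent.RelM.len _ _ _ _ _ hq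
  have hT := time_M ht
  have hT' : (str t).length + tm j t < 2 ^ nu j (nn Φ j) := hT
  have hz : ∀ κ₁ x₁ y₁, lev κ₁ x₁ < nu j (nn Φ j) → y₁.length = lev κ₁ x₁ →
      zz Φ (hf Φ ω).1 ω κ₁ x₁ y₁ = zz Φ (hs Φ ω (j + 1)).1 ω κ₁ x₁ y₁ := by
    intro κ₁ x₁ y₁ hS _
    unfold zz
    rw [oc_congr ((hsval Φ ω (j + 1)).1 (jj Φ (lev κ₁ x₁)) (jj_lt_le ?_)).symm]
    have := nnnu Φ j
    omega
  rcases ocut (fun κ x => lev κ x < nu j (nn Φ j)) (bitsOf Φ (hf Φ ω).2)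
    (bitsOf Φ (hs Φ ω (j + 1)).2) (zz Φ (hf Φ ω).1 ω) (zz Φ (hs Φ ω (j + 1)).1 ω) hz q
    (fun h => hne' h.symm) with
    ⟨κ', x', y', hS, hy', hq', hz'⟩ | ⟨κ', x', m', hS, hq', hm'⟩ | ⟨u, hq', hu⟩
  · refine hcon s' hs' (κ', x', y') ⟨⟨not_lt.1 hS, ?_⟩, hz'⟩
    rw [← hq']
    exact hq
  · have h2 := Pool.Agent.RelM.HitJob.le_length_sq1 κ' x' m'
    rw [← hq'] at h2
    have h4 : 2 ^ nu j (nn Φ j) ≤ 2 ^ lev κ' x' :=
      Nat.pow_le_pow_right (by norm_num) (not_lt.1 hS)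
    omega
  · apply hu
    refine blocn Φ _ _ u fun i hi => ?_
    have h5 : i < j + 1 := by
      by_contra h6
      have h7 : nn Φ (j + 1) ≤ nn Φ i := (nnmono Φ).monotone (by omega)
      have h10 := nnnu Φ j
      have h8 : 2 ^ nu j (nn Φ j) ≤ 2 ^ nn Φ i := Nat.pow_le_pow_right (by norm_num) (by omega)
      have h9 : q.length = u.length + 2 := by rw [hq']; simp
      omega
    exact ((hsval Φ ω (j + 1)).2 i h5).symm

theorem Bt_le {Φ : Par2} {j t : ℕ} (hty : ty Φ j = false) (ht : t ∈ Wd Φ j) :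
    coin Φ (Bt Φ j t) ≤ tm j t * (2⁻¹ : ℝ≥0∞) ^ (nu j (nn Φ j) / 2) := by
  calc coin Φ (Bt Φ j t) ≤ coin Φ (⋃ s ∈ Finset.range (tm j t),
        ⋃ i : ℕ × List Bool × List Bool,
        (A Φ j t s i ∩ {ω | zo Φ ω i.1 i.2.1 i.2.2 = true})) := measure_mono (Bt_sub ht)
    _ ≤ ∑ s ∈ Finset.range (tm j t), coin Φ (⋃ i : ℕ × List Bool × List Bool,
        (A Φ j t s i ∩ {ω | zo Φ ω i.1 i.2.1 i.2.2 = true})) :=
        measure_biUnion_finset_le _ _
    _ ≤ ∑ _s ∈ Finset.range (tm j t), (2⁻¹ : ℝ≥0∞) ^ (nu j (nn Φ j) / 2) := by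
        refine Finset.sum_le_sum fun s _ => ?_
        calc coin Φ (⋃ i : ℕ × List Bool × List Bool,
              (A Φ j t s i ∩ {ω | zo Φ ω i.1 i.2.1 i.2.2 = true}))
            ≤ ∑' i : ℕ × List Bool × List Bool,
              coin Φ (A Φ j t s i ∩ {ω | zo Φ ω i.1 i.2.1 i.2.2 = true}) :=
              measure_iUnion_le _
          _ ≤ ∑' i, (2⁻¹ : ℝ≥0∞) ^ (nu j (nn Φ j) / 2) * coin Φ (A Φ j t s i) :=
              ENNReal.tsum_le_tsum fun i => hit_A hty t s i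
          _ = (2⁻¹ : ℝ≥0∞) ^ (nu j (nn Φ j) / 2) * coin Φ (⋃ i, A Φ j t s i) := by
              rw [ENNReal.tsum_mul_left, measure_iUnion (hdisj Φ j t s) fun i =>
                A_meas hty t s i]
          _ ≤ (2⁻¹ : ℝ≥0∞) ^ (nu j (nn Φ j) / 2) * 1 := by
              gcongr
              exact prob_le_one
          _ = (2⁻¹ : ℝ≥0∞) ^ (nu j (nn Φ j) / 2) := mul_one _
    _ = _ := by
        rw [Finset.sum_const, Finset.card_range, nsmul_eq_mul]

/-- A far key is found at stage `j`. -/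
def Bj (Φ : Par2) (j : ℕ) : Set Om := ⋃ t ∈ Wd Φ j, Bt Φ j t

theorem Bj_le {Φ : Par2} {j : ℕ} (hty : ty Φ j = false) : coin Φ (Bj Φ j) ≤ (2⁻¹ : ℝ≥0∞) ^ j := by
  obtain ⟨c, hc⟩ : ∃ c, c = (mM j).2 := ⟨_, rfl⟩
  obtain ⟨n, hn⟩ : ∃ n, n = nn Φ j + j + 1 := ⟨_, rfl⟩
  have h2 : nu j (nn Φ j) / 2 = (c + 2) * n := by
    unfold nu
    rw [← hc, ← hn, mul_assoc, Nat.mul_div_cancel_left _ (by norm_num)]
  have hcard : (Wd Φ j).card ≤ 2 ^ n := by
    unfold Wd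
    rw [Nat.card_Ico]
    refine (Nat.sub_le _ _).trans (Nat.pow_le_pow_right (by norm_num) (by omega))
  have htm : ∀ t ∈ Wd Φ j, tm j t ≤ 2 ^ (c * n) := by
    intro t ht
    have h1 := Pool.Agent.RelT.str_len_le (Wd_lt ht)
    unfold tm
    rw [← hc]
    exact Nat.pow_le_pow_right (by norm_num) (Nat.mul_le_mul_left _ (by omega))
  calc coin Φ (Bj Φ j) ≤ ∑ t ∈ Wd Φ j, coin Φ (Bt Φ j t) := measure_biUnion_finset_le _ _
    _ ≤ ∑ _t ∈ Wd Φ j, (2 : ℝ≥0∞) ^ (c * n) * (2⁻¹ : ℝ≥0∞) ^ ((c + 2) * n) := by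
        refine Finset.sum_le_sum fun t ht => (Bt_le hty ht).trans ?_
        rw [h2]
        gcongr
        exact_mod_cast htm t ht
    _ = (Wd Φ j).card * ((2 : ℝ≥0∞) ^ (c * n) * (2⁻¹ : ℝ≥0∞) ^ ((c + 2) * n)) := by
        rw [Finset.sum_const, nsmul_eq_mul]
    _ ≤ (2 : ℝ≥0∞) ^ n * ((2 : ℝ≥0∞) ^ (c * n) * (2⁻¹ : ℝ≥0∞) ^ ((c + 2) * n)) := by
        gcongr
        exact_mod_cast hcard
    _ = (2⁻¹ : ℝ≥0∞) ^ n := by
        have h3 : (2 : ℝ≥0∞) ^ (n + c * n) * (2⁻¹ : ℝ≥0∞) ^ (n + c * n) = 1 := by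
          rw [← mul_pow, ENNReal.mul_inv_cancel (by norm_num) (by norm_num), one_pow]
        rw [← mul_assoc, ← pow_add, show (c + 2) * n = (n + c * n) + n by ring, pow_add 2⁻¹,
          ← mul_assoc, h3, one_mul]
    _ ≤ (2⁻¹ : ℝ≥0∞) ^ j := by
        refine pow_le_pow_of_le_one (by norm_num) ?_ (by omega)
        exact ENNReal.inv_le_one.2 (by norm_num)

end MHIT_

open MHIT_ in
/-- Almost surely the machines for `E` of all late stages find no far key. -/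
theorem mhit : T_MHIT := by
  intro Φ
  classical
  obtain ⟨B, hB⟩ : ∃ B : ℕ → Set Om, ∀ j, B j = if ty Φ j = false then Bj Φ j else ∅ :=
    ⟨_, fun _ => rfl⟩
  have hle : ∀ j, coin Φ (B j) ≤ (2⁻¹ : ℝ≥0∞) ^ j := by
    intro j
    rw [hB]
    split_ifs with h
    · exact Bj_le h
    · simp
  have h1 : ∑' j, coin Φ (B j) ≠ ∞ := by
    refine ne_top_of_le_ne_top ?_ (ENNReal.tsum_le_tsum fun j => hle j)
    rw [ENNReal.tsum_geometric]
    simp
  filter_upwards [ae_eventually_notMem h1] with ω hω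
  obtain ⟨j₀, hj₀⟩ := Filter.eventually_atTop.1 hω
  refine ⟨j₀, fun j hj hty t ht => ?_⟩
  by_contra hne
  refine hj₀ j hj ?_
  rw [hB, if_pos hty]
  unfold Bj
  simp only [Set.mem_iUnion]
  exact ⟨t, ht, hne⟩

end Pool.Agent.RelW
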