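import Pool.Agent.RelW.UPP
import Pool.Agent.RelW.MHIT
import Pool.Agent.RelW.NONNULL
import Pool.Agent.RelW.CNT
import Pool.Agent.RelW.LOW
import Pool.Agent.RelT.PAR

/-!
# The theorem
-/

set_option autoImplicit false

namespace Pool.Agent.RelW

open MeasureTheory Set
open scoped ENNReal
open Pool.Agent.RelM (Lang NP E1 E2 Null1 Null2 pre)
open Pool.Agent.RelO (GaleNull1 GaleNull2)
open Pool.Agent.RelS (Om)
open Pool.Agent.RelT (Par par qf)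

/-- The dimensions of `NP` in `E` and in `E_2`. -/
theorem main_of (hNO : T_NONNULLO) : T_MAIN := by
  intro a b h0 h1 h2 h3
  obtain ⟨ΦA, hA⟩ := par a h0 h1
  obtain ⟨ΦB, hB⟩ := par b h2 h3
  obtain ⟨Φ, hΦA, hΦB⟩ : ∃ Φ : Par2, Φ.A = ΦA ∧ Φ.B = ΦB := ⟨⟨ΦA, ΦB⟩, rfl, rfl⟩
  have hLow : T_LOW := low_of (nonnull cnt) hNO fast1 fast2
  obtain ⟨ω, h4, h5⟩ := ((upp_of mhit Φ).and (hLow Φ)).exists
  rw [hΦA, hA, hΦB, hB] at h4 h5
  exact ⟨oo Φ ω, h4.1, h5.1, h4.2, h5.2⟩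

end Pool.Agent.RelW
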