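import Pool.Agent.RelW.FAIRG

/-!
# Histories with advice
-/

set_option autoImplicit false

namespace Pool.Agent.RelW

open MeasureTheory
open Pool.Agent.RelM (Lang str qb)
open Pool.Agent.RelO (lev st levfin levmono)
open Pool.Agent.RelS (Z Rl orcV orc acc Idx Om Dep mixP)
open Pool.Agent.RelT (Par Hist md md_pos md_spec ix ix_str qf seto)
open Pool.Agent.RelV (Cd cde cde_surj mN mM av nu)

theorem hA_B {Φ : Par2} {j : ℕ} (h : ty Φ j = true) (α : Adv) (ω : Om) :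
    hA Φ α ω (j + 1) = (Function.update (hA Φ α ω j).1 (j + 1) (α.1 j),
      Function.update (hA Φ α ω j).2 j fun t =>
        if t ∈ Wd Φ j then (α.2 t : ℝ) / Mg Φ j else 0) := by
  rw [hA, if_pos h]

theorem hA_A {Φ : Par2} {j : ℕ} (h : ty Φ j = false) (α : Adv) (ω : Om) :
    hA Φ α ω (j + 1) = setf Φ j (hA Φ α ω j) ω (best Φ j (hA Φ α ω j) ω) := by
  rw [hA, if_neg (by rw [h]; decide)]

theorem hA1_succ (Φ : Par2) (α : Adv) (ω : Om) (m j : ℕ) (h : j ≤ m) :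
    (hA Φ α ω (m + 1)).1 j = (hA Φ α ω m).1 j := by
  cases hty : ty Φ m
  · rw [hA_A hty]
    exact Function.update_of_ne (by omega) _ _
  · rw [hA_B hty]
    exact Function.update_of_ne (by omega) _ _

theorem hA2_succ (Φ : Par2) (α : Adv) (ω : Om) (m j : ℕ) (h : j < m) :
    (hA Φ α ω (m + 1)).2 j = (hA Φ α ω m).2 j := by
  cases hty : ty Φ m
  · rw [hA_A hty]
    exact Function.update_of_ne (by omega) _ _
  · rw [hA_B hty]
    exact Function.update_of_ne (by omega) _ _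

theorem hA1_le (Φ : Par2) (α : Adv) (ω : Om) {m m' j : ℕ} (hm : m ≤ m') (h : j ≤ m) :
    (hA Φ α ω m').1 j = (hA Φ α ω m).1 j := by
  induction m', hm using Nat.le_induction with
  | base => rfl
  | succ m' hm ih => rw [hA1_succ Φ α ω m' j (by omega), ih]

theorem hA2_le (Φ : Par2) (α : Adv) (ω : Om) {m m' j : ℕ} (hm : m ≤ m') (h : j < m) :
    (hA Φ α ω m').2 j = (hA Φ α ω m).2 j := by
  induction m', hm using Nat.le_induction with
  | base => rfl
  | succ m' hm ih => rw [hA2_succ Φ α ω m' j (by omega), ih]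

theorem hAval (Φ : Par2) (α : Adv) (ω : Om) (m : ℕ) :
    (∀ j, j ≤ m → (hA Φ α ω m).1 j = (hfA Φ α ω).1 j) ∧
      ∀ j, j < m → (hA Φ α ω m).2 j = (hfA Φ α ω).2 j := by
  constructor
  · intro j hj
    exact hA1_le Φ α ω hj le_rfl
  · intro j hj
    show (hA Φ α ω m).2 j = (hA Φ α ω (j + 1)).2 j
    exact hA2_le Φ α ω (by omega) (by omega)

theorem gd_hA {Φ : Par2} {α : Adv} (hα : GdA Φ α) (ω : Om) (m : ℕ) : Gd Φ (hA Φ α ω m).1 := by
  induction m with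
  | zero => exact fun j => (Pt Φ j).K1
  | succ m ih =>
    cases hty : ty Φ m
    · rw [hA_A hty]
      exact gd_update ih (best_lt _ _ _ _)
    · rw [hA_B hty]
      exact gd_update ih (hα m)

theorem gd_hfA {Φ : Par2} {α : Adv} (hα : GdA Φ α) (ω : Om) : Gd Φ (hfA Φ α ω).1 :=
  fun j => gd_hA hα ω (j + 1) j

/-- The coins on which the history with advice depends. -/
def GA (Φ : Par2) (j : ℕ) : Set Idx :=
  {a | a ∈ Old Φ j ∨ (ty Φ j = false ∧ a.1 % 2 = 0 ∧ a ∈ Lw Φ (nu j (nn Φ j)))}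

theorem gs_GA {Φ : Par2} {j : ℕ} (h : ty Φ j = false) : Gs Φ j ⊆ GA Φ j := by
  rintro a (h1 | h1 | ⟨h1, _⟩)
  · exact Or.inl h1
  · exact Or.inr h1
  · rw [h] at h1
    exact absurd h1 (by decide)

theorem ga_old (Φ : Par2) (j : ℕ) : GA Φ j ⊆ Old Φ (j + 1) := by
  rintro a (h | ⟨_, _, h⟩)
  · exact old_mono Φ (Nat.le_succ j) h
  · exact lw_mono Φ (nnnu Φ j).le h

theorem ga_mono (Φ : Par2) (j : ℕ) : GA Φ j ⊆ GA Φ (j + 1) := fun _ h =>
  Or.inl (ga_old Φ j h)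

theorem hAdep (Φ : Par2) (α : Adv) (j : ℕ) {ω ω' : Om} (h : ∀ a ∈ GA Φ j, ω a = ω' a) :
    hA Φ α ω (j + 1) = hA Φ α ω' (j + 1) := by
  induction j with
  | zero =>
    cases hty : ty Φ 0
    · have h' : ∀ a ∈ Gs Φ 0, ω a = ω' a := fun a ha => h a (gs_GA hty ha)
      rw [hA_A hty, hA_A hty]
      show setf Φ 0 (fun _ => 0, fun _ _ => 1 / 2) ω
          (best Φ 0 (fun _ => 0, fun _ _ => 1 / 2) ω) =
        setf Φ 0 (fun _ => 0, fun _ _ => 1 / 2) ω' (best Φ 0 (fun _ => 0, fun _ _ => 1 / 2) ω')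
      rw [best_congr h', setf_congr h']
    · rw [hA_B hty, hA_B hty]
      rfl
  | succ j ih =>
    have h1 := ih fun a ha => h a (ga_mono Φ j ha)
    cases hty : ty Φ (j + 1)
    · have h' : ∀ a ∈ Gs Φ (j + 1), ω a = ω' a := fun a ha => h a (gs_GA hty ha)
      rw [hA_A hty, hA_A hty, h1, best_congr h', setf_congr h']
    · rw [hA_B hty, hA_B hty, h1]

/-! ## The true advice -/

/-- The stage that bets on the word number `t`. -/
noncomputable def sw (Φ : Par2) (t : ℕ) : ℕ := jj Φ (Nat.log 2 t) - 1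

theorem sw_eq {Φ : Par2} {j t : ℕ} (h : t ∈ Wd Φ j) : sw Φ t = j := by
  unfold Wd at h
  rw [Finset.mem_Ico] at h
  have h1 : nn Φ j ≤ Nat.log 2 t := by
    refine Nat.le_log_of_pow_le (by norm_num) h.1
  have h2 : Nat.log 2 t < nn Φ (j + 1) := by
    have h3 : Nat.log 2 t < nn Φ j + j := Nat.log_lt_of_lt_pow (by
      have := Nat.one_le_two_pow (n := nn Φ j)
      omega) h.2
    have := nnnext' Φ j
    omega
  unfold sw
  rw [jj_eq h1 h2]
  rfl

/-- The true advice. -/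
noncomputable def tadv (Φ : Par2) (ω : Om) : Adv :=
  (fun j => best Φ j (hs Φ ω j) ω,
    fun t => ⌊(Mg Φ (sw Φ t) : ℝ) * pa Φ (sw Φ t) (hs Φ ω (sw Φ t)) ω t
      (best Φ (sw Φ t) (hs Φ ω (sw Φ t)) ω)⌋₊)

/-- The advice is true up to the level `l`. -/
def AG (Φ : Par2) (α : Adv) (ω : Om) (l : ℕ) : Prop :=
  (∀ j, ty Φ j = true → nn Φ j ≤ l → α.1 j = (tadv Φ ω).1 j) ∧
    ∀ j, ty Φ j = true → nn Φ j ^ 2 ≤ l → ∀ t ∈ Wd Φ j, α.2 t = (tadv Φ ω).2 t

theorem AG.mono {Φ : Par2} {α : Adv} {ω : Om} {l l' : ℕ} (h : AG Φ α ω l) (hl : l' ≤ l) :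
    AG Φ α ω l' :=
  ⟨fun j h1 h2 => h.1 j h1 (h2.trans hl), fun j h1 h2 => h.2 j h1 (h2.trans hl)⟩

theorem hs_B {Φ : Par2} {α : Adv} {ω : Om} {j : ℕ} (hty : ty Φ j = true)
    (h0 : hA Φ α ω j = hs Φ ω j) (h1 : α.1 j = (tadv Φ ω).1 j)
    (h2 : ∀ t ∈ Wd Φ j, α.2 t = (tadv Φ ω).2 t) : hA Φ α ω (j + 1) = hs Φ ω (j + 1) := by
  rw [hA_B hty, hs_succ, h0]
  unfold setf
  refine Prod.ext ?_ ?_
  · show Function.update _ _ _ = Function.update _ _ _
    rw [h1]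
    rfl
  · show Function.update _ _ _ = Function.update _ _ _
    congr 1
    funext t
    by_cases ht : t ∈ Wd Φ j
    · rw [if_pos ht, if_pos ht, h2 t ht]
      unfold gr tadv
      simp only
      rw [sw_eq ht]
    · rw [if_neg ht, if_neg ht]

theorem nn_sq (Φ : Par2) {j j' : ℕ} (h : j < j') : nn Φ j ^ 2 ≤ nn Φ j' := by
  have h1 := nngrow Φ j
  have h2 : nn Φ (j + 1) ≤ nn Φ j' := (nnmono Φ).monotone h
  have h3 : 1 * nn Φ j ^ 2 ≤ (j + 2) * nn Φ j ^ 2 := Nat.mul_le_mul_right _ (by omega)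
  omega

/-- With true advice the histories agree. -/
theorem hA_true {Φ : Par2} {α : Adv} {ω : Om} {l j : ℕ} (h : AG Φ α ω l) (hj : nn Φ j ≤ l) :
    hA Φ α ω j = hs Φ ω j := by
  induction j with
  | zero => rfl
  | succ j ih =>
    have h1 : nn Φ j ≤ l := ((nnmono Φ).monotone (Nat.le_succ j)).trans hj
    have h2 := ih h1
    cases hty : ty Φ j
    · rw [hA_A hty, hs_succ, h2]
    · exact hs_B hty h2 (h.1 j hty h1) (h.2 j hty ((nn_sq Φ (Nat.lt_succ_self j)).trans hj))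

/-- With true advice the options of the current stage agree. -/
theorem hA_true1 {Φ : Par2} {α : Adv} {ω : Om} {l j : ℕ} (h : AG Φ α ω l) (hj : nn Φ j ≤ l) :
    (hA Φ α ω (j + 1)).1 = (hs Φ ω (j + 1)).1 := by
  have h2 := hA_true h hj
  cases hty : ty Φ j
  · rw [hA_A hty, hs_succ, h2]
  · rw [hA_B hty, hs_succ, h2]
    unfold setf
    show Function.update _ _ _ = Function.update _ _ _
    rw [h.1 j hty hj]
    rfl

/-- With true advice the probabilities that can be read agree. -/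
theorem hA_true2 {Φ : Par2} {α : Adv} {ω : Om} {l j : ℕ} (h : AG Φ α ω l) (hj : nn Φ j ≤ l)
    {i : ℕ} (hi : i ≤ j) (hr : ty Φ i = true → nn Φ i ^ 2 ≤ l) :
    (hA Φ α ω (j + 1)).2 i = (hs Φ ω (j + 1)).2 i := by
  have h2 := hA_true h hj
  rcases Nat.lt_or_ge i j with h3 | h3
  · rw [hA2_succ Φ α ω j i h3, hs2_succ Φ ω j i h3, h2]
  · have h4 : i = j := by omega
    subst h4
    cases hty : ty Φ i
    · rw [hA_A hty, hs_succ, h2]
    · rw [hs_B hty h2 (h.1 i hty hj) (h.2 i hty (hr hty))]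

end Pool.Agent.RelW
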