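import Mathlib

/-!
# Numbers
-/

set_option autoImplicit false

namespace Pool.Agent.RelW

/-- The number of descriptions is subexponential. -/
theorem num1 (m : ℕ) {ε : ℝ} (hε : 0 < ε) : ∃ C : ℝ, 0 ≤ C ∧ ∀ t : ℕ,
    ((t : ℝ) + 2) ^ (m * (Nat.sqrt t + 2)) ≤ C * Real.exp (ε * t) := by
  obtain ⟨A, hA⟩ : ∃ A : ℝ, A = 12 * m := ⟨_, rfl⟩
  have hA0 : 0 ≤ A := by rw [hA]; positivity
  refine ⟨Real.exp (A * (A / ε) ^ 3 + 2 * ε), (Real.exp_pos _).le, fun t => ?_⟩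
  obtain ⟨y, hy⟩ : ∃ y : ℝ, y = (t : ℝ) + 2 := ⟨_, rfl⟩
  have hy1 : 1 ≤ y := by
    rw [hy]
    have : (0 : ℝ) ≤ t := Nat.cast_nonneg t
    linarith
  obtain ⟨u, hu⟩ : ∃ u : ℝ, u = y ^ (1 / 4 : ℝ) := ⟨_, rfl⟩
  have hu1 : 1 ≤ u := by
    rw [hu]
    exact Real.one_le_rpow hy1 (by norm_num)
  have hu4 : u ^ 4 = y := by
    rw [hu, ← Real.rpow_natCast, ← Real.rpow_mul (by linarith)]
    norm_num
  have hlog : Real.log y ≤ 4 * u := by
    have := Real.log_le_rpow_div (show (0 : ℝ) ≤ y by linarith) (show (0 : ℝ) < 1 / 4 by norm_num)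
    rw [← hu] at this
    linarith
  have hlog0 : 0 ≤ Real.log y := Real.log_nonneg hy1
  have hsq : ((Nat.sqrt t : ℕ) : ℝ) ≤ u ^ 2 := by
    have h1 : ((Nat.sqrt t : ℕ) : ℝ) ^ 2 ≤ t := by exact_mod_cast Nat.sqrt_le' t
    have h2 : ((Nat.sqrt t : ℕ) : ℝ) ^ 2 ≤ (u ^ 2) ^ 2 := by
      calc ((Nat.sqrt t : ℕ) : ℝ) ^ 2 ≤ t := h1
        _ ≤ y := by rw [hy]; linarith
        _ = (u ^ 2) ^ 2 := by rw [← hu4]; ring
    exact le_of_sq_le_sq h2 (by positivity)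
  have hsq2 : ((Nat.sqrt t : ℕ) : ℝ) + 2 ≤ 3 * u ^ 2 := by
    have : 1 ≤ u ^ 2 := one_le_pow₀ hu1
    linarith
  have key : ((m * (Nat.sqrt t + 2) : ℕ) : ℝ) * Real.log y ≤ A * u ^ 3 := by
    push_cast
    calc (m : ℝ) * (((Nat.sqrt t : ℕ) : ℝ) + 2) * Real.log y
        ≤ (m : ℝ) * (3 * u ^ 2) * (4 * u) := by gcongr
      _ = A * u ^ 3 := by rw [hA]; ring
  have key2 : A * u ^ 3 ≤ A * (A / ε) ^ 3 + ε * u ^ 4 := by
    rcases le_total u (A / ε) with h | h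
    · have h1 : A * u ^ 3 ≤ A * (A / ε) ^ 3 := by gcongr
      have h2 : 0 ≤ ε * u ^ 4 := by positivity
      linarith
    · have h1 : A ≤ ε * u := by
        rw [div_le_iff₀ hε] at h
        linarith
      have h2 : A * u ^ 3 ≤ ε * u * u ^ 3 := by gcongr
      have h3 : 0 ≤ A * (A / ε) ^ 3 := by positivity
      have h4 : ε * u * u ^ 3 = ε * u ^ 4 := by ring
      linarith
  rw [← hy, ← Real.exp_add]
  calc y ^ (m * (Nat.sqrt t + 2)) = Real.exp (((m * (Nat.sqrt t + 2) : ℕ) : ℝ) * Real.log y) := by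
        rw [Real.exp_nat_mul, Real.exp_log (by linarith)]
    _ ≤ Real.exp (A * (A / ε) ^ 3 + 2 * ε + ε * t) := by
        apply Real.exp_le_exp.2
        rw [hu4, hy] at key2
        linarith

theorem num2 : Summable fun t : ℕ => (1 / 4 : ℝ) ^ Nat.sqrt t := by
  have h0 : ∀ s : ℕ, (s + 1) ^ 4 ≤ 6 * 4 ^ s := by
    intro s
    rcases Nat.lt_or_ge s 3 with h | h
    · interval_cases s <;> norm_num
    · induction s, h using Nat.le_induction with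
      | base => norm_num
      | succ s hs ih =>
        have h1 : (s + 1 + 1) ^ 4 ≤ 4 * (s + 1) ^ 4 := by
          have h2 : 4 * (s + 1 + 1) ≤ 5 * (s + 1) := by omega
          have h3 : (4 * (s + 1 + 1)) ^ 4 ≤ (5 * (s + 1)) ^ 4 := Nat.pow_le_pow_left h2 4
          rw [Nat.mul_pow, Nat.mul_pow] at h3
          omega
        calc (s + 1 + 1) ^ 4 ≤ 4 * (s + 1) ^ 4 := h1
          _ ≤ 4 * (6 * 4 ^ s) := Nat.mul_le_mul_left _ ih
          _ = 6 * 4 ^ (s + 1) := by ring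
  have h1 : Summable (fun t : ℕ => 6 * (1 / ((t : ℝ) + 1) ^ 2)) := by
    have := (summable_nat_add_iff 1).mpr (Real.summable_one_div_nat_pow.mpr (by norm_num : 1 < 2))
    refine Summable.mul_left 6 ?_
    simpa using this
  refine Summable.of_nonneg_of_le (fun t => by positivity) (fun t => ?_) h1
  have h2 : t + 1 ≤ (Nat.sqrt t + 1) ^ 2 := Nat.succ_le_of_lt (Nat.lt_succ_sqrt' t)
  have h3 : (t + 1) ^ 2 ≤ 6 * 4 ^ Nat.sqrt t := by
    calc (t + 1) ^ 2 ≤ ((Nat.sqrt t + 1) ^ 2) ^ 2 := Nat.pow_le_pow_left h2 2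
      _ = (Nat.sqrt t + 1) ^ 4 := by ring
      _ ≤ _ := h0 _
  have h4 : ((t : ℝ) + 1) ^ 2 ≤ 6 * 4 ^ Nat.sqrt t := by exact_mod_cast h3
  rw [one_div_pow, mul_one_div, div_le_div_iff₀ (by positivity) (by positivity)]
  linarith

end Pool.Agent.RelW
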