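import Pool.Agent.RelW.UNION
import Pool.Agent.RelW.ADVN
import Pool.Agent.RelW.NUMS

/-!
# The hidden languages of the odd families are not covered
-/

set_option autoImplicit false

namespace Pool.Agent.RelW

open MeasureTheory Set
open scoped ENNReal
open Pool.Agent.RelM (Lang Instr Cfg step run Halts triple outVal Approx str pre)
open Pool.Agent.RelO (lev IsGale IsGaleCover levmono levfin)
open Pool.Agent.RelS (Z Rl Idx Om Dep meas_of_dep orcV)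
open Pool.Agent.RelT (Cond prc wgt GG)
open WINA_ UNION_

namespace ODD_

/-- The late words have late keys. -/
theorem start (Φ : Par2) (κ : ℕ) : ∀ t, 2 ^ nn Φ 0 ≤ t → nn Φ 0 ≤ lev κ (str t) := by
  intro t ht
  have h2 := (levfin κ (str t) _ le_rfl).2
  rw [Pool.Agent.RelM.strlen] at h2
  refine le_trans ?_ h2
  rw [Nat.le_log_iff_pow_le (by norm_num) (by omega)]
  omega

/-- The numbers. -/
theorem numbers {M C₁ ε a b : ℝ} {m : ℕ} (hM : 0 ≤ M) (ha0 : 0 ≤ a) (hb0 : 0 ≤ b)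
    (ha : a ≤ Real.exp (-(2 * ε))) (hb : b ≤ Real.exp (-(2 * ε)))
    (hC : ∀ t : ℕ, ((t : ℝ) + 2) ^ ((m + 1) * (Nat.sqrt t + 2)) ≤ C₁ * Real.exp (ε * t))
    {j T t Ec Ac : ℕ} (ht : t = j + T) (hE : Ec + 1 ≤ (t + 2) ^ m) (hA : Ac ≤ 2 ^ Nat.sqrt t)
    {δ : ℝ≥0∞} (hδ : δ ≤ ENNReal.ofReal (1 / 8)) :
    (Ac : ℝ≥0∞) * ((((Nat.sqrt t + 1) * (Ec + 1) ^ Nat.sqrt t : ℕ) : ℝ≥0∞) *
      ENNReal.ofReal (M * a ^ j * b ^ T) + δ ^ (Nat.sqrt t + 1)) ≤
    ENNReal.ofReal (C₁ * M * Real.exp (-ε) ^ t + (1 / 4 : ℝ) ^ Nat.sqrt t) := by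
  obtain ⟨h, hh⟩ : ∃ h, h = Nat.sqrt t := ⟨_, rfl⟩
  rw [← hh] at hA ⊢
  have hht : h ≤ t := by
    rw [hh]
    exact Nat.sqrt_le_self t
  have h1 : (δ : ℝ≥0∞) ^ (h + 1) ≤ ENNReal.ofReal ((1 / 8 : ℝ) ^ (h + 1)) := by
    rw [ENNReal.ofReal_pow (by norm_num)]
    exact pow_le_pow_left' hδ _
  have h2 : a ^ j * b ^ T ≤ Real.exp (-(2 * ε)) ^ t := by
    rw [ht, pow_add]
    exact mul_le_mul (pow_le_pow_left₀ ha0 ha _) (pow_le_pow_left₀ hb0 hb _) (by positivity)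
      (by positivity)
  have h3 : M * a ^ j * b ^ T ≤ M * Real.exp (-(2 * ε)) ^ t := by
    rw [mul_assoc]
    exact mul_le_mul_of_nonneg_left h2 hM
  have h4 : (Ac : ℝ) ≤ 2 ^ h := by exact_mod_cast hA
  have h5 : (((h + 1) * (Ec + 1) ^ h : ℕ) : ℝ) ≤ ((t : ℝ) + 2) * ((t : ℝ) + 2) ^ (m * h) := by
    have e1 : (h + 1) * (Ec + 1) ^ h ≤ (t + 2) * (t + 2) ^ (m * h) := by
      refine Nat.mul_le_mul (by omega) ?_
      rw [pow_mul]
      exact Nat.pow_le_pow_left hE h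
    exact_mod_cast e1
  have hE0 : 0 ≤ Real.exp (-(2 * ε)) ^ t := by positivity
  have h6 : (Ac : ℝ) * ((((h + 1) * (Ec + 1) ^ h : ℕ) : ℝ) * (M * Real.exp (-(2 * ε)) ^ t)) ≤
      C₁ * M * Real.exp (-ε) ^ t := by
    have e1 : (2 : ℝ) ^ h * (((t : ℝ) + 2) * ((t : ℝ) + 2) ^ (m * h)) ≤
        ((t : ℝ) + 2) ^ ((m + 1) * (h + 2)) := by
      have f1 : (2 : ℝ) ^ h ≤ ((t : ℝ) + 2) ^ h :=
        pow_le_pow_left₀ (by norm_num) (by linarith [Nat.cast_nonneg (α := ℝ) t]) h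
      calc (2 : ℝ) ^ h * (((t : ℝ) + 2) * ((t : ℝ) + 2) ^ (m * h))
          ≤ ((t : ℝ) + 2) ^ h * (((t : ℝ) + 2) * ((t : ℝ) + 2) ^ (m * h)) :=
            mul_le_mul_of_nonneg_right f1 (by positivity)
        _ = ((t : ℝ) + 2) ^ (h + (1 + m * h)) := by
            rw [pow_add, pow_add, pow_one]
        _ ≤ ((t : ℝ) + 2) ^ ((m + 1) * (h + 2)) := by
            refine pow_le_pow_right₀ (by linarith [Nat.cast_nonneg (α := ℝ) t]) ?_
            nlinarith [Nat.zero_le m, Nat.zero_le h]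
    have e2 : (Ac : ℝ) * (((h + 1) * (Ec + 1) ^ h : ℕ) : ℝ) ≤ C₁ * Real.exp (ε * t) := by
      calc (Ac : ℝ) * (((h + 1) * (Ec + 1) ^ h : ℕ) : ℝ)
          ≤ 2 ^ h * (((t : ℝ) + 2) * ((t : ℝ) + 2) ^ (m * h)) :=
            mul_le_mul h4 h5 (by positivity) (by positivity)
        _ ≤ ((t : ℝ) + 2) ^ ((m + 1) * (h + 2)) := e1
        _ ≤ C₁ * Real.exp (ε * t) := by
            rw [hh]
            exact hC t
    have e3 : Real.exp (ε * t) * Real.exp (-(2 * ε)) ^ t = Real.exp (-ε) ^ t := by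
      rw [← Real.exp_nat_mul, ← Real.exp_nat_mul, ← Real.exp_add]
      congr 1
      ring
    calc (Ac : ℝ) * ((((h + 1) * (Ec + 1) ^ h : ℕ) : ℝ) * (M * Real.exp (-(2 * ε)) ^ t))
        = (Ac : ℝ) * (((h + 1) * (Ec + 1) ^ h : ℕ) : ℝ) * (M * Real.exp (-(2 * ε)) ^ t) := by
          ring
      _ ≤ C₁ * Real.exp (ε * t) * (M * Real.exp (-(2 * ε)) ^ t) :=
          mul_le_mul_of_nonneg_right e2 (mul_nonneg hM hE0)
      _ = C₁ * M * (Real.exp (ε * t) * Real.exp (-(2 * ε)) ^ t) := by ring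
      _ = _ := by rw [e3]
  have h7 : (Ac : ℝ) * (1 / 8 : ℝ) ^ (h + 1) ≤ (1 / 4 : ℝ) ^ h := by
    calc (Ac : ℝ) * (1 / 8 : ℝ) ^ (h + 1) ≤ 2 ^ h * (1 / 8 : ℝ) ^ (h + 1) :=
          mul_le_mul_of_nonneg_right h4 (by positivity)
      _ = (2 * (1 / 8) : ℝ) ^ h * (1 / 8) := by rw [pow_succ, mul_pow]; ring
      _ ≤ (1 / 4 : ℝ) ^ h * 1 := by
          refine mul_le_mul (le_of_eq (by norm_num)) (by norm_num) (by norm_num) (by positivity)
      _ = _ := mul_one _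
  calc (Ac : ℝ≥0∞) * ((((h + 1) * (Ec + 1) ^ h : ℕ) : ℝ≥0∞) *
      ENNReal.ofReal (M * a ^ j * b ^ T) + δ ^ (h + 1))
      ≤ (Ac : ℝ≥0∞) * ((((h + 1) * (Ec + 1) ^ h : ℕ) : ℝ≥0∞) *
        ENNReal.ofReal (M * Real.exp (-(2 * ε)) ^ t) + ENNReal.ofReal ((1 / 8 : ℝ) ^ (h + 1))) := by
        gcongr
    _ = ENNReal.ofReal ((Ac : ℝ) * ((((h + 1) * (Ec + 1) ^ h : ℕ) : ℝ) *
        (M * Real.exp (-(2 * ε)) ^ t)) + (Ac : ℝ) * (1 / 8 : ℝ) ^ (h + 1)) := by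
        have e : ∀ (n : ℕ) (x : ℝ), (n : ℝ≥0∞) * ENNReal.ofReal x =
            ENNReal.ofReal ((n : ℝ) * x) := fun n x => by
          rw [ENNReal.ofReal_mul (Nat.cast_nonneg n), ENNReal.ofReal_natCast]
        rw [mul_add, e, e, e, ← ENNReal.ofReal_add (by positivity) (by positivity)]
    _ ≤ _ := ENNReal.ofReal_le_ofReal (add_le_add h6 h7)

end ODD_

open ODD_ in
/-- Almost surely, no polynomial time machine that is fast compared with the keys of the odd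
family `κ` covers the hidden language. -/
theorem nonnullo (bloc : T_BLOC) : T_NONNULLO := by
  intro Φ κ Pr c s hκ hs hfast
  rw [ae_iff]
  simp only [not_not]
  have hlog : 0 < Real.log 2 := Real.log_pos (by norm_num)
  obtain ⟨η, hη⟩ : ∃ η : ℝ, η = (hd Φ κ - s * Real.log 2) / 3 := ⟨_, rfl⟩
  have hη0 : 0 < η := by rw [hη]; linarith
  obtain ⟨θ, hθ⟩ : ∃ θ : ℝ, θ = η / (2 + η) := ⟨_, rfl⟩
  have hθ0 : 0 < θ := by rw [hθ]; positivity
  have hθ1 : θ < 1 := by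
    rw [hθ, div_lt_one (by linarith)]
    linarith
  have hθη : 2 * θ ≤ η * (1 - θ) := by
    apply le_of_eq
    rw [hθ]
    field_simp
    ring
  obtain ⟨C, hC⟩ := cntA Φ κ η hκ hη0
  have hC' : ∀ (α : Adv) (t : ℕ) (ω : Om), GdA Φ α → (s * Real.log 2 + 2 * η) * t - C ≤
      ∑ t' ∈ Finset.range t, Real.binEntropy (rA Φ α κ t' ω) := by
    intro α t ω hα
    have h1 := hC α t ω hα
    have h2 : hd Φ κ - η = s * Real.log 2 + 2 * η := by
      rw [hη]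
      ring
    rw [h2] at h1
    exact h1
  obtain ⟨q, hq⟩ : ∃ q : ℕ, |s| + 2 ≤ q := exists_nat_ge _
  have hqpos : (0 : ℝ) < q := by linarith [abs_nonneg s]
  obtain ⟨M, hM0, hM⟩ := win_bound Φ hκ hq hη0 hθ0 hθ1 hθη hC'
  obtain ⟨t₀, ht₀⟩ := hfast (5 * q + 4)
  obtain ⟨t₁, ht₁⟩ := adv_fin Φ hκ
  obtain ⟨ε, hε⟩ : ∃ ε : ℝ, ε = min (θ * η) (θ * q * Real.log 2) / 2 := ⟨_, rfl⟩
  have hε0 : 0 < ε := by
    rw [hε]
    have : 0 < min (θ * η) (θ * q * Real.log 2) := lt_min (by positivity) (by positivity)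
    linarith
  have hεa : (2 : ℝ) ^ (-(θ * q)) ≤ Real.exp (-(2 * ε)) := by
    rw [Real.rpow_def_of_pos (by norm_num)]
    apply Real.exp_le_exp.2
    have : min (θ * η) (θ * q * Real.log 2) ≤ θ * q * Real.log 2 := min_le_right _ _
    rw [hε]
    linarith
  have hεb : Real.exp (-(θ * η)) ≤ Real.exp (-(2 * ε)) := by
    apply Real.exp_le_exp.2
    have : min (θ * η) (θ * q * Real.log 2) ≤ θ * η := min_le_left _ _
    rw [hε]
    linarith
  obtain ⟨m, hm⟩ : ∃ m, m = (5 * q + 7) * c + 3 := ⟨_, rfl⟩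
  obtain ⟨C₁, hC₁, hnum⟩ := num1 (m + 1) hε0
  obtain ⟨f, hf⟩ : ∃ f : ℕ → ℝ, f = fun t => C₁ * M * Real.exp (-ε) ^ t +
    (1 / 4 : ℝ) ^ Nat.sqrt t := ⟨_, rfl⟩
  have hf0 : ∀ t, 0 ≤ f t := fun t => by
    rw [hf]
    positivity
  have hfs : Summable f := by
    rw [hf]
    refine ((summable_geometric_of_lt_one (Real.exp_pos _).le ?_).mul_left _).add num2
    rw [← Real.exp_zero]
    exact Real.exp_lt_exp.2 (by linarith)
  have hfs' : ∑' t, ENNReal.ofReal (f t) ≠ ∞ := by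
    rw [← ENNReal.ofReal_tsum_of_nonneg hf0 hfs]
    exact ENNReal.ofReal_ne_top
  obtain ⟨j₀, hj₀⟩ : ∃ j₀, j₀ = max (max 1 (8 * KK Φ)) (max (2 ^ nn Φ 0) (max t₀ t₁)) :=
    ⟨_, rfl⟩
  have hbound : ∀ j, j₀ ≤ j →
      coin Φ {ω | ∃ d : ℕ → List Bool → ℝ, IsGaleCover s d {Rl (zo Φ ω) κ} ∧
        Approx (oo Φ ω) Pr (fun l => (l + 2) ^ c) d} ≤ ∑' T, ENNReal.ofReal (f (T + j)) := by
    intro j hj
    rw [hj₀] at hj
    simp only [max_le_iff] at hj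
    obtain ⟨⟨hj1, hj2⟩, hj3, hj4, hj5⟩ := hj
    have h0 : ∀ t, j ≤ t → nn Φ 0 ≤ lev κ (str t) := fun t ht => start Φ κ t (by omega)
    have hfl : ∀ n, Ln q j n + TT c q j n < 2 ^ lev κ (str (tt j n)) ∧
        4 * (tt j n + 1) ^ 2 * TT c q j n ≤ 2 ^ (lev κ (str (tt j n)) / 2) := by
      intro n
      have h1 := ht₀ (tt j n) (hj4.trans (tt_ge j n)) (Ln q j n) (Ln_le q j n)
      unfold me at h1
      rw [if_pos hκ] at h1
      exact h1
    have hj0 : (0 : ℝ) < j := by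
      have : 0 < j := by omega
      exact_mod_cast this
    refine (measure_mono (cov_sub Φ κ Pr c (by linarith : |s| + 1 ≤ (q : ℝ)) j hj1)).trans ?_
    refine (measure_iUnion_le _).trans (ENNReal.tsum_le_tsum fun T => ?_)
    obtain ⟨A, hA1, hA2, hA3⟩ := ht₁ (j + T) (by omega)
    have h1 := tr_bound bloc hκ (Pr := Pr) h0 (fun n => (hfl n).1) (s := s) (T := T)
      (fun α S hα => hM α Pr c j S T hα h0) hA1 hA3 (Nat.sqrt (j + T))
    refine h1.trans ?_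
    rw [hf, add_comm T j]
    refine numbers (m := m) hM0 (by positivity) (Real.exp_pos _).le hεa hεb hnum rfl ?_ hA2 ?_
    · rw [hm]
      exact card_le c q j T
    · refine (sum_eps hj1 (fun n => (hfl n).2) T).trans (ENNReal.ofReal_le_ofReal ?_)
      rw [div_le_div_iff₀ hj0 (by norm_num)]
      have : ((8 * KK Φ : ℕ) : ℝ) ≤ j := by exact_mod_cast hj2
      push_cast at this
      linarith
  have hlim : Filter.Tendsto (fun j : ℕ => ∑' T, ENNReal.ofReal (f (T + j)))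
      Filter.atTop (nhds 0) := ENNReal.tendsto_sum_nat_add (fun t => ENNReal.ofReal (f t)) hfs'
  refine le_antisymm (ge_of_tendsto hlim ?_) zero_le
  filter_upwards [Filter.eventually_ge_atTop j₀] with j hj
  exact hbound j hj

end Pool.Agent.RelW
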