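import Pool.Agent.RelW.IO
import Pool.Agent.RelW.RD
import Pool.Agent.RelV.MAIN
import Pool.Agent.RelT.UPP

/-!
# The dimension in `E` is at most `a`, the dimension in `E_2` is at most `b`
-/

set_option autoImplicit false

namespace Pool.Agent.RelW

open MeasureTheory Set
open scoped ENNReal
open Pool.Agent.RelM (Lang Instr Cfg run Halts Decides NP E1 E2 outVal Approx IsDensity IsNullCover Null1
  Null2 pair triple str pre hq wq sq0 sq1 Asks qb)
open Pool.Agent.RelO (lev st IsGale IsGaleCover GaleNull1 GaleNull2)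
open Pool.Agent.RelV (Cd cde cde_surj mN mM av nu)
open Pool.Agent.RelM.READ_ (prg)
open Pool.Agent.RelS (Z Rl orcV orc acc Idx Om Dep mixP gf PF Low)
open Pool.Agent.RelT (Par Hist md md_pos md_spec ix ix_str qf seto mg mg_pos)

theorem oo_tt (Φ : Par2) (ω : Om) (u : List Bool) :
    oo Φ ω (true :: true :: u) = bitsOf Φ (hf Φ ω).2 u := Pool.Agent.RelS.ott _ _ _ _

/-- Reading a supergale. -/
theorem appr (Φ : Par2) (ω : Om) (k r : ℕ) (w : List Bool) :
    ∃ n ≤ 40 * (2 * (triple k r w).length + 4 + pad k w) + 15,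
      Halts (oo Φ ω) prg (triple k r w) n ∧
      |outVal (run (oo Φ ω) prg (triple k r w) n) - dd Φ (hf Φ ω).2 k w| ≤ (1 / 2 : ℝ) ^ r := by
  obtain ⟨h1, h2⟩ := numok Φ (hf Φ ω).2 k r w
  obtain ⟨h3, h4⟩ := readp (O := oo Φ ω) (I := triple k r w) (n := num Φ (hf Φ ω).2 k r w)
    (R := r + 1 + pad k w) (by omega)
    (fun j => by
      have e := (bits Φ (hf Φ ω).2 j k r w).1
      rw [← oo_tt Φ ω] at e
      exact e)
    (fun j => by
      have e := (bits Φ (hf Φ ω).2 j k r w).2.1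
      rw [← oo_tt Φ ω] at e
      exact e)
    (fun j => by
      have e := (bits Φ (hf Φ ω).2 j k r w).2.2
      rw [← oo_tt Φ ω] at e
      exact e)
    (T := 40 * (2 * (triple k r w).length + 4 + pad k w) + 15) (by
      refine Nat.add_le_add_right (Nat.mul_le_mul_left _ (max_le h1 ?_)) _
      rw [triple_length]
      omega)
  refine ⟨_, le_rfl, h3, ?_⟩
  rw [h4]
  exact h2

/-- The dimension of the family `b` of supergales. -/
noncomputable def al (Φ : Par2) (b : Bool) : ℝ := if b = true then Φ.B.a else Φ.A.a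

theorem sK_eq (Φ : Par2) (b : Bool) (k : ℕ) :
    sK Φ (2 * k + b.toNat) = al Φ b + 1 / ((k : ℝ) + 1) := by
  unfold sK al
  cases b
  · have h1 : (2 * k + false.toNat) % 2 = 0 := by simp
    have h2 : (2 * k + false.toNat) / 2 = k := by simp
    rw [if_pos h1, h2]
    simp
  · have h1 : ¬ (2 * k + true.toNat) % 2 = 0 := by simp
    have h2 : (2 * k + true.toNat) / 2 = k := by
      simp only [Bool.toNat_true]
      omega
    rw [if_neg h1, h2]
    simp

/-- The supergale number `k` of the family `b` is large on a language. -/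
theorem covk {Φ : Par2} {η : ℕ → ℕ → ℝ} {b : Bool} {k : ℕ} {A : Lang}
    (hA : ∀ m : ℕ, ∃ j, m ≤ j ∧
      Real.exp (-((al Φ b * Real.log 2 + mg k) * 2 ^ (nn Φ j + j) + 2 ^ nn Φ j)) ≤
        Pw Φ η b j (pre A (2 ^ (nn Φ j + j)))) :
    ∃ N, 1 ≤ dd Φ η (2 * k + b.toNat) (pre A N) := by
  obtain ⟨n, hn⟩ := Pool.Agent.RelS.NN_.exp_bound 1 (8 * (k + 1) * (k + 1)) 0
  obtain ⟨j, hjn, hlow⟩ := hA n
  have hj2 : 4 * (k + 1) * (2 * k + j + 3) ≤ 2 ^ j := by
    have h1 := hn j hjn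
    rw [pow_one] at h1
    have h2 : 2 * k + j + 3 ≤ 2 * (k + 1) * (j + 2) := by nlinarith
    calc 4 * (k + 1) * (2 * k + j + 3) ≤ 4 * (k + 1) * (2 * (k + 1) * (j + 2)) := by gcongr
      _ = 8 * (k + 1) * (k + 1) * (j + 0 + 2) := by ring
      _ ≤ 2 ^ j := by omega
  refine ⟨2 ^ (nn Φ j + j), ?_⟩
  have hjN : j < (pre A (2 ^ (nn Φ j + j))).length := by
    rw [pre_length]
    have h1 : nn Φ j + j < 2 ^ (nn Φ j + j) := Nat.lt_two_pow_self
    omega
  refine le_trans ?_ (dlow Φ η (2 * k + b.toNat) j _ hjN)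
  have hb : decide ((2 * k + b.toNat) % 2 = 1) = b := by
    cases b
    · simp
    · simp
  rw [pre_length, hb]
  obtain ⟨K, hK⟩ : ∃ K, K = 2 * k + b.toNat := ⟨_, rfl⟩
  have hKle : (K : ℝ) ≤ 2 * k + 1 := by
    have h1 : K ≤ 2 * k + 1 := by
      rw [hK]
      cases b <;> simp
    exact_mod_cast h1
  have hsK : sK Φ K = al Φ b + 1 / ((k : ℝ) + 1) := by rw [hK, sK_eq]
  rw [← hK]
  obtain ⟨a, ha⟩ : ∃ a, a = al Φ b := ⟨_, rfl⟩
  rw [← ha] at hsK hlow
  obtain ⟨L, hL⟩ : ∃ L, L = Real.log 2 := ⟨_, rfl⟩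
  have hL1 : 1 / 2 ≤ L := by rw [hL]; linarith [Real.log_two_gt_d9]
  have hL2 : L ≤ 1 := by rw [hL]; linarith [Real.log_two_lt_d9]
  obtain ⟨M, hM⟩ : ∃ M : ℝ, M = 2 ^ nn Φ j := ⟨_, rfl⟩
  have hM1 : 1 ≤ M := by rw [hM]; exact one_le_pow₀ (by norm_num)
  have hN : (2 : ℝ) ^ (nn Φ j + j) = M * 2 ^ j := by rw [hM, pow_add]
  have hhalf : ∀ m : ℕ, (1 / 2 : ℝ) ^ m = Real.exp (-(m * L)) := by
    intro m
    rw [hL, ← mul_neg, Real.exp_nat_mul, Real.exp_neg, Real.exp_log (by norm_num), one_div]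
  have hpow : (2 : ℝ) ^ (sK Φ K * ((2 ^ (nn Φ j + j) : ℕ) : ℝ)) =
      Real.exp (L * (sK Φ K * (M * 2 ^ j))) := by
    rw [Real.rpow_def_of_pos (by norm_num), ← hL]
    push_cast
    rw [hN]
  rw [hN, ← hM, ← hL] at hlow
  have hkey : 0 ≤ -(K * L) + L * (sK Φ K * (M * 2 ^ j)) +
      (-(((j + 1 : ℕ) : ℝ) * L) + -((a * L + mg k) * (M * 2 ^ j) + M)) := by
    have h2 : mg k = L / (2 * ((k : ℝ) + 1)) := by unfold mg; rw [hL]
    have hj3 : 4 * ((k : ℝ) + 1) * (2 * k + j + 3) ≤ 2 ^ j := by exact_mod_cast hj2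
    rw [hsK, h2]
    have hk : (0 : ℝ) < (k : ℝ) + 1 := by positivity
    have h3 : L * ((a + 1 / (k + 1)) * (M * 2 ^ j)) -
        (a * L + L / (2 * ((k : ℝ) + 1))) * (M * 2 ^ j) =
        L * M * 2 ^ j / (2 * ((k : ℝ) + 1)) := by
      field_simp
      ring
    have h4 : M * (2 * (k : ℝ) + j + 3) ≤ L * M * 2 ^ j / (2 * ((k : ℝ) + 1)) := by
      rw [le_div_iff₀ (by positivity)]
      calc M * (2 * (k : ℝ) + j + 3) * (2 * (k + 1)) =
            1 / 2 * M * (4 * (k + 1) * (2 * k + j + 3)) := by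
            ring
        _ ≤ L * M * 2 ^ j := by gcongr
    have h5 : ((K : ℝ) + (j + 1)) * L + M ≤ M * (2 * (k : ℝ) + j + 3) := by
      have h6 : ((K : ℝ) + (j + 1)) * L ≤ ((K : ℝ) + (j + 1)) * M :=
        mul_le_mul_of_nonneg_left (hL2.trans hM1) (by positivity)
      have h7 : ((K : ℝ) + (j + 1)) * M ≤ (2 * (k : ℝ) + 1 + (j + 1)) * M :=
        mul_le_mul_of_nonneg_right (by linarith) (by linarith)
      linarith
    push_cast
    linarith
  calc (1 : ℝ) ≤ Real.exp (-(K * L) + L * (sK Φ K * (M * 2 ^ j)) +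
        (-(((j + 1 : ℕ) : ℝ) * L) + -((a * L + mg k) * (M * 2 ^ j) + M))) :=
        Real.one_le_exp hkey
    _ = (1 / 2 : ℝ) ^ K * (2 : ℝ) ^ (sK Φ K * ((2 ^ (nn Φ j + j) : ℕ) : ℝ)) *
        ((1 / 2 : ℝ) ^ (j + 1) * Real.exp (-((a * L + mg k) * (M * 2 ^ j) + M))) := by
        rw [hhalf, hpow, hhalf, ← Real.exp_add, ← Real.exp_add, ← Real.exp_add]
    _ ≤ _ := by gcongr

/-- The cover by the supergales of the family `b`. -/
theorem galecov {Φ : Par2} {ω : Om} {b : Bool} {X : Set Lang}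
    (hX : ∀ A ∈ X, ∀ k : ℕ, ∃ N, 1 ≤ dd Φ (hf Φ ω).2 (2 * k + b.toNat) (pre A N)) {s : ℝ}
    (hsa : al Φ b < s) : ∃ l : ℕ,
      IsGaleCover s (fun k => dd Φ (hf Φ ω).2 (2 * (k + l) + b.toNat)) X := by
  obtain ⟨l, hl⟩ := exists_nat_one_div_lt (show (0 : ℝ) < s - al Φ b by linarith)
  refine ⟨l, fun k => ⟨Pool.Agent.RelO.MAIN_.gale_mono ?_
    (dgale Φ (hf Φ ω).2 (2 * (k + l) + b.toNat)), ?_, ?_⟩⟩
  · rw [sK_eq]
    have h1 : (1 : ℝ) / (((k + l : ℕ) : ℝ) + 1) ≤ 1 / ((l : ℝ) + 1) := by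
      apply one_div_le_one_div_of_le (by positivity)
      push_cast
      linarith [Nat.cast_nonneg (α := ℝ) k]
    linarith
  · refine (dnil Φ (hf Φ ω).2 (2 * (k + l) + b.toNat)).trans ?_
    exact pow_le_pow_of_le_one (by norm_num) (by norm_num) (by omega)
  · intro A hA
    exact hX A hA (k + l)

/-- Reading the members of one family. -/
theorem appr2 (Φ : Par2) (ω : Om) (b : Bool) (l k r : ℕ) (w : List Bool) :
    ∃ n ≤ (500 * (l + 1)) * ((triple k r w).length + 2) + 40 * pad (2 * (k + l) + b.toNat) w,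
      Halts (oo Φ ω) (prog2 b l prg) (triple k r w) n ∧
      |outVal (run (oo Φ ω) (prog2 b l prg) (triple k r w) n) -
        dd Φ (hf Φ ω).2 (2 * (k + l) + b.toNat) w| ≤ (1 / 2 : ℝ) ^ r := by
  obtain ⟨n, hn, h1, h2⟩ := appr Φ ω (2 * (k + l) + b.toNat) r w
  obtain ⟨h3, h4⟩ := halts_two h1
  refine ⟨_, ?_, h3, by rw [h4]; exact h2⟩
  have hb : b.toNat ≤ 1 := by cases b <;> simp
  rw [triple_length] at hn ⊢
  obtain ⟨p, hp⟩ : ∃ p, p = pad (2 * (k + l) + b.toNat) w := ⟨_, rfl⟩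
  rw [← hp] at hn ⊢
  have h5 : 500 * (l + 1) * (k + r + w.length + 2 + 2) =
      500 * (k + r + w.length + 4) + 500 * (l * (k + r + w.length + 4)) := by ring
  have h6 : l * 4 ≤ l * (k + r + w.length + 4) := Nat.mul_le_mul_left _ (by omega)
  omega

/-- Null covers by the supergales of the first family. -/
theorem galenull1 {Φ : Par2} {ω : Om} {X : Set Lang}
    (hX : ∀ A ∈ X, ∀ k : ℕ, ∃ N, 1 ≤ dd Φ (hf Φ ω).2 (2 * k + false.toNat) (pre A N)) {s : ℝ}
    (hsa : al Φ false < s) : GaleNull1 s (oo Φ ω) X := by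
  obtain ⟨l, hcov⟩ := galecov hX hsa
  obtain ⟨c, hc⟩ := lin_le (500 * (l + 1))
  refine ⟨_, hcov, prog2 false l prg, c, approx_of fun k r w => ?_⟩
  obtain ⟨n, hn, h⟩ := appr2 Φ ω false l k r w
  refine ⟨n, hn.trans (le_trans ?_ (hc _)), h⟩
  have hp : pad (2 * (k + l) + false.toNat) w = 0 := by
    unfold pad
    rw [if_neg (by simp)]
  rw [hp]
  omega

/-- Null covers by the supergales of the second family. -/
theorem galenull2 {Φ : Par2} {ω : Om} {X : Set Lang}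
    (hX : ∀ A ∈ X, ∀ k : ℕ, ∃ N, 1 ≤ dd Φ (hf Φ ω).2 (2 * k + true.toNat) (pre A N)) {s : ℝ}
    (hsa : al Φ true < s) : GaleNull2 s (oo Φ ω) X := by
  obtain ⟨l, hcov⟩ := galecov hX hsa
  obtain ⟨c, hc⟩ := quasi_le (500 * (l + 1))
  refine ⟨_, hcov, prog2 true l prg, c, approx_of fun k r w => ?_⟩
  obtain ⟨n, hn, h⟩ := appr2 Φ ω true l k r w
  refine ⟨n, hn.trans (le_trans ?_ (hc _ w.length ?_)), h⟩
  · have hp : pad (2 * (k + l) + true.toNat) w = 2 ^ Nat.log 2 w.length ^ 2 := by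
      unfold pad
      rw [if_pos (by simp)]
    rw [hp]
  · rw [triple_length]
    omega

/-- If the two machines accept the same language, they do not differ. -/
theorem no_dif {Φ : Par2} {ω : Om} {j : ℕ} {A : Lang}
    (hN : ∀ x, acc (oo Φ ω) (mN j) x ↔ A x = true)
    (hM : ∀ t ∈ Wd Φ j,
      (run (oo Φ ω) (mM j).1 (str t) (2 ^ ((mM j).2 * ((str t).length + 1)))).st 1 =
        [A (str t)])
    (hH : ∀ t ∈ Wd Φ j, run (oo Φ ω) (mM j).1 (str t) (2 ^ ((mM j).2 * ((str t).length + 1))) =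
      run (ovM Φ j (hs Φ ω (j + 1)) ω) (mM j).1 (str t)
        (2 ^ ((mM j).2 * ((str t).length + 1)))) :
    ¬ Dif Φ j (hs Φ ω (j + 1)) ω := by
  rintro ⟨-, t, ht, h⟩
  refine h ?_
  rw [← truth_iff ω ht]
  unfold Tru ansM
  rw [hN, ← hH t ht, hM t ht]
  simp

theorem upp_of (hMH : T_MHIT) : T_UPP := by
  intro Φ
  have h : ∀ᵐ ω ∂(coin Φ), ∀ e k : ℕ, 4 / ((((cde e).2.2.1 : ℕ) : ℝ) + 1) ≤ mg k →
      ∀ m : ℕ, ∃ j, m ≤ j ∧ st j = e ∧ (Dif Φ j (hs Φ ω (j + 1)) ω ∨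
      Real.exp (-(((Pt Φ j).a * Real.log 2 + mg k) * 2 ^ (nn Φ j + j) + 2 ^ nn Φ j)) ≤
        Pw Φ (hf Φ ω).2 (ty Φ j) j (pre (Lj Φ j ω) (2 ^ (nn Φ j + j)))) := by
    refine ae_all_iff.2 fun e => ae_all_iff.2 fun k => ?_
    by_cases hk : 4 / ((((cde e).2.2.1 : ℕ) : ℝ) + 1) ≤ mg k
    · filter_upwards [io Φ e (mg k) hk] with ω hω _
      exact hω
    · exact Filter.Eventually.of_forall fun ω h => (hk h).elim
  filter_upwards [h, hMH Φ] with ω hω hH
  obtain ⟨j₀, hj₀⟩ := hH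
  have hacc : ∀ k : ℕ, ∃ v : ℕ, 4 / ((v : ℝ) + 1) ≤ mg k := by
    intro k
    obtain ⟨v, hv⟩ := exists_nat_one_div_lt (show (0 : ℝ) < mg k / 4 by
      have := mg_pos k
      positivity)
    refine ⟨v, ?_⟩
    have h1 : 4 / ((v : ℝ) + 1) = 4 * (1 / ((v : ℝ) + 1)) := by ring
    linarith
  have hL : ∀ {A : Lang} {P : List Instr} {b c j : ℕ}, mN j = (P, b, c) →
      (∀ x, A x = true ↔ ∃ y : List Bool, y.length ≤ (x.length + 2) ^ b ∧
        (run (oo Φ ω) P (pair x y) ((x.length + 2) ^ c)).st 1 = [true]) → Lj Φ j ω = A := by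
    intro A P b c j h1 h2
    classical
    funext x
    unfold Lj
    rw [Bool.eq_iff_iff, h2, decide_eq_true_eq, h1]
    rfl
  constructor
  · intro s hsa
    refine galenull1 ?_ (by unfold al; simpa using hsa)
    rintro A ⟨hA1, hA2⟩ k
    obtain ⟨P, b, c, hP⟩ := hA1
    obtain ⟨M, d, hM⟩ := hA2
    obtain ⟨v, hv⟩ := hacc k
    obtain ⟨e, he⟩ := cde_surj ((P, b, c), (M, d), v, false)
    refine covk fun m => ?_
    obtain ⟨j, hj, hst, hor⟩ := hω e k (by rw [he]; exact hv) (max m j₀)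
    have hty : ty Φ j = false := by
      unfold ty
      rw [hst, he]
    have hmN : mN j = (P, b, c) := by unfold mN; rw [hst, he]
    have hmM : mM j = (M, d) := by unfold mM; rw [hst, he]
    have hPt : Pt Φ j = Φ.A := by
      unfold Pt
      rw [hty, if_neg (by decide)]
    have hnd : ¬ Dif Φ j (hs Φ ω (j + 1)) ω := by
      refine no_dif (A := A) ?_ ?_ (hj₀ j ((le_max_right _ _).trans hj) hty)
      · intro x
        rw [(hP x).2, hmN]
        rfl
      · intro t _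
        rw [hmM]
        exact (hM (str t)).2
    refine ⟨j, (le_max_left _ _).trans hj, ?_⟩
    have h1 := hor.resolve_left hnd
    rw [hPt, hL hmN fun x => (hP x).2, hty] at h1
    unfold al
    simpa using h1
  · intro s hsa
    refine galenull2 ?_ (by unfold al; simpa using hsa)
    rintro A ⟨P, b, c, hP⟩ k
    obtain ⟨v, hv⟩ := hacc k
    obtain ⟨e, he⟩ := cde_surj ((P, b, c), ([], 0), v, true)
    refine covk fun m => ?_
    obtain ⟨j, hj, hst, hor⟩ := hω e k (by rw [he]; exact hv) m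
    have hty : ty Φ j = true := by
      unfold ty
      rw [hst, he]
    have hmN : mN j = (P, b, c) := by unfold mN; rw [hst, he]
    have hPt : Pt Φ j = Φ.B := by
      unfold Pt
      rw [hty, if_pos rfl]
    have hnd : ¬ Dif Φ j (hs Φ ω (j + 1)) ω := by
      rintro ⟨h1, -⟩
      rw [hty] at h1
      exact absurd h1 (by decide)
    refine ⟨j, hj, ?_⟩
    have h1 := hor.resolve_left hnd
    rw [hPt, hL hmN fun x => (hP x).2, hty] at h1
    unfold al
    simpa using h1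

end Pool.Agent.RelW
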