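import Pool.Agent.RelW.NNA
import Pool.Agent.RelM.HIT
import Pool.Agent.RelM.LOC

/-!
# The view of a gambler with advice, odd families
-/

set_option autoImplicit false

namespace Pool.Agent.RelW

open MeasureTheory Set
open scoped ENNReal
open Pool.Agent.RelM (Lang Instr Cfg step run Halts pair str pre wq sq0 sq1 Asks hq qb)
open Pool.Agent.RelO (lev levmono)
open Pool.Agent.RelS (Z Rl orcV orc Idx Om Dep mixP fd meas_of_dep ovis ocut bern)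
open Pool.Agent.RelT (Par Hist md md_pos md_spec ix ix_str qf seto)
open Pool.Agent.RelV (Cd cde cde_surj mN mM av nu)

section
variable {Φ : Par2} {κ t : ℕ}

theorem vs_odd (hκ : κ % 2 = 1) : vs Φ κ t = bl Φ κ (str t) := by
  unfold vs
  rw [if_neg]
  rintro ⟨h, _⟩
  omega

theorem blA_pos (h0 : nn Φ 0 ≤ lev κ (str t)) :
    ∃ J, bl Φ κ (str t) = J + 1 ∧ nn Φ J ≤ lev κ (str t) ∧ lev κ (str t) < nn Φ (J + 1) := by
  obtain ⟨i, h1, h2, _⟩ := stage Φ h0 le_rfl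
  exact ⟨i, jj_eq h1 h2, h1, h2⟩

/-- Hidden pairs are expensive. -/
theorem hiddenA (hκ : κ % 2 = 1) (h0 : nn Φ 0 ≤ lev κ (str t)) {κ' : ℕ} {x' : List Bool}
    (h : ¬ SS Φ κ t κ' x') : lev κ (str t) ≤ lev κ' x' := by
  obtain ⟨J, hJ, hJ1, hJ2⟩ := blA_pos h0
  by_cases h1 : lev κ' x' < nn Φ (vs Φ κ t)
  · have h2 : κ' = κ ∧ ∃ t', t ≤ t' ∧ x' = str t' := by
      by_contra h3
      exact h (Or.inl ⟨h1, h3⟩)
    obtain ⟨rfl, t', ht, rfl⟩ := h2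
    exact lev_mono _ ht
  · rw [vs_odd hκ, hJ] at h1
    omega

theorem visA_mono (hκ : κ % 2 = 1) {s : ℕ} (h : s ≤ t) : Vis Φ κ s ⊆ Vis Φ κ t := by
  rintro a ⟨h1, h2⟩
  refine ⟨?_, h2⟩
  rcases h1 with ⟨h3, h4⟩ | ⟨h3, t', ht', h4⟩
  · left
    refine ⟨h3.trans_le ((nnmono Φ).monotone ?_), ?_⟩
    · rw [vs_odd hκ, vs_odd hκ]
      exact jj_mono Φ (lev_mono κ h)
    · rintro ⟨h5, t', ht', h6⟩
      exact h4 ⟨h5, t', by omega, h6⟩
  · right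
    exact ⟨h3, t', by omega, h4⟩

/-- The coins on which the visible history depends are visible. -/
theorem ga_vis (hκ : κ % 2 = 1) {J : ℕ} (hJ : bl Φ κ (str t) = J + 1)
    (hJ1 : nn Φ J ≤ lev κ (str t)) {a : Idx} (ha : a ∈ GA Φ J) : a ∈ Vis Φ κ t := by
  have h0 : a ∈ Old Φ (J + 1) := ga_old Φ J ha
  refine ⟨Or.inl ⟨?_, ?_⟩, h0.2⟩
  · rw [vs_odd hκ, hJ]
    exact h0.1
  · rintro ⟨h1, t', ht', h2⟩
    rcases ha with ha | ⟨_, ha2, _⟩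
    · have h3 : lev a.1 a.2.1 < nn Φ J := ha.1
      rw [h1, h2] at h3
      have h4 := lev_mono κ ht'
      omega
    · rw [h1] at ha2
      omega

theorem hA_vis (α : Adv) (hκ : κ % 2 = 1) (h0 : nn Φ 0 ≤ lev κ (str t)) {ω ω' : Om}
    (h : ∀ a ∈ Vis Φ κ t, ω a = ω' a) :
    hA Φ α ω (bl Φ κ (str t)) = hA Φ α ω' (bl Φ κ (str t)) := by
  obtain ⟨J, hJ, hJ1, hJ2⟩ := blA_pos h0
  rw [hJ]
  exact hAdep Φ α J fun a ha => h a (ga_vis hκ hJ hJ1 ha)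

/-- The option seen by own earlier pairs and by this pair is final. -/
theorem ocA_view (α : Adv) {m : ℕ} (hm : m ≤ lev κ (str t)) (ω : Om) :
    oc Φ (hA Φ α ω (bl Φ κ (str t))).1 κ m = oc Φ (hfA Φ α ω).1 κ m :=
  oc_congr ((hAval Φ α ω _).1 _ (jj_mono Φ hm))

/-- The oracle with advice depends only on the visible coins. -/
theorem oA_dep {α : Adv} (hα : GdA Φ α) (hκ : κ % 2 = 1) (h0 : nn Φ 0 ≤ lev κ (str t))
    (F : List (List Bool)) {ω ω' : Om} (h : ∀ a ∈ Vis Φ κ t, ω a = ω' a) :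
    oA Φ α κ t F ω = oA Φ α κ t F ω' := by
  have hh := hA_vis α hκ h0 h
  have h1 : orcV (SS Φ κ t) (bitsOf Φ (hA Φ α ω (bl Φ κ (str t))).2)
      (zz Φ (hA Φ α ω (bl Φ κ (str t))).1 ω) =
      orcV (SS Φ κ t) (bitsOf Φ (hA Φ α ω' (bl Φ κ (str t))).2)
      (zz Φ (hA Φ α ω' (bl Φ κ (str t))).1 ω') := by
    rw [hh]
    funext q
    refine ovis _ _ _ _ (fun κ₁ x₁ y₁ hs₁ hy₁ => ?_) q
    unfold zz
    exact h _ ⟨hs₁, hy₁, (ocspec Φ _ κ₁ (lev κ₁ x₁) x₁ (gd_hA hα ω' _)).1⟩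
  funext q
  unfold oA
  rw [h1]

/-- On visible pairs the true world and the world with true advice agree. -/
theorem zz_true {α : Adv} {ω : Om} {l : ℕ} (hAG : AG Φ α ω l) (hκ : κ % 2 = 1)
    (h0 : nn Φ 0 ≤ lev κ (str t)) (hl : lev κ (str t) ≤ l) {κ₁ : ℕ} {x₁ : List Bool}
    (hS : SS Φ κ t κ₁ x₁) (y₁ : List Bool) :
    zz Φ (hf Φ ω).1 ω κ₁ x₁ y₁ = zz Φ (hA Φ α ω (bl Φ κ (str t))).1 ω κ₁ x₁ y₁ := by
  obtain ⟨J, hJ, hJ1, hJ2⟩ := blA_pos h0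
  have h1 : jj Φ (lev κ₁ x₁) ≤ J + 1 := by
    rcases hS with hS | ⟨rfl, t', ht', rfl⟩
    · rw [vs_odd hκ, hJ] at hS
      exact jj_lt_le hS.1
    · have := lev_mono κ₁ ht'.le
      exact jj_lt_le (by omega)
  have h2 : oc Φ (hf Φ ω).1 κ₁ (lev κ₁ x₁) = oc Φ (hA Φ α ω (bl Φ κ (str t))).1 κ₁
      (lev κ₁ x₁) := by
    rw [hJ, hA_true1 hAG (hJ1.trans hl)]
    exact oc_congr ((hsval Φ ω (J + 1)).1 _ h1).symm
  unfold zz
  rw [h2]

/-- A key of the true world may be a key. -/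
theorem ky_true (Φ : Par2) (ω : Om) {κ' : ℕ} {x' y' : List Bool} (h : zo Φ ω κ' x' y' = true) :
    Ky Φ ω κ' x' y' := by
  have h1 := ocspec Φ _ κ' (lev κ' x') x' (gd_hf Φ ω)
  exact ⟨_, h1.1, h1.2, h⟩

/-- Where the true oracle and the oracle with true advice differ. -/
theorem cutA (bloc : T_BLOC) {α : Adv} {ω : Om} {l : ℕ} (hAG : AG Φ α ω l) (hκ : κ % 2 = 1)
    (h0 : nn Φ 0 ≤ lev κ (str t)) (hl : lev κ (str t) ≤ l) {q : List Bool}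
    (hq : q.length < 2 ^ lev κ (str t))
    (hne : oo Φ ω q ≠ orcV (SS Φ κ t) (bitsOf Φ (hA Φ α ω (bl Φ κ (str t))).2)
      (zz Φ (hA Φ α ω (bl Φ κ (str t))).1 ω) q) :
    ∃ κ' x' y', ¬ SS Φ κ t κ' x' ∧ q = wq κ' x' y' ∧ Ky Φ ω κ' x' y' ∧ oo Φ ω q = true := by
  classical
  obtain ⟨J, hJ, hJ1, hJ2⟩ := blA_pos h0
  rcases ocut (SS Φ κ t) (bitsOf Φ (hf Φ ω).2) (bitsOf Φ (hA Φ α ω (bl Φ κ (str t))).2)
    (zz Φ (hf Φ ω).1 ω) (zz Φ (hA Φ α ω (bl Φ κ (str t))).1 ω)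
    (fun κ₁ x₁ y₁ hS _ => zz_true hAG hκ h0 hl hS y₁) q hne with
    ⟨κ', x', y', hS, hy', hq', hz'⟩ | ⟨κ', x', m', hS, hq', hm'⟩ | ⟨u, hq', hu⟩
  · refine ⟨κ', x', y', hS, hq', ky_true Φ ω hz', ?_⟩
    show orcV (fun _ _ => True) (bitsOf Φ (hf Φ ω).2) (zz Φ (hf Φ ω).1 ω) q = true
    unfold orcV
    rw [decide_eq_true_eq]
    exact Or.inl ⟨κ', x', y', trivial, hy', hq', hz'⟩
  · exfalso
    have h2 := Pool.Agent.RelM.HitJob.le_length_sq1 κ' x' m'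
    rw [← hq'] at h2
    have h4 : 2 ^ lev κ (str t) ≤ 2 ^ lev κ' x' :=
      Nat.pow_le_pow_right (by norm_num) (hiddenA hκ h0 hS)
    omega
  · exfalso
    apply hu
    have h9 : q.length = u.length + 2 := by rw [hq']; simp
    have key : ∀ i, i ≤ J → (ty Φ i = true → nn Φ i ^ 2 ≤ l) →
        (hf Φ ω).2 i = (hA Φ α ω (bl Φ κ (str t))).2 i := by
      intro i hi hr
      rw [hJ, hA_true2 hAG (hJ1.trans hl) hi hr]
      exact ((hsval Φ ω (J + 1)).2 i (by omega)).symm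
    have hlt : ∀ m, 2 ^ m ≤ u.length → m < lev κ (str t) := by
      intro m hm
      by_contra h
      have : 2 ^ lev κ (str t) ≤ 2 ^ m := Nat.pow_le_pow_right (by norm_num) (not_lt.1 h)
      omega
    have hJi : ∀ i, nn Φ i < lev κ (str t) → i ≤ J := by
      intro i hi
      by_contra h
      have := (nnmono Φ).monotone (show J + 1 ≤ i by omega)
      omega
    refine bloc Φ _ _ u (fun i hi1 hi2 => ?_) fun i hi1 hi2 => ?_
    · refine key i (hJi i (hlt _ hi2)) fun h => ?_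
      rw [hi1] at h
      exact absurd h (by decide)
    · have h5 := hlt _ hi2
      refine key i (hJi i ?_) fun _ => by omega
      have h6 : nn Φ i ≤ nn Φ i ^ 2 := Nat.le_self_pow (by norm_num) _
      omega

end

end Pool.Agent.RelW
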