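import Pool.Agent.RelW.DESC2
import Pool.Agent.RelW.CRS1

/-!
# The gamblers with advice and descriptions
-/

set_option autoImplicit false

namespace Pool.Agent.RelW

open MeasureTheory Set
open scoped ENNReal
open Pool.Agent.RelM (Lang Instr Cfg step run Halts triple outVal Approx str pre)
open Pool.Agent.RelO (lev IsGale IsGaleCover levmono levfin)
open Pool.Agent.RelS (Z Rl Idx Om Dep meas_of_dep)
open Pool.Agent.RelT (Cond prc wgt GG)

namespace WINA_

theorem pre_length (A : Lang) (n : ℕ) : (pre A n).length = n := by simp [pre]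

theorem pre_succ (A : Lang) (n : ℕ) : pre A (n + 1) = pre A n ++ [A (str n)] := by
  unfold pre
  rw [List.range_succ, List.map_append]
  rfl

theorem triple_length (k r : ℕ) (w : List Bool) :
    (triple k r w).length = k + r + w.length + 2 := by
  simp [triple]; omega

/-- The time of run `n`. -/
def tt (j n : ℕ) : ℕ := j + (n - 1) / 2

/-- The last bit of the input of run `n`. -/
def ex1 (n : ℕ) : List Bool := if n = 0 then [] else [decide (n % 2 = 0)]

/-- The precision of run `n`. -/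
def rr (q j n : ℕ) : ℕ := if n = 0 then 2 * q * j + 1 else q * ((n - 1) / 2 + 1) + 2 * q * j + 1

/-- The input of run `n` on the language `R`. -/
noncomputable def ip (q j : ℕ) (R : Lang) (n : ℕ) : List Bool :=
  triple (3 * q * j) (rr q j n) (pre R (tt j n) ++ ex1 n)

/-- The length of the input. -/
def Ln (q j n : ℕ) : ℕ := 3 * q * j + rr q j n + (tt j n + (ex1 n).length) + 2

/-- The number of steps. -/
def TT (c q j n : ℕ) : ℕ := (Ln q j n + 2) ^ c

theorem ip_length (q j : ℕ) (R : Lang) (n : ℕ) : (ip q j R n).length = Ln q j n := by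
  unfold ip Ln
  rw [triple_length, List.length_append, pre_length]

theorem tt_odd (j i : ℕ) : tt j (2 * i + 1) = j + i := by
  unfold tt
  omega

theorem tt_even (j i : ℕ) : tt j (2 * i + 2) = j + i := by
  unfold tt
  omega

theorem tt_zero (j : ℕ) : tt j 0 = j := rfl

theorem tt_mono (j : ℕ) : Monotone (tt j) := by
  intro a b h
  unfold tt
  omega

theorem tt_ge (j n : ℕ) : j ≤ tt j n := Nat.le_add_right _ _

theorem ex1_len (n : ℕ) : (ex1 n).length ≤ 1 := by
  unfold ex1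
  split_ifs <;> simp

/-- The number of the run with the bit `b` at time `i`. -/
def rn (i : ℕ) (b : Bool) : ℕ := if b = true then 2 * i + 2 else 2 * i + 1

theorem tt_rn (j i : ℕ) (b : Bool) : tt j (rn i b) = j + i := by
  unfold rn
  split_ifs
  · exact tt_even j i
  · exact tt_odd j i

theorem rr_rn (q j i : ℕ) (b : Bool) : rr q j (rn i b) = q * (i + 1) + 2 * q * j + 1 := by
  cases b
  · have h1 : rn i false = 2 * i + 1 := rfl
    rw [h1]
    unfold rr
    rw [if_neg (by omega), show (2 * i + 1 - 1) / 2 = i by omega]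
  · have h1 : rn i true = 2 * i + 2 := rfl
    rw [h1]
    unfold rr
    rw [if_neg (by omega), show (2 * i + 2 - 1) / 2 = i by omega]

theorem ex1_rn (i : ℕ) (b : Bool) : ex1 (rn i b) = [b] := by
  cases b
  · have h1 : rn i false = 2 * i + 1 := rfl
    rw [h1]
    unfold ex1
    rw [if_neg (by omega), decide_eq_false (by omega)]
  · have h1 : rn i true = 2 * i + 2 := rfl
    rw [h1]
    unfold ex1
    rw [if_neg (by omega), decide_eq_true (by omega)]

end WINA_

open WINA_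

section
variable (Φ : Par2) (α : Adv) (κ : ℕ) (Pr : List Instr) (c q j : ℕ) (S : List (ℕ × ℕ))

/-- The input with advice. -/
noncomputable def II (n : ℕ) (ω : Om) : List Bool := ip q j (RA Φ α κ ω) n

/-- The value of run `n` with the described keys. -/
noncomputable def vl (n : ℕ) (ω : Om) : ℝ :=
  |outVal (run (oA Φ α κ (tt j n) (fk Φ α κ Pr (tt j) (II Φ α κ q j)
    (S.filter fun e => decide (e.1 ≤ n)) ω) ω) Pr (II Φ α κ q j n ω) (TT c q j n))|

/-- The values at time `i + 1`. -/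
noncomputable def XX (i : ℕ) (b : Bool) (ω : Om) : ℝ := vl Φ α κ Pr c q j S (rn i b) ω

/-- The value at time `0`. -/
noncomputable def YY (ω : Om) : ℝ := vl Φ α κ Pr c q j S 0 ω

/-- The bits. -/
noncomputable def bA (i : ℕ) (ω : Om) : Bool := RA Φ α κ ω (str (j + i))

/-- The errors. -/
noncomputable def ee (i : ℕ) : ℝ := (1 / 2 : ℝ) ^ (q * i + 2 * q * j)

/-- The event that the gambler with the advice `α` and the description `S` has won at time `T`. -/
def Wn (s : ℝ) (T : ℕ) : Set Om :=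
  GG (bA Φ α κ j) (XX Φ α κ Pr c q j S) (YY Φ α κ Pr c q j S) (ee q j)
    (2 * (1 / 2 : ℝ) ^ (2 * q * j)) s T ∩
  {ω | 1 / 2 ≤ prc (bA Φ α κ j) (XX Φ α κ Pr c q j S) (YY Φ α κ Pr c q j S) T ω}

end

section
variable {Φ : Par2} {α : Adv} {κ j : ℕ}

theorem mkDs (hα : GdA Φ α) (hκ : κ % 2 = 1) (h0 : ∀ t, j ≤ t → nn Φ 0 ≤ lev κ (str t))
    (q : ℕ) : Ds Φ α κ (tt j) (II Φ α κ q j) := by
  refine ⟨hα, hκ, tt_mono j, fun n => h0 _ (tt_ge j n), fun n ω ω' hω => ?_⟩
  unfold II ip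
  have h1 : pre (RA Φ α κ ω) (tt j n) = pre (RA Φ α κ ω') (tt j n) := by
    unfold pre
    refine List.map_congr_left fun i hi => ?_
    exact bitA_dep hα hκ (h0 _ (tt_ge j n)) (List.mem_range.mp hi) hω
  rw [h1]

theorem vl_dep (hα : GdA Φ α) (hκ : κ % 2 = 1) (h0 : ∀ t, j ≤ t → nn Φ 0 ≤ lev κ (str t))
    (Pr : List Instr) (c q : ℕ) (S : List (ℕ × ℕ)) (n : ℕ) :
    Dep (Vis Φ κ (tt j n)) (vl Φ α κ Pr c q j S n) := by
  intro ω ω' hω
  have D := mkDs hα hκ h0 q
  unfold vl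
  rw [DESC_.fk_dep (n := n) D (fun e he => by
    have := (List.mem_filter.1 he).2
    exact of_decide_eq_true this) hω, oA_dep hα hκ (h0 _ (tt_ge j n)) _ hω, D.dep n ω ω' hω]

theorem condA (hα : GdA Φ α) (hκ : κ % 2 = 1) (h0 : ∀ t, j ≤ t → nn Φ 0 ≤ lev κ (str t))
    (Pr : List Instr) (c q : ℕ) (S : List (ℕ × ℕ)) {θ η : ℝ}
    (hθ0 : 0 < θ) (hθ1 : θ < 1) (hη : 2 * θ ≤ η * (1 - θ)) :
    Cond (coin Φ) (bA Φ α κ j) (XX Φ α κ Pr c q j S) (YY Φ α κ Pr c q j S)
      (fun i => rA Φ α κ (j + i))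
      (fun t ω ω' => ∀ a ∈ Vis Φ κ (j + t), ω a = ω' a) (ee q j)
      (2 * (1 / 2 : ℝ) ^ (2 * q * j)) θ η := by
  have hXd : ∀ i b, Dep (Vis Φ κ (j + i)) (XX Φ α κ Pr c q j S i b) := fun i b => by
    have := vl_dep hα hκ h0 Pr c q S (rn i b)
    rw [tt_rn] at this
    exact this
  have hYd : Dep (Vis Φ κ j) (YY Φ α κ Pr c q j S) := vl_dep hα hκ h0 Pr c q S 0
  have hfin : ∀ t, (Vis Φ κ t).Finite := visfin Φ κ
  have hb : ∀ s t, s < t → j ≤ t → Dep (Vis Φ κ t) fun ω => RA Φ α κ ω (str s) :=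
    fun s t h1 h2 ω ω' h => bitA_dep hα hκ (h0 _ h2) h1 h
  refine ⟨fun t => ?_, fun t i => ?_, ?_, fun t => ?_, ?_, ?_, ?_, ?_, ?_, ?_, ?_, ?_, ?_, ?_,
    by positivity, hθ0, hθ1, hη⟩
  · exact meas_of_dep (hfin (j + t + 1)) (hb (j + t) _ (Nat.lt_succ_self (j + t)) (by omega))
  · exact meas_of_dep (hfin _) (hXd t i)
  · exact meas_of_dep (hfin _) hYd
  · exact meas_of_dep (hfin (j + t)) (rA_dep α hκ (h0 _ (by omega)))
  · intro t ω ω' h
    exact hYd ω ω' fun a ha => h a (visA_mono hκ (by omega) ha)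
  · intro s t hst ω ω' h
    exact hb (j + s) (j + t) (by omega) (by omega) ω ω' h
  · intro s t hst i ω ω' h
    exact hXd s i ω ω' fun a ha => h a (visA_mono hκ (by omega) ha)
  · intro s t hst ω ω' h
    exact rA_dep α hκ (h0 _ (by omega)) ω ω' fun a ha =>
      h a (visA_mono hκ (by omega : j + s ≤ j + t) ha)
  · intro t i H hH hHd
    exact fairA hα hκ i (h0 _ (by omega)) hH hHd
  · intro t i ω
    exact abs_nonneg _
  · intro ω
    exact abs_nonneg _
  · intro t ω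
    exact (Real.exp_pos _).le
  · intro t ω
    refine Real.exp_le_one_iff.2 ?_
    have := it_nonneg Φ κ (str (j + t)) (oc Φ (hA Φ α ω (bl Φ κ (str (j + t)))).1 κ
      (lev κ (str (j + t))))
    linarith
  · intro t
    unfold ee
    positivity

end

/-- The probability that a gambler with advice and a description wins. -/
theorem win_bound (Φ : Par2) {κ : ℕ} (hκ : κ % 2 = 1) {s θ η C : ℝ} {q : ℕ}
    (hq : |s| + 2 ≤ q) (hη0 : 0 < η) (hθ0 : 0 < θ) (hθ1 : θ < 1) (hη : 2 * θ ≤ η * (1 - θ))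
    (hC : ∀ (α : Adv) (t : ℕ) (ω : Om), GdA Φ α → (s * Real.log 2 + 2 * η) * t - C ≤
      ∑ t' ∈ Finset.range t, Real.binEntropy (rA Φ α κ t' ω)) :
    ∃ M : ℝ, 0 ≤ M ∧ ∀ (α : Adv) (Pr : List Instr) (c j : ℕ) (S : List (ℕ × ℕ)) (T : ℕ),
      GdA Φ α → (∀ t, j ≤ t → nn Φ 0 ≤ lev κ (str t)) →
      coin Φ (Wn Φ α κ Pr c q j S s T) ≤
        ENNReal.ofReal (M * ((2 : ℝ) ^ (-(θ * q))) ^ j * Real.exp (-(θ * η)) ^ T) := by
  obtain ⟨ρ, hρ⟩ : ∃ ρ : ℝ, ρ = (2 : ℝ) ^ (-θ) := ⟨_, rfl⟩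
  have hρ0 : 0 < ρ := by rw [hρ]; positivity
  have hρ1 : ρ < 1 := by
    rw [hρ]
    exact Real.rpow_lt_one_of_one_lt_of_neg (by norm_num) (by linarith)
  have hhalf : ∀ n : ℕ, ((1 / 2 : ℝ) ^ n) ^ θ = ρ ^ n := by
    intro n
    rw [← Real.rpow_natCast (1 / 2 : ℝ) n, ← Real.rpow_mul (by norm_num), mul_comm (n : ℝ) θ,
      Real.rpow_mul (by norm_num), Real.rpow_natCast, hρ, Real.rpow_neg (by norm_num), one_div,
      Real.inv_rpow (by norm_num)]
  obtain ⟨Λ, hΛ⟩ : ∃ Λ : ℝ, Λ = (2 : ℝ) ^ θ + 1 / (1 - ρ) := ⟨_, rfl⟩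
  have hΛ0 : 0 ≤ Λ := by
    rw [hΛ]
    have : 0 < 1 - ρ := by linarith
    positivity
  have hlog : 0 < Real.log 2 := Real.log_pos (by norm_num)
  refine ⟨Λ * (2 : ℝ) ^ θ * Real.exp (θ * C), by positivity, fun α Pr c j S T hα h0 => ?_⟩
  have hcond := condA hα hκ h0 Pr c q S hθ0 hθ1 hη
  refine (crs1 hcond s (C + q * j * Real.log 2) (ρ ^ (2 * q * j) * Λ) T ?_ ?_).trans ?_
  · have h1 : (2 * (1 / 2 : ℝ) ^ (2 * q * j)) ^ θ = (2 : ℝ) ^ θ * ρ ^ (2 * q * j) := by
      rw [Real.mul_rpow (by norm_num) (by positivity), hhalf]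
    have h2 : ∀ t : ℕ, (2 : ℝ) ^ (θ * (1 + |s|) * t) * ee q j t ^ θ ≤
        ρ ^ (2 * q * j) * ρ ^ t := by
      intro t
      unfold ee
      rw [hhalf, pow_add]
      have e1 : (2 : ℝ) ^ (θ * (1 + |s|) * t) * ρ ^ (q * t) ≤ ρ ^ t := by
        have e2 : ∀ n : ℕ, ρ ^ n = (2 : ℝ) ^ (-(θ * n)) := by
          intro n
          rw [hρ, ← Real.rpow_natCast, ← Real.rpow_mul (by norm_num)]
          congr 1
          ring
        rw [e2, e2, ← Real.rpow_add (by norm_num)]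
        refine Real.rpow_le_rpow_of_exponent_le (by norm_num) ?_
        push_cast
        have e3 : 0 ≤ θ * t * (q - (|s| + 2)) :=
          mul_nonneg (mul_nonneg hθ0.le (Nat.cast_nonneg t)) (by linarith)
        linarith
      calc (2 : ℝ) ^ (θ * (1 + |s|) * t) * (ρ ^ (q * t) * ρ ^ (2 * q * j))
          = ρ ^ (2 * q * j) * ((2 : ℝ) ^ (θ * (1 + |s|) * t) * ρ ^ (q * t)) := by ring
        _ ≤ _ := mul_le_mul_of_nonneg_left e1 (by positivity)
    have h3 : ∑ t ∈ Finset.range T, ρ ^ t ≤ 1 / (1 - ρ) := by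
      have e1 := (summable_geometric_of_lt_one hρ0.le hρ1).sum_le_tsum (Finset.range T)
        (fun t _ => pow_nonneg hρ0.le t)
      rw [tsum_geometric_of_lt_one hρ0.le hρ1] at e1
      rw [one_div]
      exact e1
    rw [h1]
    calc (2 : ℝ) ^ θ * ρ ^ (2 * q * j) +
          ∑ t ∈ Finset.range T, (2 : ℝ) ^ (θ * (1 + |s|) * t) * ee q j t ^ θ
        ≤ (2 : ℝ) ^ θ * ρ ^ (2 * q * j) + ∑ t ∈ Finset.range T, ρ ^ (2 * q * j) * ρ ^ t :=
          add_le_add le_rfl (Finset.sum_le_sum fun t _ => h2 t)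
      _ = ρ ^ (2 * q * j) * ((2 : ℝ) ^ θ + ∑ t ∈ Finset.range T, ρ ^ t) := by
          rw [← Finset.mul_sum]
          ring
      _ ≤ ρ ^ (2 * q * j) * Λ := by
          rw [hΛ]
          refine mul_le_mul_of_nonneg_left (by linarith) (by positivity)
  · intro ω
    unfold wgt
    apply Real.exp_le_exp.2
    refine mul_le_mul_of_nonneg_left ?_ hθ0.le
    have h1 := hC α (j + T) ω hα
    rw [Finset.sum_range_add] at h1
    have h2 : ∑ t' ∈ Finset.range j, Real.binEntropy (rA Φ α κ t' ω) ≤ j * Real.log 2 := by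
      calc ∑ t' ∈ Finset.range j, Real.binEntropy (rA Φ α κ t' ω)
          ≤ ∑ t' ∈ Finset.range j, Real.log 2 :=
            Finset.sum_le_sum fun _ _ => Real.binEntropy_le_log_two
        _ = _ := by rw [Finset.sum_const, Finset.card_range, nsmul_eq_mul]
    have h3 : ∑ t ∈ Finset.range T, (Real.binEntropy (rA Φ α κ (j + t) ω) -
          s * Real.log 2 - η) =
        ∑ t ∈ Finset.range T, Real.binEntropy (rA Φ α κ (j + t) ω) -
          (s * Real.log 2 + η) * T := by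
      rw [Finset.sum_sub_distrib, Finset.sum_sub_distrib, Finset.sum_const, Finset.sum_const,
        Finset.card_range, nsmul_eq_mul, nsmul_eq_mul]
      ring
    rw [h3]
    push_cast at h1
    have h4 : 0 ≤ (j : ℝ) * Real.log 2 * (q - (1 - s)) := by
      refine mul_nonneg (by positivity) ?_
      linarith [neg_abs_le s]
    have h5 : 0 ≤ η * (j : ℝ) := by positivity
    nlinarith
  · apply ENNReal.ofReal_le_ofReal
    apply le_of_eq
    have h1 : Real.exp (θ * (C + q * j * Real.log 2)) = Real.exp (θ * C) *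
        ((2 : ℝ) ^ (θ * q)) ^ j := by
      rw [mul_add, Real.exp_add, Real.rpow_def_of_pos (by norm_num), ← Real.exp_nat_mul]
      congr 2
      ring
    have h2 : ρ ^ (2 * q * j) * ((2 : ℝ) ^ (θ * q)) ^ j = ((2 : ℝ) ^ (-(θ * q))) ^ j := by
      have e1 : ρ ^ (2 * q * j) = ((2 : ℝ) ^ (-(2 * θ * q))) ^ j := by
        rw [pow_mul, hρ, ← Real.rpow_natCast ((2 : ℝ) ^ (-θ)), ← Real.rpow_mul (by norm_num)]
        congr 2
        push_cast
        ring
      rw [e1, ← mul_pow, ← Real.rpow_add (by norm_num)]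
      congr 2
      ring
    rw [h1, ← h2]
    ring

end Pool.Agent.RelW
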